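import Mathlib
import Pool.Agent.H373R2.BH.Local
import Pool.Agent.H373R2.BH.Pair

namespace Pool.Agent.H373R2.SH
open Finset Polynomial
open Pool.Agent.H646 (rat)
open Pool.Agent.H646.TuplesM (rat_ge_one rat_nonneg)
open Pool.Agent.H373R2.BH

/-- number of solutions of `f(r) = c` modulo a prime -/
lemma roots_le (f : ℕ[X]) (hf : 1 ≤ f.natDegree) : ∃ D : ℕ, 1 ≤ D ∧ ∀ p : ℕ, p.Prime → ∀ c : ℕ,
    #{r ∈ range p | f.eval r ≡ c [MOD p]} ≤ D := by
  refine ⟨max f.natDegree f.leadingCoeff, le_max_of_le_left hf, fun p hp c => ?_⟩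
  have hf0 : f ≠ 0 := by rintro rfl; simp at hf
  have hlc : f.leadingCoeff ≠ 0 := leadingCoeff_ne_zero.2 hf0
  by_cases hdvd : p ∣ f.leadingCoeff
  · calc #{r ∈ range p | f.eval r ≡ c [MOD p]} ≤ #(range p) := card_filter_le _ _
      _ = p := card_range p
      _ ≤ f.leadingCoeff := Nat.le_of_dvd (Nat.pos_of_ne_zero hlc) hdvd
      _ ≤ _ := le_max_right _ _
  · have : Fact p.Prime := ⟨hp⟩
    set g : (ZMod p)[X] := f.map (Nat.castRingHom (ZMod p)) with hg
    have hlc' : (Nat.castRingHom (ZMod p)) f.leadingCoeff ≠ 0 := by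
      simp only [eq_natCast]
      rwa [Ne, ZMod.natCast_eq_zero_iff]
    have hdeg : g.natDegree = f.natDegree := natDegree_map_of_leadingCoeff_ne_zero _ hlc'
    have hdeg' : 0 < g.degree := natDegree_pos_iff_degree_pos.1 (by omega)
    have hne : g - C (c : ZMod p) ≠ 0 := by
      intro h
      have h2 : g = C (c : ZMod p) := by rwa [sub_eq_zero] at h
      rw [h2, natDegree_C] at hdeg
      omega
    have h1 : (({r ∈ range p | f.eval r ≡ c [MOD p]}).image (fun r : ℕ => (r : ZMod p))) ⊆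
        (g - C (c : ZMod p)).roots.toFinset := by
      intro r hr
      rw [mem_image] at hr
      obtain ⟨n, hn, rfl⟩ := hr
      rw [mem_filter] at hn
      rw [Multiset.mem_toFinset, mem_roots hne, IsRoot, eval_sub, eval_C, sub_eq_zero, hg]
      have h2 : (f.map (Nat.castRingHom (ZMod p))).eval (n : ZMod p) = ((f.eval n : ℕ) : ZMod p) :=
        eval_natCast_map _ _ _
      rw [h2]
      exact (ZMod.natCast_eq_natCast_iff _ _ _).2 hn.2
    have hinj : Set.InjOn (fun r : ℕ => (r : ZMod p)) ({r ∈ range p | f.eval r ≡ c [MOD p]} : Finset ℕ) := by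
      intro a ha b hb hab
      rw [mem_coe, mem_filter, mem_range] at ha hb
      have := (ZMod.natCast_eq_natCast_iff _ _ _).1 hab
      exact Nat.ModEq.eq_of_lt_of_lt this ha.1 hb.1
    calc #{r ∈ range p | f.eval r ≡ c [MOD p]} =
          #(({r ∈ range p | f.eval r ≡ c [MOD p]}).image (fun r : ℕ => (r : ZMod p))) :=
          (card_image_of_injOn hinj).symm
      _ ≤ #((g - C (c : ZMod p)).roots.toFinset) := card_le_card h1
      _ ≤ Multiset.card (g - C (c : ZMod p)).roots := Multiset.toFinset_card_le _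
      _ ≤ g.natDegree := card_roots_sub_C' hdeg'
      _ = f.natDegree := hdeg
      _ ≤ _ := le_max_left _ _

lemma LD_eval' (g : ℕ[X]) : LD (fun n => g.eval n) := by
  have : (fun n => g.eval n) = fun n => ∑ j ∈ range (g.natDegree + 1), g.coeff j * n ^ j := by
    funext n; exact eval_eq_sum_range n
  rw [this]
  exact LD.sum _ _ fun j _ => LD.const_mul _ (LD.pow j)

lemma eval_modEq (f : ℕ[X]) {m a b : ℕ} (h : a ≡ b [MOD m]) : f.eval a ≡ f.eval b [MOD m] := by
  rw [← ZMod.natCast_eq_natCast_iff] at h ⊢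
  have h1 : ∀ n : ℕ, (f.map (Nat.castRingHom (ZMod m))).eval (n : ZMod m) = ((f.eval n : ℕ) : ZMod m) := fun n =>
    eval_natCast_map _ _ _
  rw [← h1, ← h1, h]

/-- number of solutions modulo a squarefree number -/
lemma roots_sqfree (f : ℕ[X]) (D : ℕ) (hD : ∀ p : ℕ, p.Prime → ∀ c : ℕ, #{r ∈ range p | f.eval r ≡ c [MOD p]} ≤ D)
    (q : ℕ) (hq : Squarefree q) (c : ℕ) : #{r ∈ range q | f.eval r ≡ c [MOD q]} ≤ D ^ (#q.primeFactors) := by
  have hq0 : q ≠ 0 := hq.ne_zero
  have hprod : ∏ p ∈ q.primeFactors, p = q := Nat.prod_primeFactors_of_squarefree hq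
  have h1 := crt_count q.primeFactors (fun p hp => Nat.prime_of_mem_primeFactors hp)
    (fun p r => f.eval r ≡ c [MOD p])
  rw [hprod] at h1
  have h2 : #{r ∈ range q | f.eval r ≡ c [MOD q]} ≤
      #{r ∈ range q | ∀ p ∈ q.primeFactors, f.eval (r % p) ≡ c [MOD p]} := by
    apply card_le_card
    intro r hr
    rw [mem_filter] at hr ⊢
    refine ⟨hr.1, fun p hp => ?_⟩
    have h3 : f.eval r ≡ c [MOD p] := hr.2.of_dvd (Nat.dvd_of_mem_primeFactors hp)
    exact (eval_modEq f (Nat.mod_modEq r p)).trans h3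
  refine h2.trans ?_
  rw [h1]
  calc ∏ p ∈ q.primeFactors, #{r ∈ range p | f.eval r ≡ c [MOD p]} ≤ ∏ _p ∈ q.primeFactors, D :=
        prod_le_prod' fun p hp => hD p (Nat.prime_of_mem_primeFactors hp) c
    _ = _ := by rw [prod_const]

/-- `D ^ ω(q) ≤ C q^δ` for squarefree `q` -/
lemma pow_omega_le (D : ℕ) (hD1 : 1 ≤ D) (δ : ℝ) (hδ : 0 < δ) : ∃ C : ℝ, 0 < C ∧ ∀ q : ℕ, Squarefree q →
    ((D ^ (#q.primeFactors) : ℕ) : ℝ) ≤ C * (q : ℝ) ^ δ := by
  obtain ⟨P, hP⟩ := exists_nat_gt ((D : ℝ) ^ (1 / δ))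
  have hD1r : (1 : ℝ) ≤ D := by exact_mod_cast hD1
  refine ⟨(D : ℝ) ^ P, by positivity, fun q hq => ?_⟩
  have hprod : ∏ p ∈ q.primeFactors, p = q := Nat.prod_primeFactors_of_squarefree hq
  have h1 : (q : ℝ) ^ δ = ∏ p ∈ q.primeFactors, (p : ℝ) ^ δ := by
    conv_lhs => rw [← hprod]
    rw [Nat.cast_prod, Real.finsetProd_rpow _ _ (fun p _ => by positivity)]
  rw [h1]
  push_cast
  calc (D : ℝ) ^ (#q.primeFactors) = ∏ _p ∈ q.primeFactors, (D : ℝ) := by rw [prod_const]
    _ ≤ ∏ p ∈ q.primeFactors, ((if p < P then (D : ℝ) else 1) * (p : ℝ) ^ δ) := by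
        apply prod_le_prod (fun p _ => by positivity)
        intro p hp
        have hp2 : (2 : ℝ) ≤ p := by exact_mod_cast (Nat.prime_of_mem_primeFactors hp).two_le
        have hp1 : (1 : ℝ) ≤ (p : ℝ) ^ δ := Real.one_le_rpow (by linarith) hδ.le
        split_ifs with h
        · nlinarith
        · push Not at h
          rw [one_mul]
          have h3 : (D : ℝ) ^ (1 / δ) ≤ p := by
            have : (P : ℝ) ≤ p := by exact_mod_cast h
            linarith
          calc (D : ℝ) = ((D : ℝ) ^ (1 / δ)) ^ δ := by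
                rw [← Real.rpow_mul (by positivity), one_div, inv_mul_cancel₀ hδ.ne', Real.rpow_one]
            _ ≤ _ := Real.rpow_le_rpow (by positivity) h3 hδ.le
    _ = (∏ p ∈ q.primeFactors, (if p < P then (D : ℝ) else 1)) * ∏ p ∈ q.primeFactors, (p : ℝ) ^ δ := prod_mul_distrib
    _ ≤ _ := by
        apply mul_le_mul_of_nonneg_right _ (prod_nonneg fun p _ => by positivity)
        rw [prod_ite, prod_const, prod_const_one, mul_one]
        refine pow_le_pow_right₀ hD1r ?_
        have : (q.primeFactors.filter (fun p => p < P)) ⊆ range P := by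
          intro p hp
          rw [mem_filter] at hp
          exact mem_range.2 hp.2
        simpa using card_le_card this

lemma rat_le_sqfree (A : ℕ) (s : ℝ) (hs0 : 0 < s) (hs1 : s < 1) : ∃ C : ℝ, 0 < C ∧ ∀ n : ℕ, 1 ≤ n →
    rat n ^ A ≤ C * ∑ d ∈ n.divisors.filter Squarefree, (d : ℝ) ^ (-s) := by
  obtain ⟨P, hP⟩ := local_factor A s hs0 hs1
  refine ⟨(2 ^ A) ^ P, by positivity, fun n hn => ?_⟩
  have hn0 : (0 : ℝ) < n := by exact_mod_cast hn
  have h1 : (Nat.totient n : ℝ) = n * ∏ p ∈ n.primeFactors, (1 - (p : ℝ)⁻¹) := by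
    have := Nat.totient_eq_mul_prod_factors n
    have h2 : ((Nat.totient n : ℚ) : ℝ) = ((n * ∏ p ∈ n.primeFactors, (1 - (p : ℚ)⁻¹) : ℚ) : ℝ) := by
      rw [this]
    push_cast at h2
    exact h2
  have h2 : rat n = ∏ p ∈ n.primeFactors, ((1 : ℝ) - (p : ℝ)⁻¹)⁻¹ := by
    unfold rat
    rw [h1, ← div_div, div_self hn0.ne', one_div, Finset.prod_inv_distrib]
  rw [h2, ← Finset.prod_pow]
  calc ∏ p ∈ n.primeFactors, (((1 : ℝ) - (p : ℝ)⁻¹)⁻¹) ^ A
      ≤ ∏ p ∈ n.primeFactors, ((if p < P then (2 : ℝ) ^ A else 1) * (1 + (p : ℝ) ^ (-s))) := by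
        refine Finset.prod_le_prod (fun p hp => ?_) fun p hp => ?_
        · have h2 : (2 : ℝ) ≤ p := by exact_mod_cast (Nat.prime_of_mem_primeFactors hp).two_le
          have : (p : ℝ)⁻¹ ≤ 1 := inv_le_one_of_one_le₀ (by linarith)
          exact pow_nonneg (inv_nonneg.2 (by linarith)) A
        · exact hP p (Nat.prime_of_mem_primeFactors hp)
    _ = (∏ p ∈ n.primeFactors, (if p < P then (2 : ℝ) ^ A else 1)) *
        ∏ p ∈ n.primeFactors, (1 + (p : ℝ) ^ (-s)) := Finset.prod_mul_distrib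
    _ ≤ (2 ^ A) ^ P * ∑ d ∈ n.divisors.filter Squarefree, (d : ℝ) ^ (-s) := by
        refine mul_le_mul ?_ ?_ (Finset.prod_nonneg fun p _ => by positivity) (by positivity)
        · rw [Finset.prod_ite, Finset.prod_const, Finset.prod_const_one, mul_one]
          refine pow_le_pow_right₀ (one_le_pow₀ (by norm_num)) ?_
          have : (n.primeFactors.filter (fun p => p < P)) ⊆ Finset.range P := by
            intro p hp
            rw [Finset.mem_filter] at hp
            exact Finset.mem_range.2 hp.2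
          simpa using Finset.card_le_card this
        · rw [Finset.prod_one_add]
          have hprod : ∀ s' ∈ n.primeFactors.powerset,
              ∏ p ∈ s', (p : ℝ) ^ (-s) = ((∏ p ∈ s', p : ℕ) : ℝ) ^ (-s) := by
            intro s' _
            rw [Nat.cast_prod, Real.finsetProd_rpow s' (fun p => (p : ℝ)) (fun p _ => by positivity)]
          rw [Finset.sum_congr rfl hprod]
          have hinj : Set.InjOn (fun s : Finset ℕ => ∏ p ∈ s, p) (n.primeFactors.powerset : Set (Finset ℕ)) := by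
            intro s hs t ht hst
            simp only [Finset.coe_powerset, Set.mem_preimage, Set.mem_powerset_iff] at hs ht
            have h3 : (∏ p ∈ s, p).primeFactors = s := Nat.primeFactors_prod fun p hp =>
              Nat.prime_of_mem_primeFactors (hs hp)
            have h4 : (∏ p ∈ t, p).primeFactors = t := Nat.primeFactors_prod fun p hp =>
              Nat.prime_of_mem_primeFactors (ht hp)
            have h5 : ∏ p ∈ s, p = ∏ p ∈ t, p := hst
            rw [← h3, h5, h4]
          rw [← Finset.sum_image (f := fun d : ℕ => (d : ℝ) ^ (-s)) hinj]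
          refine Finset.sum_le_sum_of_subset_of_nonneg ?_ fun d _ _ => by positivity
          intro d hd
          rw [Finset.mem_image] at hd
          obtain ⟨s, hs, rfl⟩ := hd
          rw [Finset.mem_powerset] at hs
          rw [mem_filter, Nat.mem_divisors]
          refine ⟨⟨(Finset.prod_dvd_prod_of_subset _ _ _ hs).trans (Nat.prod_primeFactors_dvd n), by omega⟩, ?_⟩
          apply Finset.squarefree_prod_of_pairwise_isCoprime
          · intro p hp q hq hpq
            have hp' := Nat.prime_of_mem_primeFactors (hs hp)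
            have hq' := Nat.prime_of_mem_primeFactors (hs hq)
            exact Nat.coprime_iff_isRelPrime.1 ((Nat.coprime_primes hp' hq').2 hpq)
          · intro p hp
            exact (Nat.prime_of_mem_primeFactors (hs hp)).squarefree

/-- moments of `rat (f(n) - f(m))`, uniformly in `m` -/
theorem rat_poly (f : ℕ[X]) (hf : 1 ≤ f.natDegree) (A : ℕ) : ∃ C : ℝ, 0 < C ∧ ∀ x m : ℕ, 1 ≤ x →
    ∑ n ∈ (Icc 1 x).filter (fun n => f.eval m < f.eval n), rat (f.eval n - f.eval m) ^ A ≤ C * x := by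
  obtain ⟨D, hD1, hD⟩ := roots_le f hf
  have hf0 : f ≠ 0 := by rintro rfl; simp at hf
  set d := f.natDegree with hd
  set δ : ℝ := 1 / (3 * (d + 1)) with hδ
  have hd0 : (0 : ℝ) ≤ d := Nat.cast_nonneg d
  have hδ0 : 0 < δ := by positivity
  have hδ1 : δ ≤ 1 / 3 := by
    rw [hδ, div_le_div_iff₀ (by positivity) (by norm_num)]; nlinarith
  obtain ⟨C₁, hC₁, hrat⟩ := rat_le_sqfree A (1 - δ) (by linarith) (by linarith)
  obtain ⟨C₂, hC₂, hom⟩ := pow_omega_le D hD1 δ hδ0
  set G : ℝ := ((f.eval 1 : ℕ) : ℝ) with hG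
  have hG1 : 1 ≤ G := by
    rw [hG]
    have h1 : f.eval 1 ≠ 0 := by
      rw [eval_eq_sum_range]
      intro h0
      rw [sum_eq_zero_iff] at h0
      have := h0 f.natDegree (mem_range.2 (by omega))
      rw [one_pow, mul_one] at this
      exact leadingCoeff_ne_zero.2 hf0 this
    exact_mod_cast Nat.pos_of_ne_zero h1
  have hs : Summable (fun q : ℕ => (q : ℝ) ^ (-(1 + δ))) := Real.summable_nat_rpow.2 (by linarith)
  have hs2 : Summable (fun q : ℕ => (q : ℝ) ^ (-(2 - 2 * δ))) := Real.summable_nat_rpow.2 (by linarith)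
  set S₁ : ℝ := ∑' q : ℕ, (q : ℝ) ^ (-(1 + δ)) with hS₁
  set S₂ : ℝ := ∑' q : ℕ, (q : ℝ) ^ (-(2 - 2 * δ)) with hS₂
  have hS₁0 : 0 < S₁ := hs.tsum_pos (fun q => by positivity) 1 (by norm_num)
  have hS₂0 : 0 < S₂ := hs2.tsum_pos (fun q => by positivity) 1 (by norm_num)
  refine ⟨C₁ * (C₂ * (S₂ + G * S₁)), by positivity, fun x m hx => ?_⟩
  have hx0 : (0 : ℝ) < x := by exact_mod_cast hx
  have hx1 : (1 : ℝ) ≤ x := by exact_mod_cast hx
  have hbound : ∀ n ∈ Icc 1 x, f.eval n ≤ f.eval 1 * x ^ d := by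
    intro n hn
    rw [mem_Icc] at hn
    have h1 : f.eval n ≤ f.eval x := (LD_eval' f).mono hn.2
    refine h1.trans ?_
    rw [eval_eq_sum_range, eval_eq_sum_range, sum_mul]
    apply sum_le_sum
    intro j hj
    rw [mem_range] at hj
    rw [one_pow, mul_one]
    exact Nat.mul_le_mul_left _ (Nat.pow_le_pow_right hx (by omega))
  set M := f.eval 1 * x ^ d with hM
  calc ∑ n ∈ (Icc 1 x).filter (fun n => f.eval m < f.eval n), rat (f.eval n - f.eval m) ^ A
      ≤ ∑ n ∈ (Icc 1 x).filter (fun n => f.eval m < f.eval n),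
          C₁ * ∑ q ∈ (f.eval n - f.eval m).divisors.filter Squarefree, (q : ℝ) ^ (-(1 - δ)) := by
        apply sum_le_sum
        intro n hn
        rw [mem_filter] at hn
        exact hrat _ (by omega)
    _ = C₁ * ∑ n ∈ (Icc 1 x).filter (fun n => f.eval m < f.eval n),
          ∑ q ∈ (f.eval n - f.eval m).divisors.filter Squarefree, (q : ℝ) ^ (-(1 - δ)) := by rw [mul_sum]
    _ = C₁ * ∑ q ∈ (Icc 1 M).filter Squarefree,
          ∑ n ∈ ((Icc 1 x).filter (fun n => f.eval m < f.eval n)).filter (fun n => q ∣ f.eval n - f.eval m),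
            (q : ℝ) ^ (-(1 - δ)) := by
        congr 1
        refine sum_comm' ?_
        intro n q
        simp only [mem_Icc, Nat.mem_divisors, mem_filter]
        constructor
        · rintro ⟨⟨⟨h1, h2⟩, h3⟩, ⟨h4, h5⟩, h6⟩
          have h7 := Nat.le_of_dvd (by omega) h4
          have h8 := hbound n (mem_Icc.2 ⟨h1, h2⟩)
          exact ⟨⟨⟨⟨h1, h2⟩, h3⟩, h4⟩, ⟨Nat.pos_of_dvd_of_pos h4 (by omega), by omega⟩, h6⟩
        · rintro ⟨⟨⟨⟨h1, h2⟩, h3⟩, h4⟩, ⟨h5, h6⟩, h7⟩
          exact ⟨⟨⟨h1, h2⟩, h3⟩, ⟨h4, by omega⟩, h7⟩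
    _ ≤ C₁ * ∑ q ∈ (Icc 1 M).filter Squarefree, (C₂ * (x * (q : ℝ) ^ (-(2 - 2 * δ)) +
          (M : ℝ) ^ (3 * δ) * (q : ℝ) ^ (-(1 + δ)))) := by
        apply mul_le_mul_of_nonneg_left _ hC₁.le
        apply sum_le_sum
        intro q hq
        rw [mem_filter, mem_Icc] at hq
        obtain ⟨⟨hq1, hqM⟩, hqs⟩ := hq
        have hq0 : (0 : ℝ) < q := by exact_mod_cast hq1
        have hqMr : (q : ℝ) ≤ M := by exact_mod_cast hqM
        rw [sum_const, nsmul_eq_mul]
        have hcard : (#(((Icc 1 x).filter (fun n => f.eval m < f.eval n)).filter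
            (fun n => q ∣ f.eval n - f.eval m)) : ℝ) ≤ ((x : ℝ) / q + 1) * (C₂ * (q : ℝ) ^ δ) := by
          have h1 : ((Icc 1 x).filter (fun n => f.eval m < f.eval n)).filter
            (fun n => q ∣ f.eval n - f.eval m) ⊆ (Icc 1 x).filter (fun n => f.eval n ≡ f.eval m [MOD q]) := by
            intro n hn
            rw [mem_filter, mem_filter] at hn
            rw [mem_filter]
            exact ⟨hn.1.1, ((Nat.modEq_iff_dvd' hn.1.2.le).2 hn.2).symm⟩
          have h2 := count_periodic q hq1 (fun n => f.eval n ≡ f.eval m [MOD q]) (by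
            intro n
            apply propext
            have h3 : f.eval (n + q) ≡ f.eval n [MOD q] := eval_modEq f (by simp [Nat.ModEq])
            exact ⟨fun h => h3.symm.trans h, fun h => h3.trans h⟩) x
          have h3 := roots_sqfree f D hD q hqs (f.eval m)
          have h4 := hom q hqs
          calc (#(((Icc 1 x).filter (fun n => f.eval m < f.eval n)).filter
              (fun n => q ∣ f.eval n - f.eval m)) : ℝ) ≤ (((x / q + 1) * D ^ (#q.primeFactors) : ℕ) : ℝ) := by
                exact_mod_cast (card_le_card h1).trans (h2.trans (Nat.mul_le_mul_left _ h3))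
            _ = (((x / q : ℕ) : ℝ) + 1) * ((D ^ (#q.primeFactors) : ℕ) : ℝ) := by push_cast; ring
            _ ≤ _ := mul_le_mul (add_le_add Nat.cast_div_le le_rfl) h4 (by positivity) (by positivity)
        calc _ ≤ (((x : ℝ) / q + 1) * (C₂ * (q : ℝ) ^ δ)) * (q : ℝ) ^ (-(1 - δ)) :=
              mul_le_mul_of_nonneg_right hcard (by positivity)
          _ = C₂ * (x * (q : ℝ) ^ (-(2 - 2 * δ)) + (q : ℝ) ^ (3 * δ) * (q : ℝ) ^ (-(1 + δ))) := by
              rw [← Real.rpow_add hq0]
              have h1 : (q : ℝ) ^ (-(2 - 2 * δ)) = (q : ℝ) ^ (-(1 - δ)) * (q : ℝ) ^ δ / q := by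
                rw [← Real.rpow_add hq0, ← Real.rpow_sub_one hq0.ne']; ring_nf
              have h2 : (q : ℝ) ^ (3 * δ + -(1 + δ)) = (q : ℝ) ^ (-(1 - δ)) * (q : ℝ) ^ δ := by
                rw [← Real.rpow_add hq0]; ring_nf
              rw [h1, h2]
              ring
          _ ≤ _ := by
              apply mul_le_mul_of_nonneg_left _ hC₂.le
              have := Real.rpow_le_rpow hq0.le hqMr (show (0 : ℝ) ≤ 3 * δ by positivity)
              have h3 : (0 : ℝ) ≤ (q : ℝ) ^ (-(1 + δ)) := by positivity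
              nlinarith
    _ ≤ C₁ * (C₂ * (x * S₂ + (G * x) * S₁)) := by
        apply mul_le_mul_of_nonneg_left _ hC₁.le
        rw [← mul_sum]
        apply mul_le_mul_of_nonneg_left _ hC₂.le
        rw [sum_add_distrib, ← mul_sum, ← mul_sum]
        have hMb : (M : ℝ) ^ (3 * δ) ≤ G * x := by
          have h1 : (M : ℝ) ≤ (G * x) ^ (d + 1) := by
            rw [hM]; push_cast
            rw [mul_pow]
            apply mul_le_mul
            · exact le_self_pow₀ hG1 (by omega)
            · exact pow_le_pow_right₀ hx1 (by omega)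
            · positivity
            · positivity
          calc (M : ℝ) ^ (3 * δ) ≤ ((G * x) ^ (d + 1)) ^ (3 * δ) :=
                Real.rpow_le_rpow (Nat.cast_nonneg _) h1 (by positivity)
            _ = G * x := by
                rw [← Real.rpow_natCast, ← Real.rpow_mul (by positivity)]
                have : ((d + 1 : ℕ) : ℝ) * (3 * δ) = 1 := by
                  rw [hδ]; push_cast; field_simp
                rw [this, Real.rpow_one]
        apply add_le_add
        · exact mul_le_mul_of_nonneg_left (hs2.sum_le_tsum _ fun q _ => by positivity) hx0.le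
        · exact mul_le_mul hMb (hs.sum_le_tsum _ fun q _ => by positivity)
            (sum_nonneg fun q _ => by positivity) (by positivity)
    _ = _ := by ring

end Pool.Agent.H373R2.SH
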