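import Mathlib
import Pool.Agent.H386R2.HL.E
import Pool.Agent.H373R2.SH.Roots

namespace Pool.Agent.H373R2.SH
open Finset Polynomial

/-- prime number theorem in windows of length `x` at positions up to `B x` -/
theorem pnt_windowB (B : ℕ) (hB : 1 ≤ B) (ε : ℝ) (hε : 0 < ε) : ∃ x₀ : ℕ, ∀ x : ℕ, x₀ ≤ x → ∀ j : ℕ, j ≤ B * x →
    (1 - ε) * (x / Real.log x) ≤ (Nat.primeCounting (x + j) : ℝ) - Nat.primeCounting j := by
  have hBr : (1 : ℝ) ≤ B := by exact_mod_cast hB
  set η : ℝ := min (1 / 2) (ε / (11 * B)) with hη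
  have hη0 : 0 < η := by positivity
  have hη1 : η ≤ 1 / 2 := min_le_left _ _
  have hη2 : 11 * B * η ≤ ε := by
    have := min_le_right (1 / 2 : ℝ) (ε / (11 * B))
    rw [← hη, le_div_iff₀ (by positivity)] at this
    linarith
  have h1 := Helper507.PNT.pi_tendsto
  have h2 := (h1.eventually (Icc_mem_nhds (show 1 - η < 1 by linarith) (show 1 < 1 + η by linarith)))
  obtain ⟨u₀, hu₀⟩ := Filter.eventually_atTop.1 h2
  have hlog := Real.tendsto_log_atTop
  have e1 : ∀ᶠ x : ℝ in Filter.atTop, Real.log (B + 1) ≤ η * Real.log x := by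
    have := (hlog.const_mul_atTop hη0).eventually_ge_atTop (Real.log (B + 1))
    exact this
  have e2 : ∀ᶠ x : ℝ in Filter.atTop, -Real.log η ≤ η * Real.log x := by
    have := (hlog.const_mul_atTop hη0).eventually_ge_atTop (-Real.log η)
    exact this
  have e3 : ∀ᶠ x : ℝ in Filter.atTop, u₀ ≤ η * x :=
    (Filter.tendsto_id.const_mul_atTop hη0).eventually_ge_atTop u₀
  have e4 : ∀ᶠ x : ℝ in Filter.atTop, u₀ ≤ x := Filter.eventually_ge_atTop u₀
  have e5 : ∀ᶠ x : ℝ in Filter.atTop, (3 : ℝ) ≤ x := Filter.eventually_ge_atTop 3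
  obtain ⟨x₀, hx₀⟩ := Filter.eventually_atTop.1
    (tendsto_natCast_atTop_atTop (R := ℝ) |>.eventually (e1.and (e2.and (e3.and (e4.and e5)))))
  refine ⟨x₀, fun x hx j hj => ?_⟩
  obtain ⟨f1, f2, f3, f4, f5⟩ := hx₀ x hx
  have hx3 : (0 : ℝ) < x := by linarith
  have hlx : 0 < Real.log x := Real.log_pos (by linarith)
  have hjx : (j : ℝ) ≤ B * x := by exact_mod_cast hj
  have hj0 : (0 : ℝ) ≤ j := Nat.cast_nonneg j
  -- lower bound
  have g1 : (1 - η) / (1 + η) * ((x + j) / Real.log x) ≤ Nat.primeCounting (x + j) := by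
    have h3 := (hu₀ ((x + j : ℕ) : ℝ) (by push_cast; linarith)).1
    rw [Nat.floor_natCast] at h3
    have h4 : Real.log ((x + j : ℕ) : ℝ) ≤ (1 + η) * Real.log x := by
      calc Real.log ((x + j : ℕ) : ℝ) ≤ Real.log ((B + 1) * x) := by
            apply Real.log_le_log
            · push_cast; linarith
            · push_cast; linarith
        _ = Real.log (B + 1) + Real.log x := Real.log_mul (by positivity) hx3.ne'
        _ ≤ _ := by linarith
    have h5 : 0 < ((x + j : ℕ) : ℝ) := by push_cast; linarith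
    have h6 : (1 - η) * ((x + j : ℕ) : ℝ) ≤ (Nat.primeCounting (x + j) : ℝ) * Real.log ((x + j : ℕ) : ℝ) := by
      rw [le_div_iff₀ h5] at h3
      exact h3
    have h7 : (Nat.primeCounting (x + j) : ℝ) * Real.log ((x + j : ℕ) : ℝ) ≤
        (Nat.primeCounting (x + j) : ℝ) * ((1 + η) * Real.log x) :=
      mul_le_mul_of_nonneg_left h4 (Nat.cast_nonneg _)
    have h8 : (1 - η) * ((x : ℝ) + j) ≤ (Nat.primeCounting (x + j) : ℝ) * ((1 + η) * Real.log x) := by
      have e0 : (1 - η) * ((x : ℝ) + j) = (1 - η) * ((x + j : ℕ) : ℝ) := by push_cast; ring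
      rw [e0]
      exact h6.trans h7
    rw [div_mul_div_comm, div_le_iff₀ (by positivity)]
    exact h8
  -- upper bound
  have g2 : (Nat.primeCounting j : ℝ) ≤ (1 + η) / (1 - η) * ((j + η * x) / Real.log x) := by
    set w : ℝ := max (j : ℝ) (η * x) with hw
    have hw1 : η * x ≤ w := le_max_right _ _
    have hw2 : (j : ℝ) ≤ w := le_max_left _ _
    have hw3 : w ≤ j + η * x := max_le (by nlinarith) (by linarith)
    have hw0 : 0 < w := lt_of_lt_of_le (by positivity) hw1
    have h3 := (hu₀ w (by linarith)).2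
    have h4 : (1 - η) * Real.log x ≤ Real.log w := by
      calc (1 - η) * Real.log x ≤ Real.log η + Real.log x := by linarith
        _ = Real.log (η * x) := (Real.log_mul hη0.ne' hx3.ne').symm
        _ ≤ Real.log w := Real.log_le_log (by positivity) hw1
    have h5 : (Nat.primeCounting j : ℝ) ≤ Nat.primeCounting ⌊w⌋₊ := by
      exact_mod_cast Nat.monotone_primeCounting (Nat.le_floor hw2)
    rw [div_le_iff₀ hw0] at h3
    have h6 : (Nat.primeCounting j : ℝ) * ((1 - η) * Real.log x) ≤ (1 + η) * w := by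
      calc (Nat.primeCounting j : ℝ) * ((1 - η) * Real.log x) ≤
          (Nat.primeCounting ⌊w⌋₊ : ℝ) * Real.log w := by
            apply mul_le_mul h5 h4
            · have : 0 < 1 - η := by linarith
              positivity
            · positivity
        _ ≤ _ := h3
    have h7 : 0 < 1 - η := by linarith
    rw [div_mul_div_comm, le_div_iff₀ (by positivity)]
    nlinarith
  have k1 : 1 - 2 * η ≤ (1 - η) / (1 + η) := by
    rw [le_div_iff₀ (by linarith)]; nlinarith
  have k2 : (1 + η) / (1 - η) ≤ 1 + 4 * η := by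
    rw [div_le_iff₀ (by linarith)]; nlinarith
  have k3 : (1 - 2 * η) * ((x + j) / Real.log x) ≤ (1 - η) / (1 + η) * ((x + j) / Real.log x) :=
    mul_le_mul_of_nonneg_right k1 (by positivity)
  have k4 : (1 + η) / (1 - η) * ((j + η * x) / Real.log x) ≤ (1 + 4 * η) * ((j + η * x) / Real.log x) :=
    mul_le_mul_of_nonneg_right k2 (by positivity)
  have k5 : (1 - ε) * (x / Real.log x) ≤ (1 - 2 * η) * ((x + j) / Real.log x) -
      (1 + 4 * η) * ((j + η * x) / Real.log x) := by
    have e : (1 - 2 * η) * ((x + j) / Real.log x) - (1 + 4 * η) * ((j + η * x) / Real.log x) -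
        (1 - ε) * (x / Real.log x) =
        ((1 - 2 * η) * (x + j) - (1 + 4 * η) * (j + η * x) - (1 - ε) * x) / Real.log x := by
      field_simp
    have e2 : 0 ≤ (1 - 2 * η) * ((x : ℝ) + j) - (1 + 4 * η) * (j + η * x) - (1 - ε) * x := by
      have m1 : η * j ≤ η * (B * x) := mul_le_mul_of_nonneg_left hjx hη0.le
      have m4 : η * x ≤ η * (B * x) := by
        apply mul_le_mul_of_nonneg_left _ hη0.le
        exact le_mul_of_one_le_left hx3.le hBr
      have m2 : η * (η * x) ≤ (1 / 2) * (η * x) := mul_le_mul_of_nonneg_right hη1 (by positivity)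
      have m3 : 11 * B * η * x ≤ ε * x := mul_le_mul_of_nonneg_right hη2 hx3.le
      nlinarith
    have e3 := div_nonneg e2 hlx.le
    linarith
  linarith

end Pool.Agent.H373R2.SH
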