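import Mathlib

namespace Pool.Agent.H373R2.SH
open Finset

/-- primes in `(y, z]` -/
def PQ (y z : ℕ) : Finset ℕ := (Ioc y z).filter Nat.Prime

lemma one_sub_pos {p : ℕ} (hp : p.Prime) : (0 : ℝ) < 1 - 1 / (p : ℝ) := by
  have : (2 : ℝ) ≤ p := by exact_mod_cast hp.two_le
  rw [sub_pos, div_lt_one (by linarith)]; linarith

lemma pow_one_add_le (t : ℝ) (ht0 : 0 ≤ t) (ht1 : t ≤ 1) (m : ℕ) : (1 + t) ^ m ≤ 1 + 2 ^ m * t := by
  have key : (1 + t) ^ m ≤ 1 + (2 ^ m - 1) * t := by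
    induction m with
    | zero => simp
    | succ m ih =>
      have h2 : (1 : ℝ) ≤ 2 ^ m := one_le_pow₀ (by norm_num)
      calc (1 + t) ^ (m + 1) = (1 + t) ^ m * (1 + t) := pow_succ _ _
        _ ≤ (1 + (2 ^ m - 1) * t) * (1 + t) := mul_le_mul_of_nonneg_right ih (by linarith)
        _ ≤ 1 + (2 ^ (m + 1) - 1) * t := by
          rw [pow_succ]
          have h3 : 0 ≤ (2 ^ m - 1) * (t * (1 - t)) := mul_nonneg (by linarith) (mul_nonneg ht0 (by linarith))
          nlinarith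
  linarith

lemma inv_pow_le (k : ℕ) {p : ℕ} (hp : p.Prime) : ((1 - 1 / (p : ℝ)) ^ k)⁻¹ ≤ 1 + 2 ^ k * (2 / p) := by
  have hp2 : (2 : ℝ) ≤ p := by exact_mod_cast hp.two_le
  have h1 := one_sub_pos hp
  have h2 : (1 - 1 / (p : ℝ))⁻¹ ≤ 1 + 2 / p := by
    rw [inv_le_iff_one_le_mul₀ h1]
    have h3 : (1 + 2 / (p : ℝ)) * (1 - 1 / p) = 1 + (1 / p) * (1 - 2 / p) := by field_simp; ring
    rw [h3]
    have : 0 ≤ 1 - 2 / (p : ℝ) := by rw [sub_nonneg, div_le_one (by linarith)]; exact hp2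
    have : 0 ≤ (1 / (p : ℝ)) * (1 - 2 / p) := by positivity
    linarith
  rw [← inv_pow]
  calc ((1 - 1 / (p : ℝ))⁻¹) ^ k ≤ (1 + 2 / p) ^ k := pow_le_pow_left₀ (by positivity) h2 k
    _ ≤ _ := pow_one_add_le _ (by positivity) (by rw [div_le_one (by linarith)]; exact hp2) k

lemma sum_PQ_le (y z : ℕ) : ∑ p ∈ PQ y z, (p : ℝ) ≤ (z : ℝ) ^ 2 := by
  calc ∑ p ∈ PQ y z, (p : ℝ) ≤ ∑ p ∈ Ioc 0 z, (p : ℝ) := by
        apply sum_le_sum_of_subset_of_nonneg
        · intro p hp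
          have := mem_Ioc.1 (mem_filter.1 hp).1
          rw [mem_Ioc]; omega
        · intro _ _ _; positivity
    _ ≤ ∑ _p ∈ Ioc 0 z, (z : ℝ) := sum_le_sum fun p hp => by exact_mod_cast (mem_Ioc.1 hp).2
    _ = _ := by rw [sum_const, Nat.card_Ioc, nsmul_eq_mul, Nat.sub_zero]; ring

lemma sum_PQ_inv_sq (y z : ℕ) (hy : 1 ≤ y) : ∑ p ∈ PQ y z, 1 / (p : ℝ) ^ 2 ≤ 1 / (y : ℝ) := by
  rcases Nat.lt_or_ge z y with h | h
  · have : PQ y z = ∅ := by
      unfold PQ; rw [Ioc_eq_empty (by omega), filter_empty]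
    rw [this, sum_empty]; positivity
  calc ∑ p ∈ PQ y z, 1 / (p : ℝ) ^ 2 ≤ ∑ p ∈ Ioc y z, ((p : ℝ) ^ 2)⁻¹ := by
        simp_rw [one_div]
        apply sum_le_sum_of_subset_of_nonneg (filter_subset _ _)
        intro _ _ _; positivity
    _ ≤ (y : ℝ)⁻¹ - (z : ℝ)⁻¹ := sum_Ioc_inv_sq_le_sub (by omega) h
    _ ≤ 1 / y := by
        rw [one_div]
        have : (0 : ℝ) ≤ (z : ℝ)⁻¹ := by positivity
        linarith

/-- abstract second moment of the tail of the singular series -/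
theorem gen_tail {α : Type*} (B : Finset α) (U : α → ℕ → ℝ) (c : ℝ) (hc : 0 ≤ c) (H y z : ℕ) (hH : 1 ≤ H) (hy : 1 ≤ y)
    (hmean : ∀ p ∈ PQ y z, (1 - c / H) * #B ≤ ∑ a ∈ B, U a p)
    (hcross : ∀ p ∈ PQ y z, ∀ q ∈ PQ y z, p ≠ q → ∑ a ∈ B, U a p * U a q ≤ (1 + c * (p * q / H)) * #B)
    (hsq : ∀ p ∈ PQ y z, ∑ a ∈ B, U a p * U a p ≤ (1 + c * (1 / (p : ℝ) ^ 2 + p / H)) * #B) :
    ∑ a ∈ B, (∑ p ∈ PQ y z, (U a p - 1)) ^ 2 ≤ 6 * c * (1 / y + (z : ℝ) ^ 4 / H) * #B := by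
  set N := (#B : ℝ) with hN
  have hN0 : 0 ≤ N := Nat.cast_nonneg _
  have hHpos : (0 : ℝ) < H := by exact_mod_cast hH
  have hcross' : ∀ p ∈ PQ y z, ∀ q ∈ PQ y z, p ≠ q →
      ∑ a ∈ B, (U a p - 1) * (U a q - 1) ≤ 3 * c * (p * q / H) * N := by
    intro p hp q hq hpq
    have hp1 : (1 : ℝ) ≤ p := by exact_mod_cast (mem_filter.1 hp).2.one_lt.le
    have hq1 : (1 : ℝ) ≤ q := by exact_mod_cast (mem_filter.1 hq).2.one_lt.le
    have h3 := hcross p hp q hq hpq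
    have h6 := hmean p hp
    have h7 := hmean q hq
    have h8 : ∑ a ∈ B, (U a p - 1) * (U a q - 1) =
        ∑ a ∈ B, U a p * U a q - ∑ a ∈ B, U a p - ∑ a ∈ B, U a q + N := by
      have : ∀ a ∈ B, (U a p - 1) * (U a q - 1) = U a p * U a q - U a p - U a q + 1 := by
        intro a _; ring
      rw [sum_congr rfl this, sum_add_distrib, sum_sub_distrib, sum_sub_distrib, sum_const, nsmul_eq_mul, mul_one]
    rw [h8]
    have h9 : c / H ≤ c * (p * q / H) := by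
      have : (1 : ℝ) ≤ p * q := by nlinarith
      have h10 : c * (p * q / H) = (c / H) * (p * q) := by ring
      rw [h10]
      exact le_mul_of_one_le_right (by positivity) this
    have h11 : c / H * N ≤ c * (p * q / H) * N := mul_le_mul_of_nonneg_right h9 hN0
    linarith
  have hdiag : ∀ p ∈ PQ y z, ∑ a ∈ B, (U a p - 1) * (U a p - 1) ≤ 3 * c * (1 / (p : ℝ) ^ 2 + p / H) * N := by
    intro p hp
    have hp1 : (1 : ℝ) ≤ p := by exact_mod_cast (mem_filter.1 hp).2.one_lt.le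
    have h3 := hsq p hp
    have h6 := hmean p hp
    have h8 : ∑ a ∈ B, (U a p - 1) * (U a p - 1) =
        ∑ a ∈ B, U a p * U a p - 2 * ∑ a ∈ B, U a p + N := by
      have : ∀ a ∈ B, (U a p - 1) * (U a p - 1) = U a p * U a p - 2 * U a p + 1 := by
        intro a _; ring
      rw [sum_congr rfl this, sum_add_distrib, sum_sub_distrib, ← mul_sum, sum_const, nsmul_eq_mul, mul_one]
    rw [h8]
    have h9 : c / H ≤ c * (1 / (p : ℝ) ^ 2 + p / H) := by
      have h10 : (1 : ℝ) / H ≤ p / H := div_le_div_of_nonneg_right hp1 hHpos.le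
      have h11 : (0 : ℝ) ≤ 1 / (p : ℝ) ^ 2 := by positivity
      calc c / H = c * (1 / H) := by ring
        _ ≤ _ := mul_le_mul_of_nonneg_left (by linarith) hc
    have h11 : c / H * N ≤ c * (1 / (p : ℝ) ^ 2 + p / H) * N := mul_le_mul_of_nonneg_right h9 hN0
    linarith
  have hexp : ∑ a ∈ B, (∑ p ∈ PQ y z, (U a p - 1)) ^ 2 =
      ∑ p ∈ PQ y z, ∑ q ∈ PQ y z, ∑ a ∈ B, (U a p - 1) * (U a q - 1) := by
    simp_rw [sq, sum_mul_sum]
    rw [sum_comm]
    apply sum_congr rfl; intro p _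
    rw [sum_comm]
  rw [hexp]
  have hrow : ∀ p ∈ PQ y z, ∑ q ∈ PQ y z, ∑ a ∈ B, (U a p - 1) * (U a q - 1) ≤
      3 * c * (1 / (p : ℝ) ^ 2 + p / H) * N + ∑ q ∈ PQ y z, 3 * c * (p * q / H) * N := by
    intro p hp
    calc _ ≤ ∑ q ∈ PQ y z, ((if p = q then 3 * c * (1 / (p : ℝ) ^ 2 + p / H) * N else 0) +
          3 * c * (p * q / H) * N) := by
          apply sum_le_sum
          intro q hq
          split_ifs with h
          · subst h
            have := hdiag p hp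
            have h2 : 0 ≤ 3 * c * ((p : ℝ) * p / H) * N := by positivity
            linarith
          · rw [zero_add]; exact hcross' p hp q hq h
      _ = _ := by
          rw [sum_add_distrib, sum_ite_eq, if_pos hp]
  have hsump := sum_PQ_le y z
  have hsumsq := sum_PQ_inv_sq y z hy
  have hz1 : (z : ℝ) ^ 2 ≤ (z : ℝ) ^ 4 := by
    rcases Nat.eq_zero_or_pos z with h | h
    · subst h; simp
    · exact pow_le_pow_right₀ (by exact_mod_cast h) (by norm_num)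
  calc _ ≤ ∑ p ∈ PQ y z, (3 * c * (1 / (p : ℝ) ^ 2 + p / H) * N + ∑ q ∈ PQ y z, 3 * c * (p * q / H) * N) :=
        sum_le_sum hrow
    _ = 3 * c * (∑ p ∈ PQ y z, 1 / (p : ℝ) ^ 2 + (∑ p ∈ PQ y z, (p : ℝ)) / H) * N +
          3 * c * ((∑ p ∈ PQ y z, (p : ℝ)) * (∑ q ∈ PQ y z, (q : ℝ)) / H) * N := by
        rw [sum_add_distrib]
        congr 1
        · rw [← sum_mul, ← mul_sum, sum_add_distrib, sum_div]
        · rw [sum_mul_sum, sum_div, mul_sum, sum_mul]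
          apply sum_congr rfl; intro p _
          rw [sum_div, mul_sum, sum_mul]
    _ ≤ 3 * c * (1 / y + (z : ℝ) ^ 4 / H) * N + 3 * c * ((z : ℝ) ^ 2 * (z : ℝ) ^ 2 / H) * N := by
        have hs0 : 0 ≤ ∑ p ∈ PQ y z, (p : ℝ) := sum_nonneg fun _ _ => by positivity
        apply add_le_add
        · apply mul_le_mul_of_nonneg_right _ hN0
          apply mul_le_mul_of_nonneg_left _ (by positivity)
          apply add_le_add hsumsq
          apply div_le_div_of_nonneg_right (hsump.trans hz1) hHpos.le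
        · apply mul_le_mul_of_nonneg_right _ hN0
          apply mul_le_mul_of_nonneg_left _ (by positivity)
          apply div_le_div_of_nonneg_right _ hHpos.le
          exact mul_le_mul hsump hsump hs0 (by positivity)
    _ ≤ _ := by
        have h20 : (0 : ℝ) ≤ 1 / y := by positivity
        have h21 : (z : ℝ) ^ 2 * (z : ℝ) ^ 2 / H = (z : ℝ) ^ 4 / H := by ring
        rw [h21]
        have h22 : 0 ≤ 3 * c * (1 / (y : ℝ)) * N := by positivity
        nlinarith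

end Pool.Agent.H373R2.SH
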