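import Mathlib
import Pool.Agent.H373R2.BH.Density
import Pool.Agent.H373R2.SH.GenTail
import Pool.Agent.H373R2.SH.Roots

namespace Pool.Agent.H373R2.SH
open Finset
open Pool.Agent.H373R2.BH (card_filter_real window_one_low window_one_up window_two_up count_periodic count_residue
  count_nonresidue per_dvd crt_count)

variable {k : ℕ}

/-- the box of shifts -/
def Sx (H : Fin k → ℕ) : Finset (Fin k → ℕ) := Fintype.piFinset (fun i => Icc 1 (H i))

lemma mem_Sx {H : Fin k → ℕ} {h : Fin k → ℕ} : h ∈ Sx H ↔ ∀ i, 1 ≤ h i ∧ h i ≤ H i := by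
  simp [Sx, Fintype.mem_piFinset]

lemma card_Sx (H : Fin k → ℕ) : (#(Sx H) : ℝ) = ∏ i, (H i : ℝ) := by
  unfold Sx
  rw [Fintype.card_piFinset]
  push_cast
  apply prod_congr rfl
  intro i _
  rw [Nat.card_Icc, Nat.add_sub_cancel]

lemma pow_mul_card_Sx (H : Fin k → ℕ) (c : ℝ) : c ^ k * (#(Sx H) : ℝ) = ∏ i, (c * (H i : ℝ)) := by
  rw [card_Sx, prod_mul_distrib, prod_const, card_fin]

lemma sum_Sx_prod (H : Fin k → ℕ) (F : ∀ _ : Fin k, ℕ → ℝ) :
    ∑ h ∈ Sx H, ∏ i, F i (h i) = ∏ i, ∑ u ∈ Icc 1 (H i), F i u := by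
  unfold Sx
  rw [prod_univ_sum]

/-- number of residues `r` mod `p` with `p ∣ F_i(r) + h_i` for some `i` -/
def omS (F : Fin k → ℕ → ℕ) (h : Fin k → ℕ) (p : ℕ) : ℕ := #{r ∈ range p | ∃ i, p ∣ h i + F i r}

noncomputable def dnS (F : Fin k → ℕ → ℕ) (h : Fin k → ℕ) (p : ℕ) : ℝ := 1 - (omS F h p : ℝ) / p

noncomputable def ufS (F : Fin k → ℕ → ℕ) (h : Fin k → ℕ) (p : ℕ) : ℝ := ((1 - 1 / (p : ℝ)) ^ k)⁻¹ * dnS F h p

noncomputable def sgS (F : Fin k → ℕ → ℕ) (h : Fin k → ℕ) (y : ℕ) : ℝ :=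
  ∏ p ∈ (range (y + 1)).filter Nat.Prime, ufS F h p

noncomputable def TTS (F : Fin k → ℕ → ℕ) (h : Fin k → ℕ) (y z : ℕ) : ℝ := ∑ p ∈ PQ y z, (ufS F h p - 1)

lemma dnS_eq (F : Fin k → ℕ → ℕ) (h : Fin k → ℕ) {p : ℕ} (hp : 0 < p) :
    dnS F h p = (1 / (p : ℝ)) * ∑ r ∈ range p, ∏ i, (if ¬ p ∣ h i + F i r then (1 : ℝ) else 0) := by
  have h' := card_filter_add_card_filter_not (s := range p) (fun r => ∃ i, p ∣ h i + F i r)
  rw [card_range] at h'
  have h2 : ((omS F h p : ℕ) : ℝ) + (#{r ∈ range p | ¬ ∃ i, p ∣ h i + F i r} : ℕ) = p := by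
    unfold omS; exact_mod_cast h'
  have h3 : ((#{r ∈ range p | ¬ ∃ i, p ∣ h i + F i r} : ℕ) : ℝ) =
      ∑ r ∈ range p, ∏ i, (if ¬ p ∣ h i + F i r then (1 : ℝ) else 0) := by
    rw [card_filter_real]
    apply sum_congr rfl
    intro r _
    rw [prod_ite_zero]
    simp
  rw [← h3]
  have hp0 : (0 : ℝ) < p := by exact_mod_cast hp
  unfold dnS
  field_simp
  linarith

lemma dnS_nonneg (F : Fin k → ℕ → ℕ) (h : Fin k → ℕ) {p : ℕ} (hp : 0 < p) : 0 ≤ dnS F h p := by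
  rw [dnS_eq F h hp]
  apply mul_nonneg (by positivity)
  apply sum_nonneg
  intro r _
  apply prod_nonneg
  intro i _
  split_ifs <;> norm_num

lemma ufS_nonneg (F : Fin k → ℕ → ℕ) (h : Fin k → ℕ) {p : ℕ} (hp : p.Prime) : 0 ≤ ufS F h p := by
  unfold ufS
  have := one_sub_pos hp
  have := dnS_nonneg F h hp.pos
  positivity

lemma sgS_nonneg (F : Fin k → ℕ → ℕ) (h : Fin k → ℕ) (y : ℕ) : 0 ≤ sgS F h y :=
  prod_nonneg fun _ hp => ufS_nonneg F h (mem_filter.1 hp).2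

lemma sgS_le (F : Fin k → ℕ → ℕ) (h : Fin k → ℕ) (y z : ℕ) (hyz : y ≤ z) :
    sgS F h z ≤ sgS F h y * Real.exp (TTS F h y z) := by
  have h1 : (range (z + 1)).filter Nat.Prime = (range (y + 1)).filter Nat.Prime ∪ PQ y z := by
    ext p; simp only [mem_filter, mem_range, mem_union, PQ, mem_Ioc]; constructor
    · rintro ⟨h1, h2⟩
      by_cases h : p < y + 1
      · exact Or.inl ⟨h, h2⟩
      · exact Or.inr ⟨⟨by omega, by omega⟩, h2⟩
    · rintro (⟨h1, h2⟩ | ⟨⟨h1, h2⟩, h3⟩)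
      · exact ⟨by omega, h2⟩
      · exact ⟨by omega, h3⟩
  have h2 : Disjoint ((range (y + 1)).filter Nat.Prime) (PQ y z) := by
    rw [disjoint_left]
    intro p hp hq
    simp only [mem_filter, mem_range, PQ, mem_Ioc] at hp hq
    omega
  unfold sgS TTS
  rw [h1, prod_union h2]
  apply mul_le_mul_of_nonneg_left _ (prod_nonneg fun _ hp => ufS_nonneg F h (mem_filter.1 hp).2)
  rw [Real.exp_sum]
  apply prod_le_prod
  · intro p hp; exact ufS_nonneg F h (mem_filter.1 hp).2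
  · intro p _
    have := Real.add_one_le_exp (ufS F h p - 1)
    linarith

lemma dvd_add_comm' (p a b : ℕ) : p ∣ a + b ↔ p ∣ b + a := by rw [add_comm]

/-- mean value -/
theorem sum_dnS_low (F : Fin k → ℕ → ℕ) (H : Fin k → ℕ) (Hm p : ℕ) (hHm : ∀ i, Hm ≤ H i) (hp : 2 ≤ p) (hH : 2 ≤ Hm) :
    ((1 - 1 / (p : ℝ)) * (1 - 2 / (Hm : ℝ))) ^ k * #(Sx H) ≤ ∑ h ∈ Sx H, dnS F h p := by
  have hp0 : (0 : ℝ) < p := by exact_mod_cast (by omega : 0 < p)
  have hH0 : (2 : ℝ) ≤ Hm := by exact_mod_cast hH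
  have hp2 : (2 : ℝ) ≤ p := by exact_mod_cast hp
  have h1 : ∑ h ∈ Sx H, dnS F h p = (1 / (p : ℝ)) * ∑ r ∈ range p, ∏ i, (#{u ∈ Icc 1 (H i) | ¬ p ∣ u + F i r} : ℝ) := by
    rw [sum_congr rfl (fun h _ => dnS_eq F h (by omega : 0 < p)), ← mul_sum, sum_comm]
    congr 1
    apply sum_congr rfl
    intro r _
    rw [sum_Sx_prod H (fun i u => if ¬ p ∣ u + F i r then (1 : ℝ) else 0)]
    apply prod_congr rfl
    intro i _
    rw [card_filter_real]
  rw [h1]
  have h3 : 1 / (p : ℝ) ≤ 1 := by rw [div_le_one hp0]; linarith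
  have h4 : 2 / (Hm : ℝ) ≤ 1 := by rw [div_le_one (by linarith)]; linarith
  have h3' := sub_nonneg.2 h3
  have h4' := sub_nonneg.2 h4
  have h2 : ∀ r ∈ range p, ((1 - 1 / (p : ℝ)) * (1 - 2 / (Hm : ℝ))) ^ k * #(Sx H) ≤
      ∏ i, (#{u ∈ Icc 1 (H i) | ¬ p ∣ u + F i r} : ℝ) := by
    intro r _
    rw [pow_mul_card_Sx]
    apply prod_le_prod
    · intro i _
      positivity
    · intro i _
      have hHi : (Hm : ℝ) ≤ H i := by exact_mod_cast hHm i
      refine le_trans ?_ (window_one_low p (F i r) (H i) hp (by have := hHm i; omega))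
      apply mul_le_mul_of_nonneg_right _ (Nat.cast_nonneg _)
      apply mul_le_mul_of_nonneg_left _ h3'
      have : 2 / (H i : ℝ) ≤ 2 / Hm := div_le_div_of_nonneg_left (by norm_num) (by linarith) hHi
      linarith
  calc _ = (1 / (p : ℝ)) * ∑ r ∈ range p, ((1 - 1 / (p : ℝ)) * (1 - 2 / (Hm : ℝ))) ^ k * #(Sx H) := by
        rw [sum_const, card_range, nsmul_eq_mul]; field_simp
    _ ≤ _ := mul_le_mul_of_nonneg_left (sum_le_sum h2) (by positivity)

lemma sum_dnS_mul (F : Fin k → ℕ → ℕ) (H : Fin k → ℕ) (p q : ℕ) (hp : 0 < p) (hq : 0 < q) :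
    ∑ h ∈ Sx H, dnS F h p * dnS F h q = (1 / ((p : ℝ) * q)) * ∑ r ∈ range p, ∑ s ∈ range q,
      ∏ i, (#{u ∈ Icc 1 (H i) | ¬ p ∣ u + F i r ∧ ¬ q ∣ u + F i s} : ℝ) := by
  have h1 : ∀ h ∈ Sx H, dnS F h p * dnS F h q = (1 / ((p : ℝ) * q)) * ∑ r ∈ range p, ∑ s ∈ range q,
      ∏ i, (if ¬ p ∣ h i + F i r ∧ ¬ q ∣ h i + F i s then (1 : ℝ) else 0) := by
    intro h _
    rw [dnS_eq F h hp, dnS_eq F h hq]
    rw [show (1 / (p : ℝ) * ∑ r ∈ range p, ∏ i, (if ¬ p ∣ h i + F i r then (1 : ℝ) else 0)) *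
        (1 / (q : ℝ) * ∑ r ∈ range q, ∏ i, (if ¬ q ∣ h i + F i r then (1 : ℝ) else 0)) =
        (1 / ((p : ℝ) * q)) * ((∑ r ∈ range p, ∏ i, (if ¬ p ∣ h i + F i r then (1 : ℝ) else 0)) *
        (∑ r ∈ range q, ∏ i, (if ¬ q ∣ h i + F i r then (1 : ℝ) else 0))) by
      rw [one_div_mul_one_div_rev .. |>.symm]; ring]
    congr 1
    rw [sum_mul_sum]
    apply sum_congr rfl; intro r _
    apply sum_congr rfl; intro s _
    rw [← prod_mul_distrib]
    apply prod_congr rfl; intro i _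
    by_cases h1 : p ∣ h i + F i r <;> by_cases h2 : q ∣ h i + F i s <;> simp [h1, h2]
  rw [sum_congr rfl h1, ← mul_sum]
  congr 1
  rw [sum_comm]
  apply sum_congr rfl; intro r _
  rw [sum_comm]
  apply sum_congr rfl; intro s _
  rw [sum_Sx_prod H (fun i u => if ¬ p ∣ u + F i r ∧ ¬ q ∣ u + F i s then (1 : ℝ) else 0)]
  apply prod_congr rfl
  intro i _
  rw [card_filter_real]

theorem sum_dnS_cross (F : Fin k → ℕ → ℕ) (H : Fin k → ℕ) (Hm p q : ℕ) (hHm : ∀ i, Hm ≤ H i) (hp : p.Prime) (hq : q.Prime)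
    (hpq : p ≠ q) (hH : 1 ≤ Hm) :
    ∑ h ∈ Sx H, dnS F h p * dnS F h q ≤
      ((1 - 1 / (p : ℝ)) * (1 - 1 / (q : ℝ)) * (1 + p * q / Hm)) ^ k * #(Sx H) := by
  have hp0 : (0 : ℝ) < p := by exact_mod_cast hp.pos
  have hq0 : (0 : ℝ) < q := by exact_mod_cast hq.pos
  have hHm0 : (0 : ℝ) < Hm := by exact_mod_cast hH
  have h1 := one_sub_pos hp
  have h2 := one_sub_pos hq
  rw [sum_dnS_mul F H p q hp.pos hq.pos]
  calc _ ≤ (1 / ((p : ℝ) * q)) * ∑ r ∈ range p, ∑ s ∈ range q,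
        ((1 - 1 / (p : ℝ)) * (1 - 1 / (q : ℝ)) * (1 + p * q / Hm)) ^ k * #(Sx H) := by
        apply mul_le_mul_of_nonneg_left _ (by positivity)
        apply sum_le_sum; intro r _
        apply sum_le_sum; intro s _
        rw [pow_mul_card_Sx]
        apply prod_le_prod
        · intro i _; exact Nat.cast_nonneg _
        · intro i _
          have hHi : (Hm : ℝ) ≤ H i := by exact_mod_cast hHm i
          refine (window_two_up p q (F i r) (F i s) (H i) hp hq hpq (by have := hHm i; omega)).trans ?_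
          apply mul_le_mul_of_nonneg_right _ (Nat.cast_nonneg _)
          apply mul_le_mul_of_nonneg_left _ (by positivity)
          have : (p : ℝ) * q / (H i) ≤ p * q / Hm := div_le_div_of_nonneg_left (by positivity) hHm0 hHi
          linarith
    _ = _ := by
        simp only [sum_const, card_range, nsmul_eq_mul]
        field_simp

/-- two different classes of the same prime -/
lemma window_same (p c c' H : ℕ) (hp : p.Prime) (hH : 1 ≤ H) (hc : ¬ c ≡ c' [MOD p]) :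
    (#{u ∈ Icc 1 H | ¬ p ∣ u + c ∧ ¬ p ∣ u + c'} : ℝ) ≤ (1 - 1 / (p : ℝ)) ^ 2 * (1 + p / H) * H := by
  have hp0 : (0 : ℝ) < p := by exact_mod_cast hp.pos
  have hHr : (0 : ℝ) < H := by exact_mod_cast hH
  have h1 := count_periodic p hp.pos (fun u => ¬ p ∣ u + c ∧ ¬ p ∣ u + c') (by
    intro u
    have h1 := per_dvd p p c dvd_rfl u
    have h2 := per_dvd p p c' dvd_rfl u
    simp only at h1 h2 ⊢
    rw [h1, h2]) H
  have h2 : #{u ∈ range p | ¬ p ∣ u + c ∧ ¬ p ∣ u + c'} + 2 ≤ p := by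
    have h3 := card_filter_add_card_filter_not (s := range p) (fun u => ¬ p ∣ u + c ∧ ¬ p ∣ u + c')
    rw [card_range] at h3
    have h4 : 2 ≤ #{u ∈ range p | ¬ (¬ p ∣ u + c ∧ ¬ p ∣ u + c')} := by
      have h5 : ({u ∈ range p | p ∣ u + c} : Finset ℕ) ∪ {u ∈ range p | p ∣ u + c'} ⊆
          {u ∈ range p | ¬ (¬ p ∣ u + c ∧ ¬ p ∣ u + c')} := by
        intro u hu
        rw [mem_union, mem_filter, mem_filter] at hu
        rw [mem_filter]
        rcases hu with hu | hu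
        · exact ⟨hu.1, fun h => h.1 hu.2⟩
        · exact ⟨hu.1, fun h => h.2 hu.2⟩
      have h6 : Disjoint ({u ∈ range p | p ∣ u + c} : Finset ℕ) {u ∈ range p | p ∣ u + c'} := by
        rw [disjoint_left]
        intro u hu hu'
        rw [mem_filter] at hu hu'
        apply hc
        have h7 : (u + c) ≡ (u + c') [MOD p] := by
          have e1 : (u + c) ≡ 0 [MOD p] := (Nat.modEq_zero_iff_dvd).2 hu.2
          have e2 : (u + c') ≡ 0 [MOD p] := (Nat.modEq_zero_iff_dvd).2 hu'.2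
          exact e1.trans e2.symm
        exact Nat.ModEq.add_left_cancel' u h7
      calc 2 = #{u ∈ range p | p ∣ u + c} + #{u ∈ range p | p ∣ u + c'} := by
            rw [count_residue p c hp.pos, count_residue p c' hp.pos]
        _ = _ := (card_union_of_disjoint h6).symm
        _ ≤ _ := card_le_card h5
    omega
  set κ := #{u ∈ range p | ¬ p ∣ u + c ∧ ¬ p ∣ u + c'} with hκ
  have h3 : (κ : ℝ) ≤ p * (1 - 1 / (p : ℝ)) ^ 2 := by
    have h4 : (κ : ℝ) + 2 ≤ p := by exact_mod_cast h2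
    have h5 : (p : ℝ) * (1 - 1 / (p : ℝ)) ^ 2 = p - 2 + 1 / p := by field_simp; ring
    rw [h5]
    have : (0 : ℝ) < 1 / p := by positivity
    linarith
  calc (#{u ∈ Icc 1 H | ¬ p ∣ u + c ∧ ¬ p ∣ u + c'} : ℝ) ≤ (((H / p + 1) * κ : ℕ) : ℝ) := by exact_mod_cast h1
    _ = (((H / p : ℕ) : ℝ) + 1) * κ := by push_cast; ring
    _ ≤ ((H : ℝ) / p + 1) * (p * (1 - 1 / (p : ℝ)) ^ 2) :=
        mul_le_mul (add_le_add Nat.cast_div_le le_rfl) h3 (Nat.cast_nonneg _) (by positivity)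
    _ = _ := by field_simp

/-- squares -/
theorem sum_dnS_sq (F : Fin k → ℕ → ℕ) (H : Fin k → ℕ) (Hm p D : ℕ) (hHm : ∀ i, Hm ≤ H i) (hp : p.Prime) (hH : 1 ≤ Hm)
    (hD : ∀ i, ∀ c : ℕ, #{r ∈ range p | F i r ≡ c [MOD p]} ≤ D) :
    ∑ h ∈ Sx H, dnS F h p ^ 2 ≤
      ((k * D / (p : ℝ)) * ((1 - 1 / (p : ℝ)) ^ k - (1 - 1 / (p : ℝ)) ^ (2 * k)) + (1 - 1 / (p : ℝ)) ^ (2 * k)) *
        (1 + p / Hm) ^ k * #(Sx H) := by
  have hp0 : (0 : ℝ) < p := by exact_mod_cast hp.pos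
  have hp1 : (1 : ℝ) ≤ p := by exact_mod_cast hp.one_lt.le
  have h1p := (one_sub_pos hp).le
  have hHm0 : (0 : ℝ) < Hm := by exact_mod_cast hH
  set b : ℝ := 1 + p / Hm with hb
  have hb0 : 0 ≤ b := by positivity
  set v : ℝ := 1 - 1 / (p : ℝ) with hv
  have hv1 : v ≤ 1 := by rw [hv]; have : 0 < 1 / (p : ℝ) := by positivity
                         linarith
  set N : ℝ := (#(Sx H) : ℝ) with hN
  have hN0 : 0 ≤ N := Nat.cast_nonneg _
  simp_rw [sq (dnS F _ p)]
  rw [sum_dnS_mul F H p p hp.pos hp.pos]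
  have hbi : ∀ i, 1 + (p : ℝ) / (H i) ≤ b := by
    intro i
    have hHi : (Hm : ℝ) ≤ H i := by exact_mod_cast hHm i
    have : (p : ℝ) / (H i) ≤ p / Hm := div_le_div_of_nonneg_left (by positivity) hHm0 hHi
    linarith
  set w : ℝ := (v ^ k - v ^ (2 * k)) * b ^ k * N with hw
  have hw0 : 0 ≤ w := by
    have h1 : v ^ (2 * k) ≤ v ^ k := pow_le_pow_of_le_one h1p hv1 (by omega)
    have h2 := sub_nonneg.2 h1
    positivity
  have hterm : ∀ r ∈ range p, ∀ s ∈ range p,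
      ∏ i, (#{u ∈ Icc 1 (H i) | ¬ p ∣ u + F i r ∧ ¬ p ∣ u + F i s} : ℝ) ≤
        (∑ i, (if F i s ≡ F i r [MOD p] then w else 0)) + v ^ (2 * k) * b ^ k * N := by
    intro r hr s hs
    by_cases hex : ∃ i, F i s ≡ F i r [MOD p]
    · obtain ⟨i₀, hi₀⟩ := hex
      have h2 : ∏ i, (#{u ∈ Icc 1 (H i) | ¬ p ∣ u + F i r ∧ ¬ p ∣ u + F i s} : ℝ) ≤ v ^ k * b ^ k * N := by
        rw [hN, card_Sx]
        have : v ^ k * b ^ k * ∏ i, (H i : ℝ) = ∏ i, (v * b * (H i : ℝ)) := by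
          rw [prod_mul_distrib, prod_const, card_fin, mul_pow]
        rw [this]
        apply prod_le_prod
        · intro i _; exact Nat.cast_nonneg _
        · intro i _
          have h3 : (#{u ∈ Icc 1 (H i) | ¬ p ∣ u + F i r ∧ ¬ p ∣ u + F i s} : ℝ) ≤
              (#{u ∈ Icc 1 (H i) | ¬ p ∣ u + F i r} : ℝ) := by
            exact_mod_cast card_le_card (fun u hu => by
              rw [mem_filter] at hu ⊢
              exact ⟨hu.1, hu.2.1⟩)
          refine h3.trans ((window_one_up p (F i r) (H i) hp.two_le (by have := hHm i; omega)).trans ?_)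
          apply mul_le_mul_of_nonneg_right _ (Nat.cast_nonneg _)
          exact mul_le_mul_of_nonneg_left (hbi i) h1p
      have h3 : w ≤ ∑ i, (if F i s ≡ F i r [MOD p] then w else 0) := by
        have := single_le_sum (f := fun i => if F i s ≡ F i r [MOD p] then w else 0)
          (fun i _ => by split_ifs <;> positivity) (mem_univ i₀)
        simpa [hi₀] using this
      have h4 : v ^ k * b ^ k * N = w + v ^ (2 * k) * b ^ k * N := by rw [hw]; ring
      linarith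
    · push Not at hex
      have h2 : ∏ i, (#{u ∈ Icc 1 (H i) | ¬ p ∣ u + F i r ∧ ¬ p ∣ u + F i s} : ℝ) ≤ v ^ (2 * k) * b ^ k * N := by
        rw [hN, card_Sx]
        have : v ^ (2 * k) * b ^ k * ∏ i, (H i : ℝ) = ∏ i, (v ^ 2 * b * (H i : ℝ)) := by
          rw [prod_mul_distrib, prod_const, card_fin, mul_pow, ← pow_mul]
        rw [this]
        apply prod_le_prod
        · intro i _; exact Nat.cast_nonneg _
        · intro i _
          refine (window_same p (F i r) (F i s) (H i) hp (by have := hHm i; omega)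
            (fun h => hex i h.symm)).trans ?_
          apply mul_le_mul_of_nonneg_right _ (Nat.cast_nonneg _)
          exact mul_le_mul_of_nonneg_left (hbi i) (by positivity)
      have h3 : 0 ≤ ∑ i, (if F i s ≡ F i r [MOD p] then w else 0) :=
        sum_nonneg fun i _ => by split_ifs <;> positivity
      linarith
  calc _ ≤ (1 / ((p : ℝ) * p)) * ∑ r ∈ range p, ∑ s ∈ range p,
        ((∑ i, (if F i s ≡ F i r [MOD p] then w else 0)) + v ^ (2 * k) * b ^ k * N) := by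
        apply mul_le_mul_of_nonneg_left _ (by positivity)
        exact sum_le_sum fun r hr => sum_le_sum fun s hs => hterm r hr s hs
    _ ≤ (1 / ((p : ℝ) * p)) * ∑ r ∈ range p, ((k * D) * w + p * (v ^ (2 * k) * b ^ k * N)) := by
        apply mul_le_mul_of_nonneg_left _ (by positivity)
        apply sum_le_sum
        intro r _
        rw [sum_add_distrib, sum_const, card_range, nsmul_eq_mul]
        apply add_le_add _ le_rfl
        rw [sum_comm]
        have : ∀ i ∈ (univ : Finset (Fin k)), ∑ s ∈ range p, (if F i s ≡ F i r [MOD p] then w else 0) ≤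
            D * w := by
          intro i _
          rw [← sum_filter, sum_const, nsmul_eq_mul]
          apply mul_le_mul_of_nonneg_right _ hw0
          exact_mod_cast hD i (F i r)
        refine (sum_le_sum this).trans ?_
        rw [sum_const, card_fin, nsmul_eq_mul]
        linarith
    _ = _ := by
        rw [sum_const, card_range, nsmul_eq_mul, hw]
        field_simp

end Pool.Agent.H373R2.SH
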