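import Mathlib
import Pool.Agent.H373R2.SH.SDens

namespace Pool.Agent.H373R2.SH
open Finset
open Pool.Agent.H373R2.BH (card_filter_real window_one_low window_one_up window_two_up count_periodic count_residue
  count_nonresidue per_dvd crt_count LD)

/-- second moment of the tail of the singular series for shift families -/
theorem tailS (k D : ℕ) : ∃ C : ℝ, 0 < C ∧ ∀ (F : Fin k → ℕ → ℕ),
    (∀ i, ∀ p : ℕ, p.Prime → ∀ c : ℕ, #{r ∈ range p | F i r ≡ c [MOD p]} ≤ D) →
    ∀ (H : Fin k → ℕ) (Hm y z : ℕ), (∀ i, Hm ≤ H i) → 1 ≤ y → z ^ 2 ≤ Hm → 2 ≤ Hm →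
    ∑ h ∈ Sx H, (TTS F h y z) ^ 2 ≤ C * (1 / y + (z : ℝ) ^ 4 / Hm) * #(Sx H) := by
  set c : ℝ := 2 * k + 2 ^ k + (2 ^ k * (1 + k * D * 2 ^ (k + 1)) + k * D * 2 ^ (k + 1)) + 1 with hc
  have hk0 : (0 : ℝ) ≤ k := Nat.cast_nonneg k
  have hD0 : (0 : ℝ) ≤ D := Nat.cast_nonneg D
  have hc0 : 0 < c := by positivity
  refine ⟨6 * c, by positivity, fun F hF H Hm y z hHm hy hz hH => ?_⟩
  have hHr : (2 : ℝ) ≤ Hm := by exact_mod_cast hH
  have hHpos : (0 : ℝ) < Hm := by linarith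
  have hzH : (z : ℝ) ^ 2 ≤ Hm := by exact_mod_cast hz
  set N := (#(Sx H) : ℝ) with hN
  have hN0 : 0 ≤ N := Nat.cast_nonneg _
  apply gen_tail (Sx H) (fun h p => ufS F h p) c hc0.le Hm y z (by omega) hy
  · intro p hp
    have hpp : p.Prime := (mem_filter.1 hp).2
    have h1 := sum_dnS_low F H Hm p hHm hpp.two_le hH
    have h2 := one_sub_pos hpp
    have h3 : ∑ h ∈ Sx H, ufS F h p = ((1 - 1 / (p : ℝ)) ^ k)⁻¹ * ∑ h ∈ Sx H, dnS F h p := by
      unfold ufS; rw [mul_sum]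
    rw [h3]
    have h4 : 1 - c / Hm ≤ (1 - 2 / (Hm : ℝ)) ^ k := by
      have h5 : -2 ≤ -(2 / (Hm : ℝ)) := by
        rw [neg_le_neg_iff, div_le_iff₀ hHpos]; linarith
      have h6 := one_add_mul_le_pow h5 k
      have h7 : 1 + (k : ℝ) * -(2 / Hm) = 1 - 2 * k / Hm := by ring
      have h8 : 1 + -(2 / (Hm : ℝ)) = 1 - 2 / Hm := by ring
      rw [h7, h8] at h6
      refine le_trans ?_ h6
      have : 2 * (k : ℝ) / Hm ≤ c / Hm := by
        apply div_le_div_of_nonneg_right _ hHpos.le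
        rw [hc]
        have : (0 : ℝ) ≤ 2 ^ k + (2 ^ k * (1 + k * D * 2 ^ (k + 1)) + k * D * 2 ^ (k + 1)) + 1 := by positivity
        linarith
      linarith
    calc (1 - c / Hm) * N ≤ (1 - 2 / (Hm : ℝ)) ^ k * N := mul_le_mul_of_nonneg_right h4 hN0
      _ = ((1 - 1 / (p : ℝ)) ^ k)⁻¹ * (((1 - 1 / (p : ℝ)) * (1 - 2 / (Hm : ℝ))) ^ k * N) := by
          rw [mul_pow]; field_simp
      _ ≤ _ := mul_le_mul_of_nonneg_left h1 (by positivity)
  · intro p hp q hq hpq
    have hpp : p.Prime := (mem_filter.1 hp).2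
    have hqq : q.Prime := (mem_filter.1 hq).2
    have hpz : p ≤ z := (mem_Ioc.1 (mem_filter.1 hp).1).2
    have hqz : q ≤ z := (mem_Ioc.1 (mem_filter.1 hq).1).2
    have h2 := one_sub_pos hpp
    have h2' := one_sub_pos hqq
    have hpqH : (p : ℝ) * q / Hm ≤ 1 := by
      rw [div_le_one hHpos]
      have : (p : ℝ) * q ≤ z * z := mul_le_mul (by exact_mod_cast hpz) (by exact_mod_cast hqz) (by positivity) (by positivity)
      nlinarith
    have h4 := sum_dnS_cross F H Hm p q hHm hpp hqq hpq (by omega)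
    have h5 : ∑ h ∈ Sx H, ufS F h p * ufS F h q =
        (((1 - 1 / (p : ℝ)) ^ k)⁻¹ * ((1 - 1 / (q : ℝ)) ^ k)⁻¹) * ∑ h ∈ Sx H, dnS F h p * dnS F h q := by
      unfold ufS; rw [mul_sum]; apply sum_congr rfl; intro a _; ring
    rw [h5]
    calc _ ≤ (((1 - 1 / (p : ℝ)) ^ k)⁻¹ * ((1 - 1 / (q : ℝ)) ^ k)⁻¹) *
          (((1 - 1 / (p : ℝ)) * (1 - 1 / (q : ℝ)) * (1 + p * q / Hm)) ^ k * N) :=
          mul_le_mul_of_nonneg_left h4 (by positivity)
      _ = (1 + p * q / Hm) ^ k * N := by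
          have hA : (1 - 1 / (p : ℝ)) ^ k ≠ 0 := by positivity
          have hB : (1 - 1 / (q : ℝ)) ^ k ≠ 0 := by positivity
          rw [mul_pow, mul_pow]
          generalize (1 - 1 / (p : ℝ)) ^ k = A at hA
          generalize (1 - 1 / (q : ℝ)) ^ k = B at hB
          field_simp
      _ ≤ _ := by
          apply mul_le_mul_of_nonneg_right _ hN0
          have h6 := pow_one_add_le ((p : ℝ) * q / Hm) (by positivity) hpqH k
          have h7 : (2 : ℝ) ^ k * (p * q / Hm) ≤ c * (p * q / Hm) := by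
            apply mul_le_mul_of_nonneg_right _ (by positivity)
            rw [hc]
            have : (0 : ℝ) ≤ 2 * k + (2 ^ k * (1 + k * D * 2 ^ (k + 1)) + k * D * 2 ^ (k + 1)) + 1 := by positivity
            linarith
          linarith
  · intro p hp
    have hpp : p.Prime := (mem_filter.1 hp).2
    have hpz : p ≤ z := (mem_Ioc.1 (mem_filter.1 hp).1).2
    have hp2 : (2 : ℝ) ≤ p := by exact_mod_cast hpp.two_le
    have hp0 : (0 : ℝ) < p := by linarith
    have h2 := one_sub_pos hpp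
    have hpzr : (p : ℝ) ≤ z := by exact_mod_cast hpz
    have hpH : (p : ℝ) / Hm ≤ 1 := by
      rw [div_le_one hHpos]
      nlinarith
    set b : ℝ := 1 + p / Hm with hb
    have hb0 : 0 ≤ b := by positivity
    set v : ℝ := ((1 - 1 / (p : ℝ)) ^ k)⁻¹ with hv
    have hv1 : 1 ≤ v := by
      rw [hv]; apply (one_le_inv₀ (by positivity)).2
      apply pow_le_one₀ h2.le
      have : 0 < 1 / (p : ℝ) := by positivity
      linarith
    have hv2 : v ≤ 1 + 2 ^ k * (2 / p) := inv_pow_le k hpp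
    have h4 := sum_dnS_sq F H Hm p D hHm hpp (by omega) (fun i => hF i p hpp)
    have h5 : ∑ h ∈ Sx H, ufS F h p * ufS F h p = v ^ 2 * ∑ h ∈ Sx H, dnS F h p ^ 2 := by
      unfold ufS; rw [mul_sum]; apply sum_congr rfl; intro a _; rw [hv]; ring
    rw [h5]
    have hvv : v * (1 - 1 / (p : ℝ)) ^ k = 1 := by rw [hv]; exact inv_mul_cancel₀ (by positivity)
    calc _ ≤ v ^ 2 * (((k * D / (p : ℝ)) * ((1 - 1 / (p : ℝ)) ^ k - (1 - 1 / (p : ℝ)) ^ (2 * k)) +
            (1 - 1 / (p : ℝ)) ^ (2 * k)) * b ^ k * N) := mul_le_mul_of_nonneg_left h4 (by positivity)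
      _ = ((k * D / (p : ℝ)) * (v * (v * (1 - 1 / (p : ℝ)) ^ k) - (v * (1 - 1 / (p : ℝ)) ^ k) ^ 2) +
            (v * (1 - 1 / (p : ℝ)) ^ k) ^ 2) * b ^ k * N := by
          rw [pow_mul' (1 - 1 / (p : ℝ)) 2 k]; ring
      _ = (1 + (k * D / p) * (v - 1)) * b ^ k * N := by rw [hvv]; ring
      _ ≤ (1 + k * D * 2 ^ (k + 1) * (1 / (p : ℝ) ^ 2)) * (1 + 2 ^ k * (p / Hm)) * N := by
          apply mul_le_mul_of_nonneg_right _ hN0
          apply mul_le_mul
          · have h9 : (k * D / (p : ℝ)) * (v - 1) ≤ (k * D / p) * (2 ^ k * (2 / p)) :=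
              mul_le_mul_of_nonneg_left (by linarith) (by positivity)
            have h10 : (k * D / (p : ℝ)) * (2 ^ k * (2 / p)) = k * D * 2 ^ (k + 1) * (1 / (p : ℝ) ^ 2) := by
              rw [pow_succ]; field_simp
            linarith
          · exact pow_one_add_le _ (by positivity) hpH k
          · positivity
          · positivity
      _ ≤ _ := by
          apply mul_le_mul_of_nonneg_right _ hN0
          have h12 : 1 / (p : ℝ) ^ 2 ≤ 1 := by
            rw [div_le_one (by positivity)]; nlinarith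
          set A : ℝ := k * D * 2 ^ (k + 1) with hA
          have hA0 : 0 ≤ A := by positivity
          set t : ℝ := 1 / (p : ℝ) ^ 2 with ht
          have ht0 : 0 ≤ t := by positivity
          set s : ℝ := (p : ℝ) / Hm with hs
          have hs0 : 0 ≤ s := by positivity
          have hT0 : (0 : ℝ) ≤ 2 ^ k := by positivity
          have e1 : (1 + A * t) * (1 + 2 ^ k * s) ≤ 1 + (A * t + 2 ^ k * (1 + A) * s) := by
            have : A * t * (2 ^ k * s) ≤ A * 1 * (2 ^ k * s) := by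
              apply mul_le_mul_of_nonneg_right _ (by positivity)
              exact mul_le_mul_of_nonneg_left h12 hA0
            nlinarith
          have e2 : A * t + 2 ^ k * (1 + A) * s ≤ c * (t + s) := by
            have h13 : A ≤ c := by
              rw [hc]
              have : (0 : ℝ) ≤ 2 * k + 2 ^ k + (2 ^ k * (1 + A)) + 1 := by positivity
              linarith
            have h14 : 2 ^ k * (1 + A) ≤ c := by
              rw [hc]
              have : (0 : ℝ) ≤ 2 * k + 2 ^ k + A + 1 := by positivity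
              linarith
            have h15 := mul_le_mul_of_nonneg_right h13 ht0
            have h16 := mul_le_mul_of_nonneg_right h14 hs0
            linarith
          linarith

/-- the product of local densities as one average -/
lemma prod_dnS (k : ℕ) (F : Fin k → ℕ → ℕ) (hF : ∀ i, LD (F i)) (y : ℕ) (h : Fin k → ℕ) :
    ∏ p ∈ (range (y + 1)).filter Nat.Prime, dnS F h p =
      (1 / ((∏ p ∈ (range (y + 1)).filter Nat.Prime, p : ℕ) : ℝ)) *
        ∑ r ∈ range (∏ p ∈ (range (y + 1)).filter Nat.Prime, p),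
          ∏ i, (if ∀ p ∈ (range (y + 1)).filter Nat.Prime, ¬ p ∣ h i + F i r then (1 : ℝ) else 0) := by
  classical
  set s := (range (y + 1)).filter Nat.Prime with hs
  have hsp : ∀ p ∈ s, p.Prime := fun p hp => (mem_filter.1 hp).2
  set P := ∏ p ∈ s, p with hP
  have hcong : ∀ (i : Fin k) (p r : ℕ), p ∣ h i + F i (r % p) ↔ p ∣ h i + F i r := by
    intro i p r
    obtain ⟨c, hc⟩ := hF i (r % p) r (Nat.mod_le r p)
    rw [hc, ← add_assoc]
    have h2 : p ∣ (r - r % p) * c := (Nat.dvd_sub_mod r).mul_right c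
    exact (Nat.dvd_add_left h2).symm
  have h1 := crt_count s hsp (fun p r => ∀ i, ¬ p ∣ h i + F i r)
  have h2 : ∏ p ∈ s, dnS F h p = ∏ p ∈ s, ((#{r ∈ range p | ∀ i, ¬ p ∣ h i + F i r} : ℝ) / p) := by
    apply prod_congr rfl
    intro p hp
    rw [dnS_eq F h (hsp p hp).pos, card_filter_real, one_div, ← div_eq_inv_mul]
    congr 1
    apply sum_congr rfl
    intro r _
    rw [prod_ite_zero]; simp
  rw [h2, prod_div_distrib]
  have h3 : (∏ p ∈ s, (#{r ∈ range p | ∀ i, ¬ p ∣ h i + F i r} : ℝ)) =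
      ((#{r ∈ range P | ∀ p ∈ s, ∀ i, ¬ p ∣ h i + F i (r % p)} : ℕ) : ℝ) := by
    rw [h1]; push_cast; rfl
  rw [h3, card_filter_real, one_div, ← div_eq_inv_mul]
  have h4 : (∏ p ∈ s, (p : ℝ)) = (P : ℝ) := by rw [hP]; push_cast; rfl
  rw [h4]
  congr 1
  apply sum_congr rfl
  intro r _
  rw [prod_ite_zero]
  simp only [hcong, prod_const_one, mem_univ, true_imp_iff]
  congr 1
  apply propext
  exact ⟨fun h i p hp => h p hp i, fun h p hp i => h i p hp⟩

/-- mean of the truncated singular series -/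
theorem sum_sgS_le (k : ℕ) (F : Fin k → ℕ → ℕ) (hF : ∀ i, LD (F i)) (y : ℕ) (H : Fin k → ℕ) (Hm : ℕ)
    (hHm : ∀ i, Hm ≤ H i) (hH : 1 ≤ Hm) :
    ∑ h ∈ Sx H, sgS F h y ≤ (1 + (∏ p ∈ (range (y + 1)).filter Nat.Prime, p : ℕ) / (Hm : ℝ)) ^ k * #(Sx H) := by
  classical
  set s := (range (y + 1)).filter Nat.Prime with hs
  have hsp : ∀ p ∈ s, p.Prime := fun p hp => (mem_filter.1 hp).2
  set P := ∏ p ∈ s, p with hP
  have hPpos : 0 < P := prod_pos fun p hp => (hsp p hp).pos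
  have hPr : (0 : ℝ) < P := by exact_mod_cast hPpos
  have hHpos : (0 : ℝ) < Hm := by exact_mod_cast hH
  have hbox : ∀ i, ∀ r, (∑ u ∈ Icc 1 (H i), (if ∀ p ∈ s, ¬ p ∣ u + F i r then (1 : ℝ) else 0)) ≤
      ((∏ p ∈ s, (1 - 1 / (p : ℝ))) * (1 + P / Hm)) * (H i : ℝ) := by
    intro i r
    have hHi : (Hm : ℝ) ≤ H i := by exact_mod_cast hHm i
    have h1 := count_periodic P hPpos (fun u => ∀ p ∈ s, ¬ p ∣ u + F i r) (by
      intro u
      apply propext
      apply forall_congr'; intro p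
      apply forall_congr'; intro hp
      have := per_dvd p P (F i r) (dvd_prod_of_mem _ hp) u
      simp only at this
      rw [this]) (H i)
    have h2 := crt_count s hsp (fun p u => ¬ p ∣ u + F i r)
    have h3 : #{u ∈ range P | ∀ p ∈ s, ¬ p ∣ u + F i r} = ∏ p ∈ s, (p - 1) := by
      have e1 : ∀ p u c : ℕ, (p ∣ u % p + c) ↔ (p ∣ u + c) := by
        intro p u c
        rw [Nat.dvd_iff_mod_eq_zero, Nat.dvd_iff_mod_eq_zero, Nat.add_mod, Nat.mod_mod, ← Nat.add_mod]
      simp only [e1] at h2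
      rw [h2]
      apply prod_congr rfl
      intro p hp
      exact count_nonresidue p _ (hsp p hp).pos
    rw [h3] at h1
    rw [← card_filter_real]
    have h5 : ((∏ p ∈ s, (p - 1) : ℕ) : ℝ) = P * ∏ p ∈ s, (1 - 1 / (p : ℝ)) := by
      rw [hP]; push_cast
      rw [← prod_mul_distrib]
      apply prod_congr rfl
      intro p hp
      have hp0 : (0 : ℝ) < p := by exact_mod_cast (hsp p hp).pos
      rw [Nat.cast_sub (hsp p hp).one_lt.le]
      field_simp
      push_cast; ring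
    have h6 : (0 : ℝ) ≤ ∏ p ∈ s, (1 - 1 / (p : ℝ)) := prod_nonneg fun p hp => (one_sub_pos (hsp p hp)).le
    calc ((#{u ∈ Icc 1 (H i) | ∀ p ∈ s, ¬ p ∣ u + F i r} : ℕ) : ℝ)
        ≤ (((H i / P + 1) * ∏ p ∈ s, (p - 1) : ℕ) : ℝ) := by exact_mod_cast h1
      _ = (((H i / P : ℕ) : ℝ) + 1) * (P * ∏ p ∈ s, (1 - 1 / (p : ℝ))) := by rw [← h5]; push_cast; ring
      _ ≤ ((H i : ℝ) / P + 1) * (P * ∏ p ∈ s, (1 - 1 / (p : ℝ))) :=
          mul_le_mul_of_nonneg_right (add_le_add Nat.cast_div_le le_rfl) (by positivity)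
      _ = (∏ p ∈ s, (1 - 1 / (p : ℝ))) * (H i + P) := by field_simp
      _ ≤ _ := by
          rw [mul_assoc]
          apply mul_le_mul_of_nonneg_left _ h6
          have : (P : ℝ) ≤ P / Hm * H i := by
            rw [div_mul_eq_mul_div, le_div_iff₀ hHpos]
            exact mul_le_mul_of_nonneg_left hHi hPr.le
          linarith
  have hQ0 : (0 : ℝ) < ∏ p ∈ s, (1 - 1 / (p : ℝ)) := prod_pos fun p hp => one_sub_pos (hsp p hp)
  calc ∑ h ∈ Sx H, sgS F h y
      = ∑ h ∈ Sx H, ((∏ p ∈ s, (1 - 1 / (p : ℝ))) ^ k)⁻¹ * ∏ p ∈ s, dnS F h p := by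
        apply sum_congr rfl
        intro h _
        unfold sgS ufS
        rw [prod_mul_distrib, prod_inv_distrib, prod_pow]
    _ = ((∏ p ∈ s, (1 - 1 / (p : ℝ))) ^ k)⁻¹ * ∑ h ∈ Sx H, (1 / (P : ℝ)) *
          ∑ r ∈ range P, ∏ i, (if ∀ p ∈ s, ¬ p ∣ h i + F i r then (1 : ℝ) else 0) := by
        rw [mul_sum]
        apply sum_congr rfl
        intro h _
        rw [prod_dnS k F hF y h]
    _ = ((∏ p ∈ s, (1 - 1 / (p : ℝ))) ^ k)⁻¹ * ((1 / (P : ℝ)) * ∑ r ∈ range P,
          ∏ i, ∑ u ∈ Icc 1 (H i), (if ∀ p ∈ s, ¬ p ∣ u + F i r then (1 : ℝ) else 0)) := by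
        rw [← mul_sum, sum_comm]
        congr 2
        apply sum_congr rfl
        intro r _
        rw [sum_Sx_prod H (fun i u => if ∀ p ∈ s, ¬ p ∣ u + F i r then (1 : ℝ) else 0)]
    _ ≤ ((∏ p ∈ s, (1 - 1 / (p : ℝ))) ^ k)⁻¹ * ((1 / (P : ℝ)) * ∑ r ∈ range P,
          ∏ i, (((∏ p ∈ s, (1 - 1 / (p : ℝ))) * (1 + P / Hm)) * (H i : ℝ))) := by
        apply mul_le_mul_of_nonneg_left _ (by positivity)
        apply mul_le_mul_of_nonneg_left _ (by positivity)
        apply sum_le_sum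
        intro r _
        apply prod_le_prod
        · intro i _
          apply sum_nonneg
          intro u _
          split_ifs <;> norm_num
        · intro i _
          exact hbox i r
    _ = _ := by
        rw [← pow_mul_card_Sx, sum_const, card_range, nsmul_eq_mul, mul_pow]
        field_simp

end Pool.Agent.H373R2.SH
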