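import Mathlib
import Pool.Agent.H373R2.SH.Roots

namespace Pool.Agent.H373R2.SH
open Finset Polynomial
open Pool.Agent.H373R2.BH (LD)

/-- increments of a polynomial with natural coefficients -/
def Gp (f : ℕ[X]) (n : ℕ) : ℕ := ∑ j ∈ range (f.natDegree + 1), f.coeff j * ∑ i ∈ range j, j.choose i * n ^ i

lemma Gp_succ (f : ℕ[X]) (n : ℕ) : f.eval (n + 1) = f.eval n + Gp f n := by
  rw [eval_eq_sum_range, eval_eq_sum_range, Gp, ← sum_add_distrib]
  apply sum_congr rfl
  intro j _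
  rw [← mul_add]
  congr 1
  rw [add_pow, sum_range_succ]
  simp only [one_pow, mul_one, Nat.choose_self, Nat.cast_id]
  rw [add_comm]
  congr 1
  apply sum_congr rfl
  intro i _
  ring

lemma Gp_mono (f : ℕ[X]) {m n : ℕ} (h : m ≤ n) : Gp f m ≤ Gp f n := by
  unfold Gp
  apply sum_le_sum; intro j _
  apply Nat.mul_le_mul_left
  apply sum_le_sum; intro i _
  exact Nat.mul_le_mul_left _ (Nat.pow_le_pow_left h i)

lemma eval_add_le (f : ℕ[X]) (n r : ℕ) : f.eval (n + r) ≤ f.eval n + r * Gp f (n + r) := by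
  induction r with
  | zero => simp
  | succ r ih =>
    rw [← add_assoc, Gp_succ]
    have h1 := Gp_mono f (show n + r ≤ n + r + 1 by omega)
    have h2 : r * Gp f (n + r) ≤ r * Gp f (n + r + 1) := Nat.mul_le_mul_left _ h1
    have h3 : (r + 1) * Gp f (n + r + 1) = r * Gp f (n + r + 1) + Gp f (n + r + 1) := by ring
    omega

lemma le_eval_add (f : ℕ[X]) (n r : ℕ) : f.eval n + r * Gp f n ≤ f.eval (n + r) := by
  induction r with
  | zero => simp
  | succ r ih =>
    rw [← add_assoc, Gp_succ]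
    have h1 := Gp_mono f (show n ≤ n + r by omega)
    have h3 : (r + 1) * Gp f n = r * Gp f n + Gp f n := by ring
    omega

lemma Gp_ge (f : ℕ[X]) (hf : 1 ≤ f.natDegree) (n : ℕ) : n ^ (f.natDegree - 1) ≤ Gp f n := by
  unfold Gp
  have hf0 : f ≠ 0 := by rintro rfl; simp at hf
  have h1 : 1 ≤ f.coeff f.natDegree := Nat.pos_of_ne_zero (leadingCoeff_ne_zero.2 hf0)
  calc n ^ (f.natDegree - 1) ≤ f.coeff f.natDegree * ∑ i ∈ range f.natDegree, f.natDegree.choose i * n ^ i := by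
        have h2 : f.natDegree.choose (f.natDegree - 1) * n ^ (f.natDegree - 1) ≤
            ∑ i ∈ range f.natDegree, f.natDegree.choose i * n ^ i :=
          single_le_sum (f := fun i => f.natDegree.choose i * n ^ i) (fun _ _ => Nat.zero_le _) (mem_range.2 (by omega))
        have h3 : 1 ≤ f.natDegree.choose (f.natDegree - 1) := Nat.choose_pos (by omega)
        calc n ^ (f.natDegree - 1) = 1 * (1 * n ^ (f.natDegree - 1)) := by ring
          _ ≤ f.coeff f.natDegree * (f.natDegree.choose (f.natDegree - 1) * n ^ (f.natDegree - 1)) :=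
              Nat.mul_le_mul h1 (Nat.mul_le_mul_right _ h3)
          _ ≤ _ := Nat.mul_le_mul_left _ h2
    _ ≤ _ := single_le_sum (f := fun j => f.coeff j * ∑ i ∈ range j, j.choose i * n ^ i) (fun _ _ => Nat.zero_le _)
        (mem_range.2 (by omega))

lemma Gp_le (f : ℕ[X]) (n : ℕ) (hn : 1 ≤ n) : Gp f n ≤ 2 ^ f.natDegree * f.eval 1 * n ^ (f.natDegree - 1) := by
  unfold Gp
  rw [eval_eq_sum_range, mul_assoc, mul_comm, sum_mul, sum_mul]
  apply sum_le_sum
  intro j hj
  rw [mem_range] at hj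
  rw [one_pow, mul_one]
  have h1 : ∑ i ∈ range j, j.choose i * n ^ i ≤ 2 ^ f.natDegree * n ^ (f.natDegree - 1) := by
    calc ∑ i ∈ range j, j.choose i * n ^ i ≤ ∑ i ∈ range j, j.choose i * n ^ (f.natDegree - 1) := by
          apply sum_le_sum; intro i hi
          rw [mem_range] at hi
          exact Nat.mul_le_mul_left _ (Nat.pow_le_pow_right hn (by omega))
      _ = (∑ i ∈ range j, j.choose i) * n ^ (f.natDegree - 1) := by rw [sum_mul]
      _ ≤ 2 ^ f.natDegree * n ^ (f.natDegree - 1) := by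
          apply Nat.mul_le_mul_right
          calc ∑ i ∈ range j, j.choose i ≤ ∑ i ∈ range (j + 1), j.choose i :=
                sum_le_sum_of_subset (range_mono (by omega))
            _ = 2 ^ j := Nat.sum_range_choose j
            _ ≤ 2 ^ f.natDegree := Nat.pow_le_pow_right (by norm_num) (by omega)
  calc f.coeff j * ∑ i ∈ range j, j.choose i * n ^ i ≤ f.coeff j * (2 ^ f.natDegree * n ^ (f.natDegree - 1)) :=
        Nat.mul_le_mul_left _ h1
    _ = _ := by ring

lemma Gp_scale (f : ℕ[X]) (M n n' : ℕ) (h : M * n' ≤ (M + 2) * n) :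
    M ^ (f.natDegree - 1) * Gp f n' ≤ (M + 2) ^ (f.natDegree - 1) * Gp f n := by
  unfold Gp
  rw [mul_sum, mul_sum]
  apply sum_le_sum
  intro j hj
  rw [mem_range] at hj
  rw [mul_left_comm, mul_left_comm ((M + 2) ^ (f.natDegree - 1))]
  apply Nat.mul_le_mul_left
  rw [mul_sum, mul_sum]
  apply sum_le_sum
  intro i hi
  rw [mem_range] at hi
  rw [mul_left_comm, mul_left_comm ((M + 2) ^ (f.natDegree - 1))]
  apply Nat.mul_le_mul_left
  have e : f.natDegree - 1 = (f.natDegree - 1 - i) + i := by omega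
  rw [e, pow_add, pow_add, mul_assoc, ← mul_pow, mul_assoc, ← mul_pow]
  exact Nat.mul_le_mul (Nat.pow_le_pow_left (by omega) _) (Nat.pow_le_pow_left h i)

/-- telescoping for a monotone function -/
lemma telescope (P : ℕ → ℕ) (hP : Monotone P) (N L r : ℕ) (hr : r ≤ L) :
    (r : ℝ) * ((P (N + L) : ℝ) - P (N + r)) ≤ ∑ n ∈ Ico N (N + L), ((P (n + r) : ℝ) - P n) := by
  rw [sum_sub_distrib]
  have h1 : ∑ n ∈ Ico N (N + L), (P (n + r) : ℝ) = ∑ m ∈ Ico (N + r) (N + L + r), (P m : ℝ) := by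
    rw [sum_Ico_add' (fun m => (P m : ℝ))]
  have h2 : ∑ m ∈ Ico (N + r) (N + L + r), (P m : ℝ) =
      ∑ m ∈ Ico (N + r) (N + L), (P m : ℝ) + ∑ m ∈ Ico (N + L) (N + L + r), (P m : ℝ) := by
    rw [sum_Ico_consecutive _ (by omega) (by omega)]
  have h3 : ∑ m ∈ Ico N (N + L), (P m : ℝ) =
      ∑ m ∈ Ico N (N + r), (P m : ℝ) + ∑ m ∈ Ico (N + r) (N + L), (P m : ℝ) := by
    rw [sum_Ico_consecutive _ (by omega) (by omega)]
  rw [h1, h2, h3]
  have h4 : (r : ℝ) * P (N + L) ≤ ∑ m ∈ Ico (N + L) (N + L + r), (P m : ℝ) := by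
    calc (r : ℝ) * P (N + L) = ∑ m ∈ Ico (N + L) (N + L + r), (P (N + L) : ℝ) := by
          rw [sum_const, Nat.card_Ico, nsmul_eq_mul]; congr 2; omega
      _ ≤ _ := sum_le_sum fun m hm => by exact_mod_cast hP (mem_Ico.1 hm).1
  have h5 : ∑ m ∈ Ico N (N + r), (P m : ℝ) ≤ r * P (N + r) := by
    calc _ ≤ ∑ m ∈ Ico N (N + r), (P (N + r) : ℝ) :=
          sum_le_sum fun m hm => by exact_mod_cast hP (mem_Ico.1 hm).2.le
      _ = _ := by rw [sum_const, Nat.card_Ico, nsmul_eq_mul]; congr 2; omega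
  linarith

end Pool.Agent.H373R2.SH
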