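import Mathlib
import Pool.Agent.H373R2.SH.STail
import Pool.Agent.H373R2.SH.Incr

namespace Pool.Agent.H373R2.SH
open Finset Polynomial
open Pool.Agent.H646 (rat)
open Pool.Agent.H646.TuplesM (rat_ge_one rat_nonneg)
open Pool.Agent.H373R2.BH (card_filter_real pair_window single_window LD)

variable {k : ℕ}

/-- number of `n ≤ x` for which all values are prime -/
def cntS (F : Fin k → ℕ → ℕ) (h : Fin k → ℕ) (x : ℕ) : ℕ := #{n ∈ Icc 1 x | ∀ i, (h i + F i n).Prime}

lemma cntS_eq (F : Fin k → ℕ → ℕ) (h : Fin k → ℕ) (x : ℕ) :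
    (cntS F h x : ℝ) = ∑ n ∈ Icc 1 x, ∏ i, (if (h i + F i n).Prime then (1 : ℝ) else 0) := by
  unfold cntS
  rw [card_filter_real]
  apply sum_congr rfl
  intro n _
  rw [prod_ite_zero]
  simp

lemma sum_cntS (F : Fin k → ℕ → ℕ) (H : Fin k → ℕ) (x : ℕ) :
    ∑ h ∈ Sx H, (cntS F h x : ℝ) = ∑ n ∈ Icc 1 x, ∏ i, (#{u ∈ Icc 1 (H i) | (u + F i n).Prime} : ℝ) := by
  simp_rw [cntS_eq]
  rw [sum_comm]
  apply sum_congr rfl
  intro n _
  rw [sum_Sx_prod H (fun i u => if (u + F i n).Prime then (1 : ℝ) else 0)]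
  apply prod_congr rfl
  intro i _
  rw [card_filter_real]

lemma sum_cntS_sq (F : Fin k → ℕ → ℕ) (H : Fin k → ℕ) (x : ℕ) :
    ∑ h ∈ Sx H, (cntS F h x : ℝ) ^ 2 = ∑ n ∈ Icc 1 x, ∑ m ∈ Icc 1 x,
      ∏ i, (#{u ∈ Icc 1 (H i) | (u + F i m).Prime ∧ (u + F i n).Prime} : ℝ) := by
  have h1 : ∀ h ∈ Sx H, (cntS F h x : ℝ) ^ 2 = ∑ n ∈ Icc 1 x, ∑ m ∈ Icc 1 x,
      ∏ i, (if (h i + F i m).Prime ∧ (h i + F i n).Prime then (1 : ℝ) else 0) := by
    intro h _
    rw [sq, cntS_eq, sum_mul_sum]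
    apply sum_congr rfl; intro n _
    apply sum_congr rfl; intro m _
    rw [← prod_mul_distrib]
    apply prod_congr rfl; intro i _
    by_cases h1 : (h i + F i n).Prime <;> by_cases h2 : (h i + F i m).Prime <;> simp [h1, h2]
  rw [sum_congr rfl h1, sum_comm]
  apply sum_congr rfl; intro n _
  rw [sum_comm]
  apply sum_congr rfl; intro m _
  rw [sum_Sx_prod H (fun i u => if (u + F i m).Prime ∧ (u + F i n).Prime then (1 : ℝ) else 0)]
  apply prod_congr rfl
  intro i _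
  rw [card_filter_real]

lemma prod_le_sum_pow (hk : 1 ≤ k) (a : Fin k → ℝ) (ha : ∀ i, 0 ≤ a i) : ∏ i, a i ≤ ∑ i, a i ^ k := by
  have : Nonempty (Fin k) := ⟨⟨0, hk⟩⟩
  obtain ⟨i₀, _, hi₀⟩ := exists_max_image (univ : Finset (Fin k)) a univ_nonempty
  calc ∏ i, a i ≤ ∏ _i : Fin k, a i₀ := prod_le_prod (fun i _ => ha i) (fun i hi => hi₀ i hi)
    _ = a i₀ ^ k := by rw [prod_const, card_fin]
    _ ≤ _ := single_le_sum (f := fun i => a i ^ k) (fun i _ => pow_nonneg (ha i) k) (mem_univ i₀)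

lemma eval_strict (f : ℕ[X]) (hf : 1 ≤ f.natDegree) {m n : ℕ} (hm : 1 ≤ m) (h : m < n) : f.eval m < f.eval n := by
  have h1 := le_eval_add f m (n - m)
  rw [show m + (n - m) = n by omega] at h1
  have h2 := Gp_ge f hf m
  have h3 : 1 ≤ m ^ (f.natDegree - 1) := Nat.one_le_pow _ _ hm
  have h4 : 1 * 1 ≤ (n - m) * Gp f m := Nat.mul_le_mul (by omega) (h3.trans h2)
  omega

/-- moments of the product of the arithmetic factors -/
theorem rat_prod_moment (hk : 1 ≤ k) (f : Fin k → ℕ[X]) (hf : ∀ i, 1 ≤ (f i).natDegree) (A : ℕ) :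
    ∃ C : ℝ, 0 < C ∧ ∀ x : ℕ, 1 ≤ x → ∑ m ∈ Icc 1 x, ∑ n ∈ (Icc 1 x).filter (fun n => m < n),
      ∏ i, rat ((f i).eval n - (f i).eval m) ^ A ≤ C * (x : ℝ) ^ 2 := by
  have h1 := fun i => rat_poly (f i) (hf i) (A * k)
  choose C hC hrat using h1
  have : Nonempty (Fin k) := ⟨⟨0, hk⟩⟩
  refine ⟨∑ i, C i, sum_pos (fun i _ => hC i) univ_nonempty, fun x hx => ?_⟩
  calc ∑ m ∈ Icc 1 x, ∑ n ∈ (Icc 1 x).filter (fun n => m < n), ∏ i, rat ((f i).eval n - (f i).eval m) ^ A
      ≤ ∑ m ∈ Icc 1 x, ∑ n ∈ (Icc 1 x).filter (fun n => m < n), ∑ i, rat ((f i).eval n - (f i).eval m) ^ (A * k) := by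
        apply sum_le_sum; intro m _
        apply sum_le_sum; intro n _
        refine (prod_le_sum_pow hk _ (fun i => pow_nonneg (rat_nonneg _) _)).trans (le_of_eq ?_)
        apply sum_congr rfl; intro i _
        rw [← pow_mul]
    _ = ∑ m ∈ Icc 1 x, ∑ i, ∑ n ∈ (Icc 1 x).filter (fun n => m < n), rat ((f i).eval n - (f i).eval m) ^ (A * k) := by
        apply sum_congr rfl; intro m _
        rw [sum_comm]
    _ ≤ ∑ m ∈ Icc 1 x, ∑ i, C i * x := by
        apply sum_le_sum; intro m hm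
        apply sum_le_sum; intro i _
        refine le_trans ?_ (hrat i x m hx)
        apply sum_le_sum_of_subset_of_nonneg
        · intro n hn
          rw [mem_filter] at hn ⊢
          exact ⟨hn.1, eval_strict (f i) (hf i) (mem_Icc.1 hm).1 hn.2⟩
        · intro n _ _; exact pow_nonneg (rat_nonneg _) _
    _ = _ := by
        rw [sum_const, Nat.card_Icc, Nat.add_sub_cancel, nsmul_eq_mul, ← sum_mul]; ring

/-- second moment for shift families -/
theorem secondS (hk : 1 ≤ k) (f : Fin k → ℕ[X]) (hf : ∀ i, 1 ≤ (f i).natDegree) :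
    ∃ C : ℝ, 0 < C ∧ ∃ x₀ : ℕ, ∀ x : ℕ, x₀ ≤ x → ∀ H : Fin k → ℕ, (∀ i, x ≤ H i) →
      ∑ h ∈ Sx H, (cntS (fun i n => (f i).eval n) h x : ℝ) ^ 2 ≤ C * ((x : ℝ) ^ 2 / (Real.log x) ^ (2 * k) * #(Sx H)) := by
  obtain ⟨C₁, hC₁, A, H₁, hpair⟩ := pair_window
  obtain ⟨C₂, hC₂, H₂, hsing⟩ := single_window
  obtain ⟨C₃, hC₃, hmom⟩ := rat_prod_moment hk f hf A
  have hlogt : Filter.Tendsto (fun x : ℕ => Real.log (x : ℝ)) Filter.atTop Filter.atTop :=
    Real.tendsto_log_atTop.comp tendsto_natCast_atTop_atTop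
  obtain ⟨x₁, hx₁⟩ := Filter.eventually_atTop.1 (hlogt.eventually_ge_atTop 1)
  have hlogpow : ∀ᶠ x : ℕ in Filter.atTop, (Real.log (x : ℝ)) ^ k ≤ x := by
    have h1 : (fun x : ℝ => (Real.log x) ^ k) =o[Filter.atTop] (fun x : ℝ => x) := by
      exact Real.isLittleO_pow_log_id_atTop (n := k)
    have h2 := (h1.bound (show (0 : ℝ) < 1 by norm_num))
    have h3 := tendsto_natCast_atTop_atTop (R := ℝ) |>.eventually h2
    filter_upwards [h3, Filter.eventually_ge_atTop 1] with x hx hx1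
    have hlog0 : 0 ≤ Real.log (x : ℝ) := Real.log_nonneg (by exact_mod_cast hx1)
    rw [one_mul, Real.norm_of_nonneg (by positivity), Real.norm_of_nonneg (by positivity)] at hx
    exact hx
  obtain ⟨x₂, hx₂⟩ := Filter.eventually_atTop.1 hlogpow
  refine ⟨2 * (C₁ ^ k * C₃) + C₂ ^ k, by positivity, x₁ + x₂ + H₁ + H₂ + 2, fun x hx H hH => ?_⟩
  set N : ℝ := (#(Sx H) : ℝ) with hN
  have hN0 : 0 ≤ N := Nat.cast_nonneg _
  have hlog1 : 1 ≤ Real.log x := hx₁ x (by omega)
  have hlogk : (Real.log x) ^ k ≤ x := hx₂ x (by omega)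
  have hx0 : (0 : ℝ) < x := by exact_mod_cast (by omega : 0 < x)
  have hlogH : ∀ i, Real.log x ≤ Real.log (H i) := fun i =>
    Real.log_le_log hx0 (by exact_mod_cast hH i)
  set L := Real.log x with hL
  have hL0 : 0 < L := by linarith
  set W : ℕ → ℕ → ℝ := fun n m => ∏ i, (#{u ∈ Icc 1 (H i) | (u + (f i).eval m).Prime ∧ (u + (f i).eval n).Prime} : ℝ) with hW
  have hWsymm : ∀ n m, W n m = W m n := by
    intro n m
    simp only [hW]
    apply prod_congr rfl
    intro i _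
    congr 2
    ext u
    simp only [mem_filter]
    tauto
  have hdiag : ∀ n, W n n ≤ C₂ ^ k / L ^ k * N := by
    intro n
    simp only [hW]
    rw [hN, card_Sx]
    have : C₂ ^ k / L ^ k * ∏ i, (H i : ℝ) = ∏ i : Fin k, (C₂ / L * (H i : ℝ)) := by
      rw [prod_mul_distrib, prod_const, card_fin, div_pow]
    rw [this]
    apply prod_le_prod
    · intro i _; exact Nat.cast_nonneg _
    · intro i _
      simp only [and_self]
      refine (hsing (H i) (by have := hH i; omega) ((f i).eval n)).trans ?_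
      have hLi := hlogH i
      rw [div_mul_eq_mul_div]
      exact div_le_div_of_nonneg_left (by positivity) hL0 hLi
  have hoff : ∀ m n, 1 ≤ m → m < n → W n m ≤ C₁ ^ k / L ^ (2 * k) * N * ∏ i, rat ((f i).eval n - (f i).eval m) ^ A := by
    intro m n hm hmn
    simp only [hW]
    rw [hN, card_Sx]
    have : C₁ ^ k / L ^ (2 * k) * (∏ i, (H i : ℝ)) * ∏ i, rat ((f i).eval n - (f i).eval m) ^ A =
        ∏ i : Fin k, (C₁ / L ^ 2 * (H i : ℝ) * rat ((f i).eval n - (f i).eval m) ^ A) := by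
      rw [prod_mul_distrib, prod_mul_distrib, prod_const, card_fin, div_pow, ← pow_mul]
    rw [this]
    apply prod_le_prod
    · intro i _; exact Nat.cast_nonneg _
    · intro i _
      refine (hpair (H i) (by have := hH i; omega) _ _ (eval_strict (f i) (hf i) hm hmn)).trans ?_
      apply mul_le_mul_of_nonneg_right _ (pow_nonneg (rat_nonneg _) _)
      rw [div_mul_eq_mul_div]
      apply div_le_div_of_nonneg_left (by positivity) (by positivity)
      exact pow_le_pow_left₀ hL0.le (hlogH i) 2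
  rw [sum_cntS_sq]
  have hsplit : ∑ n ∈ Icc 1 x, ∑ m ∈ Icc 1 x, W n m ≤
      2 * ∑ m ∈ Icc 1 x, ∑ n ∈ (Icc 1 x).filter (fun n => m < n), W n m + ∑ n ∈ Icc 1 x, W n n := by
    have h1 : ∀ n ∈ Icc 1 x, ∑ m ∈ Icc 1 x, W n m =
        ∑ m ∈ (Icc 1 x).filter (fun m => m < n), W n m + ∑ m ∈ (Icc 1 x).filter (fun m => n < m), W n m + W n n := by
      intro n hn
      have e1 : Icc 1 x = (Icc 1 x).filter (fun m => m < n) ∪ ((Icc 1 x).filter (fun m => n < m) ∪ {n}) := by
        ext m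
        simp only [mem_union, mem_filter, mem_singleton]
        constructor
        · intro hm
          rcases lt_trichotomy m n with h | h | h
          · exact Or.inl ⟨hm, h⟩
          · exact Or.inr (Or.inr h)
          · exact Or.inr (Or.inl ⟨hm, h⟩)
        · rintro (h | h | h)
          · exact h.1
          · exact h.1
          · rw [h]; exact hn
      have d1 : Disjoint ((Icc 1 x).filter (fun m => m < n)) ((Icc 1 x).filter (fun m => n < m) ∪ {n}) := by
        rw [disjoint_left]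
        intro m hm hm'
        simp only [mem_union, mem_filter, mem_singleton] at hm hm'
        rcases hm' with h | h <;> omega
      have d2 : Disjoint ((Icc 1 x).filter (fun m => n < m)) ({n} : Finset ℕ) := by
        rw [disjoint_singleton_right, mem_filter]
        exact fun h => lt_irrefl _ h.2
      conv_lhs => rw [e1]
      rw [sum_union d1, sum_union d2, sum_singleton]
      ring
    rw [sum_congr rfl h1, sum_add_distrib, sum_add_distrib]
    have h2 : ∑ n ∈ Icc 1 x, ∑ m ∈ (Icc 1 x).filter (fun m => m < n), W n m =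
        ∑ m ∈ Icc 1 x, ∑ n ∈ (Icc 1 x).filter (fun n => m < n), W n m := by
      apply sum_comm'
      intro n m
      simp only [mem_filter]
      tauto
    have h3 : ∑ n ∈ Icc 1 x, ∑ m ∈ (Icc 1 x).filter (fun m => n < m), W n m =
        ∑ m ∈ Icc 1 x, ∑ n ∈ (Icc 1 x).filter (fun n => m < n), W n m := by
      apply sum_congr rfl; intro n _
      apply sum_congr rfl; intro m _
      exact hWsymm n m
    rw [h2, h3]
    linarith
  refine hsplit.trans ?_
  have hA : ∑ m ∈ Icc 1 x, ∑ n ∈ (Icc 1 x).filter (fun n => m < n), W n m ≤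
      C₁ ^ k / L ^ (2 * k) * N * (C₃ * (x : ℝ) ^ 2) := by
    calc _ ≤ ∑ m ∈ Icc 1 x, ∑ n ∈ (Icc 1 x).filter (fun n => m < n),
          C₁ ^ k / L ^ (2 * k) * N * ∏ i, rat ((f i).eval n - (f i).eval m) ^ A := by
          apply sum_le_sum; intro m hm
          apply sum_le_sum; intro n hn
          exact hoff m n (mem_Icc.1 hm).1 (mem_filter.1 hn).2
      _ = C₁ ^ k / L ^ (2 * k) * N * ∑ m ∈ Icc 1 x, ∑ n ∈ (Icc 1 x).filter (fun n => m < n),
          ∏ i, rat ((f i).eval n - (f i).eval m) ^ A := by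
          rw [mul_sum]
          apply sum_congr rfl; intro m _
          rw [mul_sum]
      _ ≤ _ := mul_le_mul_of_nonneg_left (hmom x (by omega)) (by positivity)
  have hB : ∑ n ∈ Icc 1 x, W n n ≤ x * (C₂ ^ k / L ^ k * N) := by
    calc _ ≤ ∑ _n ∈ Icc 1 x, C₂ ^ k / L ^ k * N := sum_le_sum fun n _ => hdiag n
      _ = _ := by rw [sum_const, Nat.card_Icc, Nat.add_sub_cancel, nsmul_eq_mul]
  have hB2 : x * (C₂ ^ k / L ^ k * N) ≤ C₂ ^ k * ((x : ℝ) ^ 2 / L ^ (2 * k) * N) := by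
    have h1 : (x : ℝ) / L ^ k ≤ (x : ℝ) ^ 2 / L ^ (2 * k) := by
      rw [div_le_div_iff₀ (by positivity) (by positivity)]
      have h2 : L ^ (2 * k) = L ^ k * L ^ k := by rw [two_mul, pow_add]
      rw [h2]
      have h3 : (x : ℝ) * (L ^ k * L ^ k) ≤ x * (x * L ^ k) := by
        apply mul_le_mul_of_nonneg_left _ hx0.le
        exact mul_le_mul_of_nonneg_right hlogk (by positivity)
      linarith
    calc x * (C₂ ^ k / L ^ k * N) = C₂ ^ k * (x / L ^ k * N) := by ring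
      _ ≤ _ := by
          apply mul_le_mul_of_nonneg_left _ (by positivity)
          exact mul_le_mul_of_nonneg_right h1 hN0
  calc _ ≤ 2 * (C₁ ^ k / L ^ (2 * k) * N * (C₃ * (x : ℝ) ^ 2)) + C₂ ^ k * ((x : ℝ) ^ 2 / L ^ (2 * k) * N) :=
        add_le_add (mul_le_mul_of_nonneg_left hA (by norm_num)) (hB.trans hB2)
    _ = _ := by ring

end Pool.Agent.H373R2.SH
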