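import Mathlib
import Pool.Agent.H373R2.SH.Second
import Pool.Agent.H373R2.BH.Poly

namespace Pool.Agent.H373R2.SH
open Finset Polynomial
open Pool.Agent.H373R2.BH (BHFamily omegaP eulerProduct primeCount card_filter_real BHFamily_of_many)

/-- a translate of an integer polynomial with positive leading coefficient has natural coefficients -/
lemma exists_nat_poly (f : ℤ[X]) (hl : 0 < f.leadingCoeff) :
    ∃ N₀ : ℕ, ∀ N : ℕ, N₀ ≤ N → ∃ g : ℕ[X], g.natDegree = f.natDegree ∧ ∀ m : ℕ, ((g.eval m : ℕ) : ℤ) = f.eval ((m : ℤ) + N) := by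
  classical
  set d := f.natDegree with hd
  have hev : ∀ i ∈ range (d + 1), ∀ᶠ N : ℕ in Filter.atTop, 0 ≤ (taylor (N : ℤ) f).coeff i := by
    intro i hi
    rw [mem_range] at hi
    rcases Nat.lt_or_ge i d with hid | hid
    · set P : ℝ[X] := (hasseDeriv i f).map (Int.castRingHom ℝ) with hP
      have hinj : Function.Injective (Int.castRingHom ℝ) := Int.cast_injective
      have hdeg : (hasseDeriv i f).natDegree = d - i := by
        rw [natDegree_hasseDeriv]
      have hlc : (hasseDeriv i f).leadingCoeff = (d.choose i : ℤ) * f.leadingCoeff := by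
        unfold leadingCoeff
        rw [hdeg, hasseDeriv_coeff, Nat.sub_add_cancel hid.le]
      have hlcpos : 0 < (hasseDeriv i f).leadingCoeff := by
        rw [hlc]
        have : 0 < d.choose i := Nat.choose_pos hid.le
        positivity
      have hPdeg : 0 < P.degree := by
        rw [← natDegree_pos_iff_degree_pos, hP, natDegree_map_eq_of_injective hinj, hdeg]
        omega
      have hPl : 0 ≤ P.leadingCoeff := by
        rw [hP, leadingCoeff_map_of_injective hinj]
        simp only [eq_intCast]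
        exact_mod_cast hlcpos.le
      have ht := (P.tendsto_atTop_of_leadingCoeff_nonneg hPdeg hPl).comp (tendsto_natCast_atTop_atTop (R := ℝ))
      filter_upwards [ht.eventually_ge_atTop 0] with N hN
      rw [taylor_coeff]
      simp only [Function.comp_apply] at hN
      have h1 : P.eval (N : ℝ) = (((hasseDeriv i f).eval (N : ℤ) : ℤ) : ℝ) := by
        rw [hP]
        have h2 : ((N : ℤ) : ℝ) = (N : ℝ) := by push_cast; rfl
        rw [← h2]
        exact eval_intCast_map _ _ _
      rw [h1] at hN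
      exact_mod_cast hN
    · have : i = d := by omega
      subst this
      apply Filter.Eventually.of_forall
      intro N
      rw [coeff_taylor_natDegree]
      exact hl.le
  have hall : ∀ᶠ N : ℕ in Filter.atTop, ∀ i ∈ range (d + 1), 0 ≤ (taylor (N : ℤ) f).coeff i :=
    (Filter.eventually_all_finset _).2 hev
  obtain ⟨N₀, hN₀⟩ := Filter.eventually_atTop.1 hall
  refine ⟨N₀, fun N hN => ?_⟩
  have hc := hN₀ N hN
  set g : ℕ[X] := ∑ i ∈ range (d + 1), C (((taylor (N : ℤ) f).coeff i).toNat) * X ^ i with hg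
  have hgcoeff : ∀ i, g.coeff i = if i < d + 1 then ((taylor (N : ℤ) f).coeff i).toNat else 0 := by
    intro i
    rw [hg, finsetSum_coeff]
    simp only [coeff_C_mul, coeff_X_pow]
    split_ifs with h
    · rw [sum_eq_single i]
      · simp
      · intro j _ hj
        rw [if_neg (Ne.symm hj), mul_zero]
      · intro h2; exact absurd (mem_range.2 h) h2
    · apply sum_eq_zero
      intro j hj
      rw [mem_range] at hj
      rw [if_neg (by omega), mul_zero]
  refine ⟨g, ?_, fun m => ?_⟩
  · apply le_antisymm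
    · rw [natDegree_le_iff_coeff_eq_zero]
      intro i hi
      rw [hgcoeff, if_neg (by omega)]
    · apply le_natDegree_of_ne_zero
      rw [hgcoeff, if_pos (by omega), hd, coeff_taylor_natDegree]
      omega
  · rw [← taylor_eval]
    have h1 : (taylor (N : ℤ) f).eval (m : ℤ) = ∑ i ∈ range (d + 1), (taylor (N : ℤ) f).coeff i * (m : ℤ) ^ i :=
      eval_eq_sum_range' (by rw [natDegree_taylor]; omega) _
    rw [h1, hg, eval_finsetSum]
    push_cast
    apply sum_congr rfl
    intro i hi
    rw [eval_mul, eval_C, eval_pow, eval_X]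
    push_cast
    rw [Int.toNat_of_nonneg (hc i hi)]

variable {k : ℕ}

lemma omegaP_shift (f : Fin k → ℤ[X]) (g : Fin k → ℕ[X]) (N : ℕ)
    (hg : ∀ i, ∀ m : ℕ, (((g i).eval m : ℕ) : ℤ) = (f i).eval ((m : ℤ) + N)) (h : Fin k → ℕ) (p : ℕ) :
    omegaP (fun i => f i + C (h i : ℤ)) p = omS (fun i n => (g i).eval n) h p := by
  classical
  unfold omegaP omS
  set Q : ℕ → Prop := fun r => ∃ i, (p : ℤ) ∣ (f i + C (h i : ℤ)).eval (r : ℤ) with hQ
  have hper : Function.Periodic Q p := by
    intro r
    apply propext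
    apply exists_congr
    intro i
    have h1 : (p : ℤ) ∣ (f i + C (h i : ℤ)).eval ((r + p : ℕ) : ℤ) - (f i + C (h i : ℤ)).eval (r : ℤ) := by
      have h2 := sub_dvd_eval_sub ((r + p : ℕ) : ℤ) (r : ℤ) (f i + C (h i : ℤ))
      have h3 : ((r + p : ℕ) : ℤ) - (r : ℤ) = p := by push_cast; ring
      rwa [h3] at h2
    constructor
    · intro h4
      have := dvd_sub h4 h1
      rwa [sub_sub_cancel] at this
    · intro h4
      have := dvd_add h1 h4
      rwa [sub_add_cancel] at this
  have h1 : #((range p).filter Q) = #((Ico N (N + p)).filter Q) := by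
    rw [Nat.filter_Ico_card_eq_of_periodic N p Q hper, range_eq_Ico]
    have := Nat.filter_Ico_card_eq_of_periodic 0 p Q hper
    rw [zero_add] at this
    exact this
  have h2 : #((Ico N (N + p)).filter Q) = #((range p).filter (fun r => ∃ i, p ∣ h i + (g i).eval r)) := by
    symm
    apply card_bij (fun r _ => r + N)
    · intro r hr
      rw [mem_filter, mem_range] at hr
      rw [mem_filter, mem_Ico]
      refine ⟨⟨by omega, by omega⟩, ?_⟩
      obtain ⟨i, hi⟩ := hr.2
      refine ⟨i, ?_⟩
      rw [eval_add, eval_C]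
      push_cast
      rw [← hg i r, add_comm]
      exact_mod_cast hi
    · intro a _ b _ hab
      exact Nat.add_right_cancel hab
    · intro s hs
      rw [mem_filter, mem_Ico] at hs
      refine ⟨s - N, ?_, by omega⟩
      rw [mem_filter, mem_range]
      refine ⟨by omega, ?_⟩
      obtain ⟨i, hi⟩ := hs.2
      refine ⟨i, ?_⟩
      rw [eval_add, eval_C] at hi
      have h3 : (s : ℤ) = ((s - N : ℕ) : ℤ) + N := by
        rw [Nat.cast_sub hs.1.1]; ring
      rw [h3, ← hg i (s - N), add_comm] at hi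
      exact_mod_cast hi
  rw [h1, h2]

lemma eulerProduct_shift (f : Fin k → ℤ[X]) (g : Fin k → ℕ[X]) (N : ℕ)
    (hg : ∀ i, ∀ m : ℕ, (((g i).eval m : ℕ) : ℤ) = (f i).eval ((m : ℤ) + N)) (h : Fin k → ℕ) (z : ℕ) :
    eulerProduct (fun i => f i + C (h i : ℤ)) z = sgS (fun i n => (g i).eval n) h z := by
  unfold eulerProduct sgS
  apply prod_congr rfl
  intro p _
  unfold ufS dnS
  rw [omegaP_shift f g N hg]

lemma primeCount_shift (f : Fin k → ℤ[X]) (g : Fin k → ℕ[X]) (N : ℕ)
    (hg : ∀ i, ∀ m : ℕ, (((g i).eval m : ℕ) : ℤ) = (f i).eval ((m : ℤ) + N)) (h : Fin k → ℕ) (x : ℕ) (hx : N ≤ x) :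
    cntS (fun i n => (g i).eval n) h (x - N) ≤ primeCount (fun i => f i + C (h i : ℤ)) x := by
  classical
  unfold cntS primeCount
  apply card_le_card_of_injOn (fun n => n + N)
  · intro n hn
    rw [mem_coe, mem_filter, mem_Icc] at hn
    rw [mem_coe, mem_filter, mem_Icc]
    beta_reduce
    refine ⟨⟨by omega, by omega⟩, fun i => ?_⟩
    have h1 := hn.2 i
    rw [eval_add, eval_C]
    have h2 : (((n + N : ℕ) : ℤ)) = (n : ℤ) + N := by push_cast; ring
    rw [h2, ← hg i n, ← Nat.cast_add, Int.toNat_natCast, add_comm]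
    exact h1
  · intro a _ b _ hab
    exact Nat.add_right_cancel hab

lemma primeCount_shift_le (f : Fin k → ℤ[X]) (g : Fin k → ℕ[X]) (N : ℕ)
    (hg : ∀ i, ∀ m : ℕ, (((g i).eval m : ℕ) : ℤ) = (f i).eval ((m : ℤ) + N)) (h : Fin k → ℕ) (x : ℕ) :
    primeCount (fun i => f i + C (h i : ℤ)) x ≤ cntS (fun i n => (g i).eval n) h x + N := by
  classical
  unfold cntS primeCount
  have h1 : (Icc 1 x).filter (fun n : ℕ => ∀ i, Nat.Prime (((f i + C (h i : ℤ)).eval (n : ℤ)).toNat)) ⊆
      (((Icc 1 x).filter (fun n => ∀ i, (h i + (g i).eval n).Prime)).image (fun n => n + N)) ∪ Icc 1 N := by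
    intro n hn
    rw [mem_filter, mem_Icc] at hn
    rw [mem_union]
    by_cases hnN : n ≤ N
    · exact Or.inr (mem_Icc.2 ⟨hn.1.1, hnN⟩)
    · left
      rw [mem_image]
      refine ⟨n - N, ?_, by omega⟩
      rw [mem_filter, mem_Icc]
      refine ⟨⟨by omega, by omega⟩, fun i => ?_⟩
      have h2 := hn.2 i
      have h3 : (n : ℤ) = ((n - N : ℕ) : ℤ) + N := by
        rw [Nat.cast_sub (by omega)]; ring
      rw [eval_add, eval_C, h3, ← hg i (n - N), ← Nat.cast_add, Int.toNat_natCast, add_comm] at h2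
      exact h2
  calc _ ≤ _ := card_le_card h1
    _ ≤ _ := card_union_le _ _
    _ ≤ _ := by
        apply Nat.add_le_add card_image_le
        rw [Nat.card_Icc]; omega

end Pool.Agent.H373R2.SH
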