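import Mathlib
import Pool.Agent.H373R2.SH.Incr
import Pool.Agent.H373R2.SH.PntB

namespace Pool.Agent.H373R2.SH
open Finset Polynomial
open Pool.Agent.H373R2.BH (LD)

lemma card_shift (H c : ℕ) : (#{u ∈ Icc 1 H | (u + c).Prime} : ℝ) = (Nat.primeCounting (H + c) : ℝ) - Nat.primeCounting c := by
  have := Pool.Agent.H386R2.HL.card_shift_prime H c
  have h2 : ((#{n ∈ Icc 1 H | (n + c).Prime} : ℕ) : ℝ) + (Nat.primeCounting c : ℝ) = (Nat.primeCounting (H + c) : ℝ) := by
    exact_mod_cast this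
  linarith

lemma window_split (P : ℕ → ℝ) (H' J c : ℕ) :
    P (J * H' + c) - P c = ∑ j ∈ range J, (P ((j + 1) * H' + c) - P (j * H' + c)) := by
  rw [sum_range_sub (fun j => P (j * H' + c))]
  simp

theorem firstT (f : ℕ[X]) (hf : 1 ≤ f.natDegree) (ε : ℝ) (hε : 0 < ε) : ∃ K x₀ : ℕ, 1 ≤ K ∧ ∀ x : ℕ, x₀ ≤ x →
    ∀ H : ℕ, K * x ^ (f.natDegree - 1) ≤ H → H ≤ x ^ f.natDegree →
    (1 - ε) * (x * H / (f.natDegree * Real.log x)) ≤ ∑ n ∈ Icc 1 x, (#{u ∈ Icc 1 H | (u + f.eval n).Prime} : ℝ) := by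
  set d := f.natDegree with hd
  have hf0 : f ≠ 0 := by rintro rfl; simp [hd] at hf
  set f1 := f.eval 1 with hf1
  have hf1pos : 1 ≤ f1 := by
    have := Gp_ge f hf 0
    have h1 : f.eval 1 = f.eval 0 + Gp f 0 := Gp_succ f 0
    have h2 : 1 ≤ f.coeff d := Nat.pos_of_ne_zero (leadingCoeff_ne_zero.2 hf0)
    rw [hf1, eval_eq_sum_range]
    calc 1 ≤ f.coeff d * 1 ^ d := by simpa using h2
      _ ≤ _ := single_le_sum (f := fun j => f.coeff j * 1 ^ j) (fun _ _ => Nat.zero_le _) (mem_range.2 (by omega))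
  have hd1 : (1 : ℝ) ≤ d := by exact_mod_cast hf
  -- parameter M
  obtain ⟨M₀, hM₀⟩ := exists_nat_gt ((7 + 2 * (d : ℝ)) / ε)
  set M := M₀ + 2 ^ d + 2 * d + 7 with hM
  have h2dpos : 0 < 2 ^ d := by positivity
  have hM2d : 2 ^ d ≤ M := by omega
  have hM7 : 7 ≤ M := by omega
  have hM2d' : 2 * d ≤ M := by omega
  have hMr : (7 : ℝ) ≤ M := by exact_mod_cast hM7
  have hM0 : (0 : ℝ) < M := by linarith
  have hMε : (7 + 2 * (d : ℝ)) / M ≤ ε := by
    rw [div_le_iff₀ hM0]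
    rw [div_lt_iff₀ hε] at hM₀
    have : (M₀ : ℝ) ≤ M := by exact_mod_cast (by omega : M₀ ≤ M)
    nlinarith
  set J := M ^ (d + 3) with hJ
  have hJ1 : 1 ≤ J := Nat.one_le_pow _ _ (by omega)
  set Bc := (1 + f1) * 2 ^ (d + 1) * M ^ (d + 1) with hBc
  have hBc1 : 1 ≤ Bc := by
    rw [hBc]
    have h1 : 0 < 2 ^ (d + 1) := by positivity
    have h2 : 0 < M ^ (d + 1) := by positivity
    have : 0 < (1 + f1) * 2 ^ (d + 1) * M ^ (d + 1) := by positivity
    omega
  obtain ⟨x₁, hpnt⟩ := pnt_windowB Bc hBc1 (1 / M) (by positivity)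
  set K := J * (M * 2 ^ (2 * d) * f1 + 1) with hK
  -- log condition
  have hlogt : Filter.Tendsto (fun x : ℕ => Real.log (x : ℝ)) Filter.atTop Filter.atTop :=
    Real.tendsto_log_atTop.comp tendsto_natCast_atTop_atTop
  obtain ⟨x₂, hx₂⟩ := Filter.eventually_atTop.1 (hlogt.eventually_ge_atTop (M * Real.log f1 + 1))
  refine ⟨K, x₂ + M ^ 3 + 4 * M ^ 2 * (x₁ + 2) + M * J, ?_, fun x hx H hKH hHx => ?_⟩
  · rw [hK]; exact Nat.one_le_iff_ne_zero.2 (by positivity)
  have hMsq : 0 < M ^ 2 := by positivity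
  have hxM3 : M ^ 3 ≤ x := by omega
  have hx1 : 1 ≤ x := le_trans (Nat.one_le_pow _ _ (by omega)) hxM3
  have hxr : (1 : ℝ) ≤ x := by exact_mod_cast hx1
  have hx0 : (0 : ℝ) < x := by linarith
  have hlogx := hx₂ x (by omega)
  have hlogf1 : 0 ≤ Real.log (f1 : ℝ) := Real.log_nonneg (by exact_mod_cast hf1pos)
  have hlogx0 : 0 < Real.log x := by
    have : 0 ≤ M * Real.log (f1 : ℝ) := by positivity
    linarith
  set L := x / M ^ 2 with hL
  have hL4 : 2 * x₁ + 4 ≤ L := by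
    rw [hL, Nat.le_div_iff_mul_le hMsq]
    have : (2 * x₁ + 4) * M ^ 2 ≤ 4 * M ^ 2 * (x₁ + 2) := by nlinarith
    omega
  have hL1 : 1 ≤ L := by omega
  have hLx : M ^ 2 * L ≤ x := Nat.mul_div_le x (M ^ 2)
  have hxL : x < M ^ 2 * (L + 1) := Nat.lt_mul_div_succ x hMsq
  have hxL2 : x ≤ 2 * M ^ 2 * L := by nlinarith
  have hLr : (1 : ℝ) ≤ L := by exact_mod_cast hL1
  set H' := H / J with hH'
  have hH'H : J * H' ≤ H := Nat.mul_div_le H J
  have hHH' : H < J * (H' + 1) := Nat.lt_mul_div_succ H (by omega)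
  have hH'big : M * 2 ^ (2 * d) * f1 * x ^ (d - 1) ≤ H' := by
    rw [hH', Nat.le_div_iff_mul_le (by omega)]
    refine le_trans ?_ hKH
    rw [hK]
    have : M * 2 ^ (2 * d) * f1 * x ^ (d - 1) * J ≤ J * (M * 2 ^ (2 * d) * f1 + 1) * x ^ (d - 1) := by
      have : J * (M * 2 ^ (2 * d) * f1 + 1) * x ^ (d - 1) = M * 2 ^ (2 * d) * f1 * x ^ (d - 1) * J + J * x ^ (d - 1) := by ring
      omega
    exact this
  -- the main block estimate
  have hblock : ∀ i ∈ range (M ^ 2 - M), ∀ j ∈ range J,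
      (1 - 1 / (M : ℝ)) ^ 4 * (1 - 2 * d / M) * (H' * L / (d * Real.log x)) ≤
      ∑ n ∈ Ico ((M + i) * L) ((M + i) * L + L),
        ((Nat.primeCounting ((j + 1) * H' + f.eval n) : ℝ) - Nat.primeCounting (j * H' + f.eval n)) := by
    intro i hi j hj
    rw [mem_range] at hi hj
    set N := (M + i) * L with hN
    set G := Gp f (N + 2 * L) with hG
    have hML : M * L ≤ N := by rw [hN]; exact Nat.mul_le_mul_right _ (by omega)
    have hNx : N + L ≤ x := by
      calc N + L = (M + i + 1) * L := by rw [hN]; ring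
        _ ≤ M ^ 2 * L := Nat.mul_le_mul_right _ (by omega)
        _ ≤ x := hLx
    have hGge : (N + 2 * L) ^ (d - 1) ≤ G := Gp_ge f hf _
    have hGpos : 0 < G := lt_of_lt_of_le (pow_pos (by omega) _) hGge
    have hGr : (0 : ℝ) < G := by exact_mod_cast hGpos
    set r := H' / G with hr
    have hrG : r * G ≤ H' := Nat.div_mul_le_self H' G
    have hrG2 : H' < G * (r + 1) := Nat.lt_mul_div_succ H' hGpos
    -- r M ≤ L
    have hrM : r * M ≤ L := by
      have h1 : r * (M * L) ^ (d - 1) ≤ H' :=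
        le_trans (Nat.mul_le_mul_left _ ((Nat.pow_le_pow_left (by omega) _).trans hGge)) hrG
      have h2 : H' * J ≤ x ^ d := le_trans (by rw [mul_comm]; exact hH'H) hHx
      have h3 : x ^ d ≤ (2 * M ^ 2 * L) ^ d := Nat.pow_le_pow_left hxL2 d
      have h4 : (r * (M * L) ^ (d - 1)) * J ≤ (2 * M ^ 2 * L) ^ d := le_trans (Nat.mul_le_mul_right _ h1) (h2.trans h3)
      have h5 : (r * (M * L) ^ (d - 1)) * J = (r * M ^ 2) * (M ^ (2 * d) * L ^ (d - 1)) := by
        obtain ⟨d', hd'⟩ : ∃ d', d = d' + 1 := ⟨d - 1, by omega⟩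
        rw [hJ, hd', Nat.add_sub_cancel]; ring
      have h6 : (2 * M ^ 2 * L) ^ d = (2 ^ d * L) * (M ^ (2 * d) * L ^ (d - 1)) := by
        obtain ⟨d', hd'⟩ : ∃ d', d = d' + 1 := ⟨d - 1, by omega⟩
        rw [hd', Nat.add_sub_cancel]; ring
      rw [h5, h6] at h4
      have h7 : r * M ^ 2 ≤ 2 ^ d * L := Nat.le_of_mul_le_mul_right h4 (by positivity)
      have h8 : r * M ^ 2 ≤ M * L := h7.trans (Nat.mul_le_mul_right _ hM2d)
      have h9 : M * (r * M) ≤ M * L := by
        calc M * (r * M) = r * M ^ 2 := by ring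
          _ ≤ _ := h8
      exact Nat.le_of_mul_le_mul_left h9 (by omega)
    have hrL : r ≤ L := le_trans (Nat.le_mul_of_pos_right r (by omega)) hrM
    have h2r : 2 * r ≤ L := by nlinarith
    -- lengths
    set P : ℕ → ℕ := fun n => Nat.primeCounting (j * H' + f.eval n) with hP
    have hPm : Monotone P := by
      intro a b hab
      apply Nat.monotone_primeCounting
      have := (LD_eval' f).mono hab
      exact Nat.add_le_add_left this _
    have hstep : ∀ n ∈ Ico N (N + L), ((P (n + r) : ℝ) - P n) ≤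
        ((Nat.primeCounting ((j + 1) * H' + f.eval n) : ℝ) - Nat.primeCounting (j * H' + f.eval n)) := by
      intro n hn
      rw [mem_Ico] at hn
      have h1 : f.eval (n + r) ≤ f.eval n + H' := by
        calc f.eval (n + r) ≤ f.eval n + r * Gp f (n + r) := eval_add_le f n r
          _ ≤ f.eval n + r * G := by
              apply Nat.add_le_add_left
              apply Nat.mul_le_mul_left
              exact Gp_mono f (by omega)
          _ ≤ _ := by omega
      have h2 : P (n + r) ≤ Nat.primeCounting ((j + 1) * H' + f.eval n) := by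
        apply Nat.monotone_primeCounting
        have : (j + 1) * H' = j * H' + H' := by ring
        omega
      have h3 : (P (n + r) : ℝ) ≤ Nat.primeCounting ((j + 1) * H' + f.eval n) := by exact_mod_cast h2
      have h4 : (P n : ℝ) = Nat.primeCounting (j * H' + f.eval n) := rfl
      linarith
    refine le_trans ?_ ((telescope P hPm N L r hrL).trans (sum_le_sum hstep))
    set ℓ := f.eval (N + L) - f.eval (N + r) with hℓ
    have hℓ1 : (L - r) * Gp f N ≤ ℓ := by
      have h1 := le_eval_add f (N + r) (L - r)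
      rw [show N + r + (L - r) = N + L by omega] at h1
      have h2 : Gp f N ≤ Gp f (N + r) := Gp_mono f (by omega)
      have h3 : (L - r) * Gp f N ≤ (L - r) * Gp f (N + r) := Nat.mul_le_mul_left _ h2
      omega
    have hmono : f.eval (N + r) ≤ f.eval (N + L) := (LD_eval' f).mono (by omega)
    have hGN : (M * L) ^ (d - 1) ≤ Gp f N := le_trans (Nat.pow_le_pow_left hML _) (Gp_ge f hf N)
    have hGNpos : 1 ≤ Gp f N := le_trans (Nat.one_le_pow _ _ (Nat.mul_pos (by omega) hL1)) hGN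
    have hℓx₁ : x₁ ≤ ℓ := by
      calc x₁ ≤ (L - r) * 1 := by omega
        _ ≤ (L - r) * Gp f N := Nat.mul_le_mul_left _ hGNpos
        _ ≤ ℓ := hℓ1
    have hevalx : ∀ n, n ≤ x → f.eval n ≤ f1 * x ^ d := by
      intro n hn
      have h1 : f.eval n ≤ f.eval x := (LD_eval' f).mono hn
      refine h1.trans ?_
      rw [hf1, eval_eq_sum_range, eval_eq_sum_range, sum_mul]
      apply sum_le_sum
      intro m hm
      rw [mem_range] at hm
      rw [one_pow, mul_one]
      exact Nat.mul_le_mul_left _ (Nat.pow_le_pow_right hx1 (by omega))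
    have hpos : j * H' + f.eval (N + r) ≤ Bc * ℓ := by
      have h1 : j * H' ≤ x ^ d := by
        calc j * H' ≤ J * H' := Nat.mul_le_mul_right _ hj.le
          _ ≤ H := hH'H
          _ ≤ _ := hHx
      have h2 := hevalx (N + r) (by omega)
      have h3 : x ^ d ≤ (2 * M ^ 2 * L) ^ d := Nat.pow_le_pow_left hxL2 d
      have h4 : (L - r) * (M * L) ^ (d - 1) ≤ ℓ := le_trans (Nat.mul_le_mul_left _ hGN) hℓ1
      have h5 : L ≤ 2 * (L - r) := by omega
      have h6 : (2 * M ^ 2 * L) ^ d ≤ 2 ^ (d + 1) * M ^ (d + 1) * ℓ := by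
        calc (2 * M ^ 2 * L) ^ d = 2 ^ d * M ^ (d + 1) * (L * (M * L) ^ (d - 1)) := by
              obtain ⟨d', hd'⟩ : ∃ d', d = d' + 1 := ⟨d - 1, by omega⟩
              rw [hd', Nat.add_sub_cancel]; ring
          _ ≤ 2 ^ d * M ^ (d + 1) * ((2 * (L - r)) * (M * L) ^ (d - 1)) := by
              apply Nat.mul_le_mul_left
              exact Nat.mul_le_mul_right _ h5
          _ = 2 ^ (d + 1) * M ^ (d + 1) * ((L - r) * (M * L) ^ (d - 1)) := by ring
          _ ≤ _ := Nat.mul_le_mul_left _ h4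
      calc j * H' + f.eval (N + r) ≤ x ^ d + f1 * x ^ d := Nat.add_le_add h1 h2
        _ = (1 + f1) * x ^ d := by ring
        _ ≤ (1 + f1) * (2 ^ (d + 1) * M ^ (d + 1) * ℓ) := Nat.mul_le_mul_left _ (h3.trans h6)
        _ = _ := by rw [hBc]; ring
    have hw := hpnt ℓ hℓx₁ (j * H' + f.eval (N + r)) hpos
    have hsum : ℓ + (j * H' + f.eval (N + r)) = j * H' + f.eval (N + L) := by omega
    rw [hsum] at hw
    have hPdiff : (1 - 1 / (M : ℝ)) * (ℓ / Real.log ℓ) ≤ (P (N + L) : ℝ) - P (N + r) := hw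
    -- real inequalities
    have hℓpos : 2 ≤ ℓ := by
      calc 2 ≤ (L - r) * 1 := by omega
        _ ≤ (L - r) * Gp f N := Nat.mul_le_mul_left _ hGNpos
        _ ≤ ℓ := hℓ1
    have hℓr : (2 : ℝ) ≤ ℓ := by exact_mod_cast hℓpos
    have hlogℓ0 : 0 < Real.log ℓ := Real.log_pos (by linarith)
    have hlogℓ : Real.log ℓ ≤ (1 + 1 / M) * (d * Real.log x) := by
      have h1 : ℓ ≤ f1 * x ^ d := le_trans (Nat.sub_le _ _) (hevalx _ hNx)
      have h2 : (ℓ : ℝ) ≤ f1 * (x : ℝ) ^ d := by exact_mod_cast h1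
      have hf1r : (0 : ℝ) < f1 := by exact_mod_cast hf1pos
      calc Real.log ℓ ≤ Real.log (f1 * (x : ℝ) ^ d) := Real.log_le_log (by linarith) h2
        _ = Real.log f1 + d * Real.log x := by
            rw [Real.log_mul hf1r.ne' (by positivity), Real.log_pow]
        _ ≤ _ := by
            have h3 : Real.log f1 ≤ (1 / M) * Real.log x := by
              rw [one_div, ← div_eq_inv_mul, le_div_iff₀ hM0]
              linarith
            have h4 : (1 / (M : ℝ)) * Real.log x ≤ (1 / M) * (d * Real.log x) := by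
              apply mul_le_mul_of_nonneg_left _ (by positivity)
              exact le_mul_of_one_le_left hlogx0.le hd1
            linarith
    have hrlow : (1 - 1 / (M : ℝ)) * (H' / G) ≤ r := by
      have h1 : M * G ≤ H' := by
        have h2 : G ≤ 2 ^ d * f1 * (N + 2 * L) ^ (d - 1) := Gp_le f _ (by omega)
        have h3 : N + 2 * L ≤ 2 * x := by omega
        have h4 : (N + 2 * L) ^ (d - 1) ≤ 2 ^ d * x ^ (d - 1) := by
          calc (N + 2 * L) ^ (d - 1) ≤ (2 * x) ^ (d - 1) := Nat.pow_le_pow_left h3 _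
            _ = 2 ^ (d - 1) * x ^ (d - 1) := by rw [mul_pow]
            _ ≤ _ := Nat.mul_le_mul_right _ (Nat.pow_le_pow_right (by norm_num) (by omega))
        calc M * G ≤ M * (2 ^ d * f1 * (2 ^ d * x ^ (d - 1))) :=
              Nat.mul_le_mul_left _ (h2.trans (Nat.mul_le_mul_left _ h4))
          _ = M * 2 ^ (2 * d) * f1 * x ^ (d - 1) := by ring
          _ ≤ H' := hH'big
      have h2 : (M : ℝ) * G ≤ H' := by exact_mod_cast h1
      have h3 : (H' : ℝ) < G * (r + 1) := by exact_mod_cast hrG2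
      have h4 : (H' : ℝ) / G < r + 1 := by rw [div_lt_iff₀ hGr]; linarith
      have h5 : (M : ℝ) ≤ H' / G := by rw [le_div_iff₀ hGr]; exact h2
      have h6 : (1 : ℝ) ≤ (1 / M) * (H' / G) := by
        rw [one_div, ← div_eq_inv_mul, le_div_iff₀ hM0, one_mul]; exact h5
      linarith
    have hℓlow : (1 - 1 / (M : ℝ)) * (L * Gp f N) ≤ ℓ := by
      have h1 : ((L - r : ℕ) : ℝ) * (Gp f N : ℝ) ≤ ℓ := by exact_mod_cast hℓ1
      rw [Nat.cast_sub hrL] at h1
      have h2 : (r : ℝ) ≤ (1 / M) * L := by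
        rw [one_div, ← div_eq_inv_mul, le_div_iff₀ hM0]
        exact_mod_cast hrM
      have h3 : (1 - 1 / (M : ℝ)) * L ≤ L - r := by linarith
      calc (1 - 1 / (M : ℝ)) * (L * Gp f N) = ((1 - 1 / (M : ℝ)) * L) * Gp f N := by ring
        _ ≤ (L - r) * Gp f N := mul_le_mul_of_nonneg_right h3 (Nat.cast_nonneg _)
        _ ≤ _ := h1
    have hGratio : (1 - 2 * d / (M : ℝ)) * G ≤ Gp f N := by
      have h1 := Gp_scale f M N (N + 2 * L) (by nlinarith)
      have h2 : (M : ℝ) ^ (d - 1) * G ≤ ((M : ℝ) + 2) ^ (d - 1) * Gp f N := by exact_mod_cast h1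
      have h3 : 1 - 2 * d / (M : ℝ) ≤ ((M : ℝ) / (M + 2)) ^ (d - 1) := by
        have h4 : 1 - 2 / (M : ℝ) ≤ (M : ℝ) / (M + 2) := by
          rw [sub_le_iff_le_add, ← sub_le_iff_le_add']
          have : 1 - (M : ℝ) / (M + 2) = 2 / (M + 2) := by field_simp; ring
          rw [this]
          exact div_le_div_of_nonneg_left (by norm_num) hM0 (by linarith)
        have h5 : 0 ≤ 1 - 2 / (M : ℝ) := by
          rw [sub_nonneg, div_le_one hM0]; linarith
        have h6 : -2 ≤ -(2 / (M : ℝ)) := by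
          rw [neg_le_neg_iff, div_le_iff₀ hM0]; linarith
        have h7 := one_add_mul_le_pow h6 (d - 1)
        have h8 : ((d - 1 : ℕ) : ℝ) = d - 1 := by rw [Nat.cast_sub hf]; norm_num
        rw [h8] at h7
        have h9 : 1 + -(2 / (M : ℝ)) = 1 - 2 / M := by ring
        rw [h9] at h7
        refine le_trans ?_ (h7.trans (pow_le_pow_left₀ h5 h4 _))
        have h10 : (0 : ℝ) ≤ 2 / M := by positivity
        have h11 : 2 * (d : ℝ) / M = d * (2 / M) := by ring
        rw [h11]; linarith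
      have h4 : ((M : ℝ) / (M + 2)) ^ (d - 1) * G ≤ Gp f N := by
        rw [div_pow, div_mul_eq_mul_div, div_le_iff₀ (by positivity)]
        linarith
      exact le_trans (mul_le_mul_of_nonneg_right h3 hGr.le) h4
    have hc1 : 0 ≤ 1 - 1 / (M : ℝ) := by
      rw [sub_nonneg, div_le_one hM0]; linarith
    have hc2 : 0 ≤ 1 - 2 * (d : ℝ) / M := by
      rw [sub_nonneg, div_le_one hM0]; exact_mod_cast hM2d'
    have hprod : (1 - 1 / (M : ℝ)) ^ 2 * (1 - 2 * d / M) * (H' * L) ≤ r * ℓ := by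
      calc (1 - 1 / (M : ℝ)) ^ 2 * (1 - 2 * d / M) * (H' * L) =
            ((1 - 1 / (M : ℝ)) * (H' / G)) * ((1 - 1 / (M : ℝ)) * (L * ((1 - 2 * d / (M : ℝ)) * G))) := by
            field_simp
        _ ≤ r * ((1 - 1 / (M : ℝ)) * (L * ((1 - 2 * d / (M : ℝ)) * G))) := by
            apply mul_le_mul_of_nonneg_right hrlow
            positivity
        _ ≤ r * ((1 - 1 / (M : ℝ)) * (L * Gp f N)) := by
            apply mul_le_mul_of_nonneg_left _ (Nat.cast_nonneg _)
            apply mul_le_mul_of_nonneg_left _ hc1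
            exact mul_le_mul_of_nonneg_left hGratio (Nat.cast_nonneg _)
        _ ≤ r * ℓ := mul_le_mul_of_nonneg_left hℓlow (Nat.cast_nonneg _)
    calc (1 - 1 / (M : ℝ)) ^ 4 * (1 - 2 * d / M) * (H' * L / (d * Real.log x))
        = (1 - 1 / (M : ℝ)) * ((1 - 1 / (M : ℝ)) * ((1 - 1 / (M : ℝ)) ^ 2 * (1 - 2 * d / M) * (H' * L)) / (d * Real.log x)) := by
          ring
      _ ≤ (1 - 1 / (M : ℝ)) * ((1 - 1 / (M : ℝ)) * (r * ℓ) / (d * Real.log x)) := by
          apply mul_le_mul_of_nonneg_left _ hc1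
          apply div_le_div_of_nonneg_right _ (by positivity)
          exact mul_le_mul_of_nonneg_left hprod hc1
      _ ≤ (1 - 1 / (M : ℝ)) * (r * ℓ / Real.log ℓ) := by
          apply mul_le_mul_of_nonneg_left _ hc1
          rw [div_le_div_iff₀ (by positivity) hlogℓ0]
          have h1 : (1 - 1 / (M : ℝ)) * Real.log ℓ ≤ d * Real.log x := by
            calc (1 - 1 / (M : ℝ)) * Real.log ℓ ≤ (1 - 1 / (M : ℝ)) * ((1 + 1 / M) * (d * Real.log x)) :=
                  mul_le_mul_of_nonneg_left hlogℓ hc1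
              _ = (1 - (1 / (M : ℝ)) ^ 2) * (d * Real.log x) := by ring
              _ ≤ 1 * (d * Real.log x) := by
                  apply mul_le_mul_of_nonneg_right _ (by positivity)
                  have : (0 : ℝ) ≤ (1 / (M : ℝ)) ^ 2 := by positivity
                  linarith
              _ = _ := one_mul _
          have h2 : (0 : ℝ) ≤ (r : ℝ) * ℓ := by positivity
          calc (1 - 1 / (M : ℝ)) * (r * ℓ) * Real.log ℓ = (r * ℓ) * ((1 - 1 / (M : ℝ)) * Real.log ℓ) := by ring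
            _ ≤ (r * ℓ) * (d * Real.log x) := mul_le_mul_of_nonneg_left h1 h2
      _ = r * ((1 - 1 / (M : ℝ)) * (ℓ / Real.log ℓ)) := by ring
      _ ≤ _ := mul_le_mul_of_nonneg_left hPdiff (Nat.cast_nonneg _)
  -- assemble
  have hX : ∀ n ∈ Icc 1 x, ∑ j ∈ range J,
      ((Nat.primeCounting ((j + 1) * H' + f.eval n) : ℝ) - Nat.primeCounting (j * H' + f.eval n)) ≤
      (#{u ∈ Icc 1 H | (u + f.eval n).Prime} : ℝ) := by
    intro n _
    rw [← window_split (fun m => (Nat.primeCounting m : ℝ)), card_shift]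
    have : Nat.primeCounting (J * H' + f.eval n) ≤ Nat.primeCounting (H + f.eval n) :=
      Nat.monotone_primeCounting (by omega)
    have h2 : (Nat.primeCounting (J * H' + f.eval n) : ℝ) ≤ Nat.primeCounting (H + f.eval n) := by exact_mod_cast this
    linarith
  have hnonneg : ∀ n ∈ Icc 1 x, (0 : ℝ) ≤ ∑ j ∈ range J,
      ((Nat.primeCounting ((j + 1) * H' + f.eval n) : ℝ) - Nat.primeCounting (j * H' + f.eval n)) := by
    intro n _
    apply sum_nonneg
    intro j _
    rw [sub_nonneg]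
    have : Nat.primeCounting (j * H' + f.eval n) ≤ Nat.primeCounting ((j + 1) * H' + f.eval n) :=
      Nat.monotone_primeCounting (by nlinarith)
    exact_mod_cast this
  have hc1 : 0 ≤ 1 - 1 / (M : ℝ) := by
    rw [sub_nonneg, div_le_one hM0]; linarith
  have hc2 : 0 ≤ 1 - 2 * (d : ℝ) / M := by
    rw [sub_nonneg, div_le_one hM0]; exact_mod_cast hM2d'
  have hdisj : ((range (M ^ 2 - M) : Finset ℕ) : Set ℕ).PairwiseDisjoint
      (fun i => Ico ((M + i) * L) ((M + i) * L + L)) := by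
    intro i _ i' _ hii
    rw [Function.onFun, disjoint_left]
    intro n hn hn'
    rw [mem_Ico] at hn hn'
    apply hii
    have e1 : (M + i) * L + L = (M + i + 1) * L := by ring
    have e2 : (M + i') * L + L = (M + i' + 1) * L := by ring
    rw [e1] at hn
    rw [e2] at hn'
    have h1 : M + i < M + i' + 1 := lt_of_mul_lt_mul_right (lt_of_le_of_lt hn.1 hn'.2) (Nat.zero_le L)
    have h2 : M + i' < M + i + 1 := lt_of_mul_lt_mul_right (lt_of_le_of_lt hn'.1 hn.2) (Nat.zero_le L)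
    omega
  have hsubset : (range (M ^ 2 - M)).biUnion (fun i => Ico ((M + i) * L) ((M + i) * L + L)) ⊆ Icc 1 x := by
    intro n hn
    rw [mem_biUnion] at hn
    obtain ⟨i, hi, hn⟩ := hn
    rw [mem_range] at hi
    rw [mem_Ico] at hn
    rw [mem_Icc]
    have e1 : (M + i) * L + L = (M + i + 1) * L := by ring
    have h1 : (M + i + 1) * L ≤ M ^ 2 * L := Nat.mul_le_mul_right _ (by omega)
    have h2 : 1 ≤ (M + i) * L := Nat.mul_pos (by omega) hL1
    omega
  have hMM : M ≤ M ^ 2 := by nlinarith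
  have hTL : (1 - 1 / (M : ℝ)) ^ 2 * x ≤ ((M ^ 2 - M : ℕ) : ℝ) * L := by
    rw [Nat.cast_sub hMM]
    push_cast
    have h1 : (x : ℝ) < (M : ℝ) ^ 2 * (L + 1) := by exact_mod_cast hxL
    have h2 : (M : ℝ) ^ 3 ≤ x := by exact_mod_cast hxM3
    have h3 : (M : ℝ) ^ 2 - M = (1 - 1 / (M : ℝ)) * (M : ℝ) ^ 2 := by field_simp
    rw [h3]
    have h4 : (M : ℝ) ^ 2 ≤ (1 / M) * x := by
      rw [one_div, ← div_eq_inv_mul, le_div_iff₀ hM0]
      calc (M : ℝ) ^ 2 * (M : ℝ) = (M : ℝ) ^ 3 := by ring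
        _ ≤ (x : ℝ) := h2
    have h5 : (1 - 1 / (M : ℝ)) * x ≤ (M : ℝ) ^ 2 * L := by
      nlinarith
    calc (1 - 1 / (M : ℝ)) ^ 2 * x = (1 - 1 / (M : ℝ)) * ((1 - 1 / (M : ℝ)) * x) := by ring
      _ ≤ (1 - 1 / (M : ℝ)) * ((M : ℝ) ^ 2 * L) := mul_le_mul_of_nonneg_left h5 hc1
      _ = _ := by ring
  have hJH : (1 - 1 / (M : ℝ)) * H ≤ (J : ℝ) * H' := by
    have h1 : (H : ℝ) < J * (H' + 1) := by exact_mod_cast hHH'
    have h2 : M * J ≤ H := by
      refine le_trans ?_ hKH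
      rw [hK]
      have h3 : 1 ≤ x ^ (d - 1) := Nat.one_le_pow _ _ hx1
      have h4 : 1 ≤ 2 ^ (2 * d) := Nat.one_le_two_pow
      have h5 : M ≤ M * 2 ^ (2 * d) * f1 + 1 := by
        calc M = M * 1 * 1 := by ring
          _ ≤ M * 2 ^ (2 * d) * f1 := Nat.mul_le_mul (Nat.mul_le_mul_left _ h4) hf1pos
          _ ≤ _ := by omega
      calc M * J = J * M * 1 := by ring
        _ ≤ J * (M * 2 ^ (2 * d) * f1 + 1) * x ^ (d - 1) := Nat.mul_le_mul (Nat.mul_le_mul_left _ h5) h3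
    have h3 : (M : ℝ) * J ≤ H := by exact_mod_cast h2
    have h4 : (J : ℝ) ≤ (1 / M) * H := by
      rw [one_div, ← div_eq_inv_mul, le_div_iff₀ hM0]; linarith
    linarith
  have hfinal : (1 - ε) ≤ (1 - 1 / (M : ℝ)) ^ 7 * (1 - 2 * d / M) := by
    have h6 : -2 ≤ -(1 / (M : ℝ)) := by
      rw [neg_le_neg_iff, div_le_iff₀ hM0]; linarith
    have h7 := one_add_mul_le_pow h6 7
    have h9 : 1 + -(1 / (M : ℝ)) = 1 - 1 / M := by ring
    rw [h9] at h7
    have h10 : 1 + ((7 : ℕ) : ℝ) * -(1 / (M : ℝ)) = 1 - 7 / M := by push_cast; ring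
    rw [h10] at h7
    have h11 : (1 - 7 / (M : ℝ)) * (1 - 2 * d / M) ≤ (1 - 1 / (M : ℝ)) ^ 7 * (1 - 2 * d / M) :=
      mul_le_mul_of_nonneg_right h7 hc2
    have h12 : (0 : ℝ) ≤ 7 / M * (2 * d / M) := by positivity
    have h13 : (7 + 2 * (d : ℝ)) / M = 7 / M + 2 * d / M := by ring
    rw [h13] at hMε
    nlinarith
  calc (1 - ε) * (x * H / (d * Real.log x)) ≤ ((1 - 1 / (M : ℝ)) ^ 7 * (1 - 2 * d / M)) * (x * H / (d * Real.log x)) :=
        mul_le_mul_of_nonneg_right hfinal (by positivity)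
    _ = ((1 - 1 / (M : ℝ)) ^ 4 * (1 - 2 * d / M)) * (((1 - 1 / (M : ℝ)) ^ 2 * x) * ((1 - 1 / (M : ℝ)) * H) / (d * Real.log x)) := by ring
    _ ≤ ((1 - 1 / (M : ℝ)) ^ 4 * (1 - 2 * d / M)) * ((((M ^ 2 - M : ℕ) : ℝ) * L) * ((J : ℝ) * H') / (d * Real.log x)) := by
        apply mul_le_mul_of_nonneg_left _ (by positivity)
        apply div_le_div_of_nonneg_right _ (by positivity)
        exact mul_le_mul hTL hJH (by positivity) (by positivity)
    _ = ∑ _i ∈ range (M ^ 2 - M), ∑ _j ∈ range J,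
          (1 - 1 / (M : ℝ)) ^ 4 * (1 - 2 * d / M) * (H' * L / (d * Real.log x)) := by
        rw [sum_const, sum_const, card_range, card_range, nsmul_eq_mul, nsmul_eq_mul]; ring
    _ ≤ ∑ i ∈ range (M ^ 2 - M), ∑ j ∈ range J, ∑ n ∈ Ico ((M + i) * L) ((M + i) * L + L),
        ((Nat.primeCounting ((j + 1) * H' + f.eval n) : ℝ) - Nat.primeCounting (j * H' + f.eval n)) :=
        sum_le_sum fun i hi => sum_le_sum fun j hj => hblock i hi j hj
    _ = ∑ i ∈ range (M ^ 2 - M), ∑ n ∈ Ico ((M + i) * L) ((M + i) * L + L), ∑ j ∈ range J,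
        ((Nat.primeCounting ((j + 1) * H' + f.eval n) : ℝ) - Nat.primeCounting (j * H' + f.eval n)) := by
        apply sum_congr rfl; intro i _
        rw [sum_comm]
    _ = ∑ n ∈ (range (M ^ 2 - M)).biUnion (fun i => Ico ((M + i) * L) ((M + i) * L + L)), ∑ j ∈ range J,
        ((Nat.primeCounting ((j + 1) * H' + f.eval n) : ℝ) - Nat.primeCounting (j * H' + f.eval n)) := by
        rw [sum_biUnion hdisj]
    _ ≤ ∑ n ∈ Icc 1 x, ∑ j ∈ range J,
        ((Nat.primeCounting ((j + 1) * H' + f.eval n) : ℝ) - Nat.primeCounting (j * H' + f.eval n)) :=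
        sum_le_sum_of_subset_of_nonneg hsubset fun n hn _ => hnonneg n hn
    _ ≤ _ := sum_le_sum hX

end Pool.Agent.H373R2.SH
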