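import Mathlib

namespace Pool.Agent.H373R2.SH
open Finset

open Classical in
/-- abstract second moment argument -/
theorem gen_core {α : Type*} (B : Finset α) (cnt sgy T : α → ℝ) (U : Finset α) (μ ε θ' η C₂ τ υ : ℝ)
    (hμ : 0 < μ) (hε0 : 0 < ε) (hθ'0 : 0 < θ') (hε : 4 * ε = 1 - θ') (hη : 0 < η) (hC₂ : 0 < C₂)
    (hsg : ∀ a ∈ B, 0 ≤ sgy a)
    (h1 : (1 - ε) * (μ * #B) ≤ ∑ a ∈ B, cnt a) (h2 : ∑ a ∈ B, cnt a ^ 2 ≤ C₂ * (μ ^ 2 * #B))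
    (h4 : ∑ a ∈ B, sgy a ≤ (1 + ε) * #B) (h5 : ∑ a ∈ B, T a ^ 2 ≤ τ * #B) (hU : (#U : ℝ) ≤ υ * #B)
    (hτ : τ ≤ η ^ 2 * (ε ^ 2 / C₂ / 4)) (hυ : υ ≤ ε ^ 2 / C₂ / 4) :
    ∃ S : Finset α, S ⊆ B ∧ ε ^ 2 / C₂ / 2 * #B ≤ #S ∧
      ∀ a ∈ S, θ' * sgy a * μ ≤ cnt a ∧ ε * μ ≤ cnt a ∧ T a ≤ η ∧ a ∉ U := by
  set N : ℝ := (#B : ℝ) with hN
  have hN0 : 0 ≤ N := Nat.cast_nonneg _
  have hε1 : ε ≤ 1 := by linarith
  set c₁ : ℝ := ε ^ 2 / C₂ with hc₁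
  have hc₁0 : 0 < c₁ := by positivity
  set S₀ := B.filter (fun a => θ' * sgy a * μ ≤ cnt a ∧ ε * μ ≤ cnt a) with hS₀
  have hsplit : ∑ a ∈ B, cnt a ≤ ∑ a ∈ S₀, cnt a + ∑ a ∈ B, θ' * sgy a * μ + ∑ a ∈ B, ε * μ := by
    have h1 : ∀ a ∈ B, cnt a ≤
        (if θ' * sgy a * μ ≤ cnt a ∧ ε * μ ≤ cnt a then cnt a else 0) + θ' * sgy a * μ + ε * μ := by
      intro a ha
      have hs := hsg a ha
      have h2 : 0 ≤ θ' * sgy a * μ := by positivity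
      have h3 : 0 ≤ ε * μ := by positivity
      split_ifs with h
      · linarith
      · rw [not_and_or, not_le, not_le] at h
        rcases h with h | h <;> linarith
    calc ∑ a ∈ B, cnt a ≤ ∑ a ∈ B,
        ((if θ' * sgy a * μ ≤ cnt a ∧ ε * μ ≤ cnt a then cnt a else 0) + θ' * sgy a * μ + ε * μ) :=
          sum_le_sum h1
      _ = _ := by
          rw [sum_add_distrib, sum_add_distrib, hS₀, sum_filter]
  have hsgs : ∑ a ∈ B, θ' * sgy a * μ ≤ θ' * (1 + ε) * (μ * N) := by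
    have : ∑ a ∈ B, θ' * sgy a * μ = θ' * μ * ∑ a ∈ B, sgy a := by
      rw [mul_sum]; apply sum_congr rfl; intro a _; ring
    rw [this]
    have := mul_le_mul_of_nonneg_left h4 (show 0 ≤ θ' * μ by positivity)
    linarith
  have hcst : ∑ a ∈ B, ε * μ = ε * (μ * N) := by
    rw [sum_const, nsmul_eq_mul]; ring
  have hS₀sum : ε * (μ * N) ≤ ∑ a ∈ S₀, cnt a := by
    have hμN : 0 ≤ μ * N := by positivity
    have h1' : ε ≤ (1 - ε) - θ' * (1 + ε) - ε := by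
      have : θ' * ε ≤ ε := by nlinarith
      linarith
    have h2' := mul_le_mul_of_nonneg_right h1' hμN
    linarith
  have hcauchy : (∑ a ∈ S₀, cnt a) ^ 2 ≤ #S₀ * ∑ a ∈ S₀, cnt a ^ 2 := sq_sum_le_card_mul_sum_sq
  have hsub : ∑ a ∈ S₀, cnt a ^ 2 ≤ ∑ a ∈ B, cnt a ^ 2 :=
    sum_le_sum_of_subset_of_nonneg (filter_subset _ _) fun _ _ _ => by positivity
  have hS₀card : c₁ * N ≤ #S₀ := by
    rcases hN0.eq_or_lt with h0 | h0
    · rw [← h0, mul_zero]; exact Nat.cast_nonneg _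
    · have h1' : (ε * (μ * N)) ^ 2 ≤ #S₀ * (C₂ * (μ ^ 2 * N)) := by
        calc (ε * (μ * N)) ^ 2 ≤ (∑ a ∈ S₀, cnt a) ^ 2 :=
              pow_le_pow_left₀ (by positivity) hS₀sum 2
          _ ≤ _ := hcauchy
          _ ≤ _ := mul_le_mul_of_nonneg_left (hsub.trans h2) (Nat.cast_nonneg _)
      rw [hc₁, div_mul_eq_mul_div, div_le_iff₀ (by positivity)]
      have h2' : 0 < μ ^ 2 * N := by positivity
      apply le_of_mul_le_mul_right _ h2'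
      calc ε ^ 2 * N * (μ ^ 2 * N) = (ε * (μ * N)) ^ 2 := by ring
        _ ≤ _ := h1'
        _ = _ := by ring
  set S₁ := B.filter (fun a => η < T a) with hS₁
  have hTcard : (#S₁ : ℝ) ≤ c₁ / 4 * N := by
    have h1' : η ^ 2 * #S₁ ≤ ∑ a ∈ B, T a ^ 2 := by
      calc η ^ 2 * #S₁ = ∑ a ∈ S₁, η ^ 2 := by rw [sum_const, nsmul_eq_mul]; ring
        _ ≤ ∑ a ∈ S₁, T a ^ 2 := by
            apply sum_le_sum
            intro a ha
            rw [hS₁, mem_filter] at ha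
            exact pow_le_pow_left₀ hη.le ha.2.le 2
        _ ≤ _ := sum_le_sum_of_subset_of_nonneg (filter_subset _ _) fun _ _ _ => by positivity
    have h6 : η ^ 2 * #S₁ ≤ η ^ 2 * (c₁ / 4 * N) := by
      calc η ^ 2 * #S₁ ≤ τ * N := h1'.trans h5
        _ ≤ (η ^ 2 * (c₁ / 4)) * N := mul_le_mul_of_nonneg_right hτ hN0
        _ = _ := by ring
    exact le_of_mul_le_mul_left h6 (by positivity)
  have hUcard : (#U : ℝ) ≤ c₁ / 4 * N := hU.trans (mul_le_mul_of_nonneg_right hυ hN0)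
  have hsubset : S₀ ⊆ (B.filter (fun a => θ' * sgy a * μ ≤ cnt a ∧ ε * μ ≤ cnt a ∧ T a ≤ η ∧ a ∉ U)) ∪ (S₁ ∪ U) := by
    intro a ha
    rw [hS₀, mem_filter] at ha
    obtain ⟨haB, h1', h2'⟩ := ha
    by_cases hTa : a ∈ S₁
    · exact mem_union_right _ (mem_union_left _ hTa)
    by_cases hUa : a ∈ U
    · exact mem_union_right _ (mem_union_right _ hUa)
    apply mem_union_left
    rw [mem_filter]
    refine ⟨haB, h1', h2', ?_, hUa⟩
    by_contra hcon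
    exact hTa (mem_filter.2 ⟨haB, not_le.1 hcon⟩)
  have hfin := (card_le_card hsubset).trans (card_union_le _ _)
  have hfin2 := card_union_le S₁ U
  have hfin3 : (#S₀ : ℝ) ≤ #(B.filter (fun a => θ' * sgy a * μ ≤ cnt a ∧ ε * μ ≤ cnt a ∧ T a ≤ η ∧ a ∉ U)) +
      (#S₁ + #U) := by
    exact_mod_cast hfin.trans (Nat.add_le_add_left hfin2 _)
  refine ⟨B.filter (fun a => θ' * sgy a * μ ≤ cnt a ∧ ε * μ ≤ cnt a ∧ T a ≤ η ∧ a ∉ U), filter_subset _ _, ?_,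
    fun a ha => (mem_filter.1 ha).2⟩
  linarith

end Pool.Agent.H373R2.SH
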