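import Mathlib
import Pool.Agent.H373R2.SH.Second
import Pool.Agent.H373R2.SH.First
import Pool.Agent.H373R2.SH.GenCore

namespace Pool.Agent.H373R2.SH
open Finset Polynomial
open Pool.Agent.H373R2.BH (card_filter_real LD)

variable {k : ℕ}

/-- few tuples have two equal entries -/
lemma dup_Sx (H : Fin k → ℕ) (i j : Fin k) (hij : i ≠ j) :
    #{h ∈ Sx H | h i = h j} * H i ≤ #(Sx H) := by
  classical
  have h : #({h ∈ Sx H | h i = h j} ×ˢ Icc 1 (H i)) ≤ #(Sx H) := by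
    apply card_le_card_of_injOn (fun q => Function.update q.1 i q.2)
    · intro q hq
      rw [mem_coe, mem_product, mem_filter, mem_Sx, mem_Icc] at hq
      obtain ⟨⟨h1, h2⟩, h3⟩ := hq
      rw [mem_coe, mem_Sx]
      intro l
      beta_reduce
      by_cases hl : l = i
      · subst hl
        rw [Function.update_self]
        exact h3
      · rw [Function.update_of_ne hl]; exact h1 _
    · intro q hq q' hq' heq
      rw [mem_coe, mem_product, mem_filter, mem_Sx, mem_Icc] at hq hq'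
      obtain ⟨⟨h1, h2⟩, h3⟩ := hq
      obtain ⟨⟨h1', h2'⟩, h3'⟩ := hq'
      simp only at heq
      have e1 := congrFun heq i
      rw [Function.update_self, Function.update_self] at e1
      have e3 : ∀ l, l ≠ i → q.1 l = q'.1 l := by
        intro l hl
        have := congrFun heq l
        rwa [Function.update_of_ne hl, Function.update_of_ne hl] at this
      have e5 : q.1 = q'.1 := by
        funext l
        by_cases hl : l = i
        · subst hl
          rw [h2, h2', e3 j hij.symm]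
        · exact e3 l hl
      exact Prod.ext e5 e1
  rwa [card_product, Nat.card_Icc, Nat.add_sub_cancel] at h

open Classical in
/-- positive proportion from a first moment: shift families of one polynomial -/
theorem shift_core (hk : 1 ≤ k) (f : ℕ[X]) (hf : 1 ≤ f.natDegree) (θ : ℝ) (hθ0 : 0 < θ) (hθ1 : θ < 1) :
    ∃ ε₁ : ℝ, 0 < ε₁ ∧ ∃ c : ℝ, 0 < c ∧ ∃ y₀ x₀ : ℕ, ∀ x : ℕ, x₀ ≤ x → ∀ H : ℕ, x ≤ H →
      (1 - ε₁) * (x * H / (f.natDegree * Real.log x)) ≤ ∑ n ∈ Icc 1 x, (#{u ∈ Icc 1 H | (u + f.eval n).Prime} : ℝ) →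
      ∀ z : ℕ, y₀ ≤ z → z ^ 5 ≤ H →
      c * (H : ℝ) ^ k ≤ #((Sx (fun _ : Fin k => H)).filter (fun h =>
        θ * sgS (fun _ n => f.eval n) h z * (x / (f.natDegree * Real.log x) ^ k) ≤ cntS (fun _ n => f.eval n) h x ∧
        c * (x / (f.natDegree * Real.log x) ^ k) ≤ cntS (fun _ n => f.eval n) h x ∧ Function.Injective h)) := by
  set d := f.natDegree with hd
  have hd1 : (1 : ℝ) ≤ d := by exact_mod_cast hf
  set θ' : ℝ := (1 + θ) / 2 with hθ'
  have hθ'1 : θ' < 1 := by rw [hθ']; linarith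
  have hθ'0 : θ < θ' := by rw [hθ']; linarith
  have hθ'pos : 0 < θ' := by linarith
  set ε : ℝ := (1 - θ') / 4 with hε
  have hε0 : 0 < ε := by rw [hε]; linarith
  have hε1 : ε ≤ 1 := by rw [hε]; linarith
  set η : ℝ := Real.log (θ' / θ) with hη
  have hη0 : 0 < η := Real.log_pos (by rw [lt_div_iff₀ hθ0]; linarith)
  have hexp : Real.exp η = θ' / θ := Real.exp_log (by positivity)
  have hkr : (1 : ℝ) ≤ k := by exact_mod_cast hk
  set ε₁ : ℝ := ε / k with hε₁
  have hε₁0 : 0 < ε₁ := by positivity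
  have hε₁1 : ε₁ ≤ 1 := by rw [hε₁, div_le_one (by linarith)]; linarith
  obtain ⟨C, hC, x₁, hsecond⟩ := secondS hk (fun _ : Fin k => f) (fun _ => hf)
  obtain ⟨D, hD1, hD⟩ := roots_le f hf
  obtain ⟨CT, hCT, htail⟩ := tailS k D
  set C₂ : ℝ := C * (d : ℝ) ^ (2 * k) with hC₂
  have hC₂0 : 0 < C₂ := by positivity
  set c₁ : ℝ := ε ^ 2 / C₂ with hc₁
  have hc₁0 : 0 < c₁ := by positivity
  obtain ⟨y, hy⟩ := exists_nat_gt (8 * CT / (η ^ 2 * c₁))
  have hy0 : (0 : ℝ) < y := lt_trans (by positivity) hy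
  have hy1 : 1 ≤ y := by exact_mod_cast (show (0 : ℝ) < (y : ℕ) from hy0)
  set P : ℕ := ∏ p ∈ (range (y + 1)).filter Nat.Prime, p with hP
  have hlim : Filter.Tendsto (fun H : ℕ => (1 + (P : ℝ) / (H : ℝ)) ^ k) Filter.atTop (nhds ((1 + 0) ^ k)) := by
    apply Filter.Tendsto.pow
    exact Filter.Tendsto.add tendsto_const_nhds (tendsto_const_div_atTop_nhds_zero_nat (P : ℝ))
  rw [add_zero, one_pow] at hlim
  have hev := (hlim.eventually (gt_mem_nhds (show (1 : ℝ) < 1 + ε by linarith)))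
  obtain ⟨H₂, hH₂⟩ := Filter.eventually_atTop.1 hev
  obtain ⟨H₃, hH₃⟩ := exists_nat_gt (4 * (k : ℝ) ^ 2 / c₁)
  refine ⟨ε₁, hε₁0, min (c₁ / 2) ε, lt_min (by positivity) hε0, y, x₁ + H₂ + H₃ + 3,
    fun x hx H hxH hfirst z hyz hz5 => ?_⟩
  set F : Fin k → ℕ → ℕ := fun _ n => f.eval n with hF
  set B := Sx (fun _ : Fin k => H) with hB
  have hBcard : (#B : ℝ) = (H : ℝ) ^ k := by
    rw [hB, card_Sx, prod_const, card_fin]
  have hH2 : 2 ≤ H := by omega
  have hHpos : (0 : ℝ) < H := by exact_mod_cast (by omega : 0 < H)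
  have hx3 : 3 ≤ x := by omega
  have hx0 : (0 : ℝ) < x := by exact_mod_cast (by omega : 0 < x)
  have hlog0 : 0 < Real.log x := Real.log_pos (by exact_mod_cast (by omega : 1 < x))
  have hz1 : 1 ≤ z := hy1.trans hyz
  have hz2 : z ^ 2 ≤ H := (Nat.pow_le_pow_right hz1 (by norm_num)).trans hz5
  set μ : ℝ := x / (d * Real.log x) ^ k with hμ
  have hμ0 : 0 < μ := by positivity
  -- first moment
  have hF1 : (1 - ε) * (μ * #B) ≤ ∑ h ∈ B, (cntS F h x : ℝ) := by
    rw [hB, sum_cntS]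
    obtain ⟨k', hk'⟩ : ∃ k', k = k' + 1 := ⟨k - 1, by omega⟩
    set X : ℕ → ℝ := fun n => (#{u ∈ Icc 1 H | (u + f.eval n).Prime} : ℝ) with hX
    have h1 : ∀ n ∈ Icc 1 x, ∏ _i : Fin k, X n = X n ^ (k' + 1) := by
      intro n _
      rw [prod_const, card_fin, ← hk']
    have h2 : ∑ n ∈ Icc 1 x, ∏ i : Fin k, (#{u ∈ Icc 1 H | (u + F i n).Prime} : ℝ) = ∑ n ∈ Icc 1 x, X n ^ (k' + 1) :=
      sum_congr rfl h1
    rw [h2]
    have h3 := pow_sum_div_card_le_sum_pow (s := Icc 1 x) (f := X) (fun n _ => Nat.cast_nonneg _) k'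
    refine le_trans ?_ h3
    rw [Nat.card_Icc, Nat.add_sub_cancel, le_div_iff₀ (by positivity)]
    have h4 : (1 - ε) ≤ (1 - ε₁) ^ k := by
      have h5 : -2 ≤ -ε₁ := by linarith
      have h6 := one_add_mul_le_pow h5 k
      have h7 : 1 + (k : ℝ) * -ε₁ = 1 - ε := by rw [hε₁]; field_simp; ring
      rw [h7] at h6
      calc 1 - ε ≤ (1 + -ε₁) ^ k := h6
        _ = _ := by ring
    have h8 : 0 ≤ (1 - ε₁) * (x * H / (d * Real.log x)) := by
      have : 0 ≤ 1 - ε₁ := by linarith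
      positivity
    calc (1 - ε) * (μ * #(Sx fun _ : Fin k => H)) * (x : ℝ) ^ k' ≤ (1 - ε₁) ^ k * (μ * (H : ℝ) ^ k) * (x : ℝ) ^ k' := by
          have : (#(Sx fun _ : Fin k => H) : ℝ) = (H : ℝ) ^ k := hBcard
          rw [this]
          apply mul_le_mul_of_nonneg_right _ (by positivity)
          exact mul_le_mul_of_nonneg_right h4 (by positivity)
      _ = ((1 - ε₁) * (x * H / (d * Real.log x))) ^ (k' + 1) := by
          rw [← hk', hμ, mul_pow (1 - ε₁), div_pow ((x : ℝ) * H), mul_pow (x : ℝ) (H : ℝ)]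
          have : (x : ℝ) ^ k = x * (x : ℝ) ^ k' := by rw [hk', pow_succ]; ring
          rw [this]; ring
      _ ≤ _ := pow_le_pow_left₀ h8 hfirst (k' + 1)
  have hF2 : ∑ h ∈ B, (cntS F h x : ℝ) ^ 2 ≤ C₂ * (μ ^ 2 * #B) := by
    refine (hsecond x (by omega) (fun _ => H) (fun _ => hxH)).trans (le_of_eq ?_)
    rw [hC₂, hμ, div_pow, ← pow_mul, mul_comm k 2, mul_pow]
    field_simp
    rfl
  have hF4 : ∑ h ∈ B, sgS F h y ≤ (1 + ε) * #B := by
    refine (sum_sgS_le k F (fun _ => LD_eval' f) y (fun _ => H) H (fun _ => le_rfl) (by omega)).trans ?_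
    apply mul_le_mul_of_nonneg_right _ (Nat.cast_nonneg _)
    exact (hH₂ H (by omega)).le
  have hz0 : (0 : ℝ) < z := by exact_mod_cast hz1
  have hzy : (z : ℝ) ^ 4 / H ≤ 1 / y := by
    rw [div_le_div_iff₀ hHpos hy0, one_mul]
    have h5 : (z : ℝ) ^ 5 ≤ H := by exact_mod_cast hz5
    calc (z : ℝ) ^ 4 * y ≤ (z : ℝ) ^ 4 * z := by
          apply mul_le_mul_of_nonneg_left _ (by positivity)
          exact_mod_cast hyz
      _ = (z : ℝ) ^ 5 := by ring
      _ ≤ H := h5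
  have hF5 : ∑ h ∈ B, (TTS F h y z) ^ 2 ≤ (2 * CT / y) * #B := by
    refine (htail F (fun _ p hp c => hD p hp c) (fun _ => H) H y z (fun _ => le_rfl) hy1 hz2 hH2).trans ?_
    apply mul_le_mul_of_nonneg_right _ (Nat.cast_nonneg _)
    calc CT * (1 / y + (z : ℝ) ^ 4 / H) ≤ CT * (1 / y + 1 / y) := by
          apply mul_le_mul_of_nonneg_left _ hCT.le; linarith
      _ = _ := by ring
  -- duplicates
  set U := (univ : Finset (Fin k × Fin k)).biUnion (fun q => if q.1 ≠ q.2 then B.filter (fun h => h q.1 = h q.2) else ∅)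
    with hU
  have hUcard : (#U : ℝ) ≤ ((k : ℝ) ^ 2 / H) * #B := by
    have h1 : #U ≤ ∑ q : Fin k × Fin k, #(if q.1 ≠ q.2 then B.filter (fun h => h q.1 = h q.2) else ∅) := card_biUnion_le
    have h2 : ∀ q : Fin k × Fin k, (#(if q.1 ≠ q.2 then B.filter (fun h => h q.1 = h q.2) else ∅) : ℝ) ≤ #B / H := by
      intro q
      split_ifs with h
      · rw [le_div_iff₀ hHpos]
        have := dup_Sx (fun _ : Fin k => H) q.1 q.2 h
        exact_mod_cast this
      · simp; positivity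
    calc (#U : ℝ) ≤ ∑ q : Fin k × Fin k, (#(if q.1 ≠ q.2 then B.filter (fun h => h q.1 = h q.2) else ∅) : ℝ) := by
          exact_mod_cast h1
      _ ≤ ∑ _q : Fin k × Fin k, (#B : ℝ) / H := sum_le_sum fun q _ => h2 q
      _ = _ := by rw [sum_const, card_univ, Fintype.card_prod, Fintype.card_fin, nsmul_eq_mul]; push_cast; ring
  have h4 : 4 * (k : ℝ) ^ 2 / c₁ < H := hH₃.trans_le (by exact_mod_cast (by omega : H₃ ≤ H))
  have hτ : 2 * CT / y ≤ η ^ 2 * (ε ^ 2 / C₂ / 4) := by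
    rw [div_le_iff₀ hy0]
    rw [div_lt_iff₀ (by positivity)] at hy
    have : η ^ 2 * (ε ^ 2 / C₂ / 4) * y = (y * (η ^ 2 * c₁)) / 4 := by rw [hc₁]; ring
    rw [this]
    linarith
  have hυ : (k : ℝ) ^ 2 / H ≤ ε ^ 2 / C₂ / 4 := by
    rw [div_le_iff₀ hHpos]
    rw [div_lt_iff₀ hc₁0] at h4
    linarith
  obtain ⟨S, hSB, hScard, hS⟩ := gen_core B (fun h => (cntS F h x : ℝ)) (fun h => sgS F h y) (fun h => TTS F h y z) U μ ε θ' η C₂
    (2 * CT / y) ((k : ℝ) ^ 2 / H) hμ0 hε0 hθ'pos (by rw [hε]; ring) hη0 hC₂0 (fun h _ => sgS_nonneg F h y)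
    hF1 hF2 hF4 hF5 hUcard hτ hυ
  · rw [hBcard] at hScard
    have h5 : min (c₁ / 2) ε * (H : ℝ) ^ k ≤ c₁ / 2 * (H : ℝ) ^ k :=
      mul_le_mul_of_nonneg_right (min_le_left _ _) (by positivity)
    refine h5.trans (hScard.trans ?_)
    rw [Nat.cast_le]
    apply card_le_card
    intro h hh
    obtain ⟨h1, h2, hTT, hUa⟩ := hS h hh
    have hB' := hSB hh
    rw [mem_filter]
    refine ⟨hB', ?_, ?_, ?_⟩
    · have h3 := sgS_le F h y z hyz
      have h4 : sgS F h y * Real.exp (TTS F h y z) ≤ sgS F h y * (θ' / θ) := by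
        apply mul_le_mul_of_nonneg_left _ (sgS_nonneg F h y)
        rw [← hexp]; exact Real.exp_le_exp.2 hTT
      have h5 : θ * sgS F h z ≤ θ' * sgS F h y := by
        have := mul_le_mul_of_nonneg_left (h3.trans h4) hθ0.le
        calc θ * sgS F h z ≤ θ * (sgS F h y * (θ' / θ)) := this
          _ = θ' * sgS F h y := by field_simp
      exact (mul_le_mul_of_nonneg_right h5 hμ0.le).trans h1
    · exact le_trans (mul_le_mul_of_nonneg_right (min_le_right _ _) hμ0.le) h2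
    · intro i j hij
      by_contra hne
      apply hUa
      rw [hU, mem_biUnion]
      refine ⟨(i, j), mem_univ _, ?_⟩
      simp only [ne_eq, hne, not_false_eq_true, if_true]
      rw [mem_filter]
      exact ⟨hB', hij⟩

end Pool.Agent.H373R2.SH
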