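import Mathlib
import Pool.Agent.H373R2.SH.ShiftCore
import Pool.Agent.H373R2.SH.Reduce

namespace Pool.Agent.H373R2.SH
open Finset Polynomial
open Pool.Agent.H373R2.BH (BHFamily omegaP eulerProduct primeCount card_filter_real BHFamily_of_many)

lemma log_pow_small (k : ℕ) (δ : ℝ) (hδ : 0 < δ) : ∃ x₀ : ℕ, ∀ x : ℕ, x₀ ≤ x → (Real.log (x : ℝ)) ^ k ≤ δ * x := by
  have h1 : (fun x : ℝ => (Real.log x) ^ k) =o[Filter.atTop] (fun x : ℝ => x) :=
    Real.isLittleO_pow_log_id_atTop (n := k)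
  have h2 := (h1.bound hδ)
  have h3 := tendsto_natCast_atTop_atTop (R := ℝ) |>.eventually h2
  have h4 : ∀ᶠ x : ℕ in Filter.atTop, (Real.log (x : ℝ)) ^ k ≤ δ * x := by
    filter_upwards [h3, Filter.eventually_ge_atTop 1] with x hx hx1
    have hlog0 : 0 ≤ Real.log (x : ℝ) := Real.log_nonneg (by exact_mod_cast hx1)
    rw [Real.norm_of_nonneg (by positivity), Real.norm_of_nonneg (by positivity)] at hx
    exact hx
  exact Filter.eventually_atTop.1 h4

lemma BHFamily_shift {k : ℕ} (f : Fin k → ℤ[X]) (hf : ∀ i, 1 ≤ (f i).natDegree) (hl : ∀ i, 0 < (f i).leadingCoeff)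
    (h : Fin k → ℕ) (hinj : Function.Injective (fun i => f i + C (h i : ℤ))) (x : ℕ)
    (hx : 2 * ∑ i, (f i).natDegree < primeCount (fun i => f i + C (h i : ℤ)) x) :
    BHFamily (fun i => f i + C (h i : ℤ)) := by
  apply BHFamily_of_many _ hinj _ _ x
  · have h0 : ∑ i, (f i + C (h i : ℤ)).natDegree = ∑ i, (f i).natDegree :=
      sum_congr rfl fun i _ => natDegree_add_C
    rw [h0]; exact hx
  · intro i
    rw [natDegree_add_C]
    exact hf i
  · intro i
    have h1 : (C (h i : ℤ) : ℤ[X]).degree < (f i).degree :=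
      lt_of_le_of_lt degree_C_le (natDegree_pos_iff_degree_pos.1 (hf i))
    rw [leadingCoeff_add_of_degree_lt' h1]
    exact hl i

open Classical in
theorem shift_main (k : ℕ) (hk : 1 ≤ k) (f : ℤ[X]) (hf : 2 ≤ f.natDegree) (hl : 0 < f.leadingCoeff)
    (θ : ℝ) (hθ0 : 0 < θ) (hθ1 : θ < 1) :
    ∃ c : ℝ, 0 < c ∧ ∃ K y₀ x₀ : ℕ, ∀ x : ℕ, x₀ ≤ x → ∀ H : ℕ, K * x ^ (f.natDegree - 1) ≤ H →
      2 ^ f.natDegree * H ≤ x ^ f.natDegree → ∀ z : ℕ, y₀ ≤ z → z ^ 5 ≤ H →
      c * (H : ℝ) ^ k ≤ #((Fintype.piFinset fun _ : Fin k => Icc 1 H).filter (fun h =>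
        BHFamily (fun i => f + C (h i : ℤ)) ∧
        θ * eulerProduct (fun i => f + C (h i : ℤ)) z * (x / (f.natDegree * Real.log x) ^ k) ≤
          primeCount (fun i => f + C (h i : ℤ)) x ∧
        c * (x / (Real.log x) ^ k) ≤ primeCount (fun i => f + C (h i : ℤ)) x)) := by
  obtain ⟨N, hN⟩ := exists_nat_poly f hl
  obtain ⟨g, hgd, hg⟩ := hN N le_rfl
  set d := f.natDegree with hd
  have hd2 : (2 : ℝ) ≤ d := by exact_mod_cast hf
  set θ₂ : ℝ := (1 + θ) / 2 with hθ₂
  have hθ₂1 : θ₂ < 1 := by rw [hθ₂]; linarith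
  have hθ₂0 : θ < θ₂ := by rw [hθ₂]; linarith
  have hθ₂pos : 0 < θ₂ := by linarith
  have hgd1 : 1 ≤ g.natDegree := by omega
  obtain ⟨ε₁, hε₁, c₁, hc₁, y₀, x₁, hcore⟩ := shift_core hk g hgd1 θ₂ hθ₂pos hθ₂1
  obtain ⟨K, x₂, hK1, hfirst⟩ := firstT g hgd1 ε₁ hε₁
  rw [hgd] at hcore hfirst
  set c : ℝ := c₁ / (2 * (d : ℝ) ^ k) with hc
  have hdk : (1 : ℝ) ≤ (d : ℝ) ^ k := one_le_pow₀ (by linarith)
  have hc0 : 0 < c := by positivity
  have hcc₁ : c ≤ c₁ := by
    rw [hc, div_le_iff₀ (by positivity)]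
    nlinarith
  obtain ⟨x₃, hx₃⟩ := log_pow_small k (c / (2 * k * d + 1)) (by positivity)
  obtain ⟨x₄, hx₄⟩ := exists_nat_gt (N * θ₂ / (θ₂ - θ))
  refine ⟨c, hc0, K, y₀, x₁ + x₂ + x₃ + x₄ + 2 * N + 3, fun x hx H hKH hHx z hz hz5 => ?_⟩
  set x' := x - N with hx'
  have hx'x : x' + N = x := by omega
  have hxr : (0 : ℝ) < x := by exact_mod_cast (by omega : 0 < x)
  have hx'r : (x' : ℝ) = x - N := by rw [hx', Nat.cast_sub (by omega)]
  have hlogx : 0 < Real.log x := Real.log_pos (by exact_mod_cast (by omega : 1 < x))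
  have hlogx' : 0 < Real.log x' := Real.log_pos (by exact_mod_cast (by omega : 1 < x'))
  have hlogle : Real.log x' ≤ Real.log x := Real.log_le_log (by exact_mod_cast (by omega : 0 < x'))
    (by exact_mod_cast (by omega : x' ≤ x))
  have hxH : x ≤ H := by
    have h1 : x ≤ x ^ (d - 1) := Nat.le_self_pow (by omega) x
    calc x ≤ 1 * x ^ (d - 1) := by omega
      _ ≤ K * x ^ (d - 1) := Nat.mul_le_mul_right _ hK1
      _ ≤ H := hKH
  have hKH' : K * x' ^ (d - 1) ≤ H := le_trans (Nat.mul_le_mul_left _ (Nat.pow_le_pow_left (by omega) _)) hKH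
  have hHx' : H ≤ x' ^ d := by
    have h1 : x ^ d ≤ 2 ^ d * x' ^ d := by
      rw [← mul_pow]; exact Nat.pow_le_pow_left (by omega) _
    exact Nat.le_of_mul_le_mul_left (hHx.trans h1) (by positivity)
  have hmain := hcore x' (by omega) H (by omega) (hfirst x' (by omega) H hKH' hHx') z hz hz5
  set μ : ℝ := x / (d * Real.log x) ^ k with hμ
  set μ' : ℝ := x' / (d * Real.log x') ^ k with hμ'
  have hμ0 : 0 < μ := by positivity
  have hμμ' : (1 - N / x) * μ ≤ μ' := by
    have h1 : (1 - N / x) * μ = x' / (d * Real.log x) ^ k := by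
      rw [hμ, hx'r]; field_simp
    rw [h1, hμ']
    apply div_le_div_of_nonneg_left (Nat.cast_nonneg _) (by positivity)
    apply pow_le_pow_left₀ (by positivity)
    exact mul_le_mul_of_nonneg_left hlogle (by positivity)
  have hNx : θ ≤ θ₂ * (1 - N / x) := by
    have h1 : N * θ₂ / (θ₂ - θ) < x := hx₄.trans_le (by exact_mod_cast (by omega : x₄ ≤ x))
    rw [div_lt_iff₀ (by linarith)] at h1
    have h2 : θ₂ * (1 - N / x) = θ₂ - N * θ₂ / x := by field_simp
    rw [h2]
    have h3 : N * θ₂ / (x : ℝ) ≤ θ₂ - θ := by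
      rw [div_le_iff₀ hxr]; linarith
    linarith
  have hNx2 : (1 : ℝ) / 2 ≤ 1 - N / x := by
    have : (N : ℝ) / x ≤ 1 / 2 := by
      rw [div_le_div_iff₀ hxr (by norm_num)]
      have : (2 * N : ℝ) ≤ x := by exact_mod_cast (by omega : 2 * N ≤ x)
      linarith
    linarith
  have hcμ : c * (x / (Real.log x) ^ k) ≤ c₁ * μ' := by
    calc c * (x / (Real.log x) ^ k) = c₁ * ((1 / 2) * μ) := by
          rw [hc, hμ, mul_pow]; field_simp
      _ ≤ c₁ * ((1 - N / x) * μ) := by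
          apply mul_le_mul_of_nonneg_left _ hc₁.le
          exact mul_le_mul_of_nonneg_right hNx2 hμ0.le
      _ ≤ _ := mul_le_mul_of_nonneg_left hμμ' hc₁.le
  have hbig : (2 * k * d + 1 : ℝ) ≤ c * (x / (Real.log x) ^ k) := by
    have h1 := hx₃ x (by omega)
    rw [mul_div_assoc', le_div_iff₀ (by positivity)]
    calc (2 * k * d + 1 : ℝ) * Real.log x ^ k ≤ (2 * k * d + 1 : ℝ) * (c / (2 * k * d + 1) * x) :=
          mul_le_mul_of_nonneg_left h1 (by positivity)
      _ = c * x := by field_simp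
  refine le_trans ?_ (hmain.trans ?_)
  · exact mul_le_mul_of_nonneg_right hcc₁ (by positivity)
  · rw [Nat.cast_le]
    apply card_le_card
    intro h hh
    rw [mem_filter] at hh ⊢
    obtain ⟨hB, h1, h2, hinj⟩ := hh
    have hpc := primeCount_shift (fun _ : Fin k => f) (fun _ => g) N (fun _ => hg) h x (by omega)
    rw [← hx'] at hpc
    have hpcr : (cntS (fun _ : Fin k => fun n => g.eval n) h x' : ℝ) ≤ primeCount (fun i => f + C (h i : ℤ)) x := by
      exact_mod_cast hpc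
    have h3 : c * (x / (Real.log x) ^ k) ≤ primeCount (fun i => f + C (h i : ℤ)) x := hcμ.trans (h2.trans hpcr)
    refine ⟨hB, ?_, ?_, h3⟩
    · apply BHFamily_shift (fun _ => f) (fun _ => by omega) (fun _ => hl) h ?_ x
      · have h4 := hbig.trans h3
        rw [sum_const, card_fin, smul_eq_mul]
        have h5 : 2 * k * d + 1 ≤ primeCount (fun i => f + C (h i : ℤ)) x := by exact_mod_cast h4
        have h6 : 2 * (k * f.natDegree) = 2 * k * d := by rw [hd]; ring
        omega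
      · intro i j hij
        apply hinj
        have h4 : f + C (h i : ℤ) = f + C (h j : ℤ) := hij
        have h5 := C_injective (add_left_cancel h4)
        exact_mod_cast h5
    · rw [eulerProduct_shift (fun _ => f) (fun _ => g) N (fun _ => hg) h z]
      refine le_trans ?_ (h1.trans hpcr)
      have hs := sgS_nonneg (fun _ : Fin k => fun n => g.eval n) h z
      calc θ * sgS (fun _ : Fin k => fun n => g.eval n) h z * μ ≤
            (θ₂ * (1 - N / x)) * sgS (fun _ : Fin k => fun n => g.eval n) h z * μ := by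
            apply mul_le_mul_of_nonneg_right _ hμ0.le
            exact mul_le_mul_of_nonneg_right hNx hs
        _ = θ₂ * sgS (fun _ : Fin k => fun n => g.eval n) h z * ((1 - N / x) * μ) := by ring
        _ ≤ _ := mul_le_mul_of_nonneg_left hμμ' (by positivity)

end Pool.Agent.H373R2.SH
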